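import Pool.Agent.Work.MP_8f87b2_h24.AM1
import Pool.Agent.Work.MP_8f87b2_h24.AM2
import Pool.Agent.Work.MP_8f87b2_h24.AM3
import Pool.Agent.Work.MP_8f87b2_h24.AM4
import Pool.Agent.Work.MP_8f87b2_h24.AM5

/-!
The certificate `CertM` is correct.
-/

namespace Pool.OddHC.CertM

/-- the code -/
def code_0 : List Nat := c0 ++ (c1 ++ (c2 ++ (c3 ++ (c4 ++ (c5 ++ (c6 ++ (c7 ++ (c8 ++ (c9 ++ (c10 ++ (c11 ++ (c12 ++ (c13 ++ (c14 ++ (c15 ++ (c16 ++ (c17 ++ (c18 ++ (c19 ++ (c20 ++ (c21 ++ (c22 ++ (c23 ++ (c24 ++ []))))))))))))))))))))))))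

theorem r24 : Abs.run A F_0 Z_0 x0_0 z0_0 cF_0 al (c24 ++ []) s24 = true :=
  Abs.runT_run (by exact rfl) c24 s24 t24

theorem r23 : Abs.run A F_0 Z_0 x0_0 z0_0 cF_0 al (c23 ++ (c24 ++ [])) s23 = true :=
  Abs.runT_run (by exact r24) c23 s23 t23

theorem r22 : Abs.run A F_0 Z_0 x0_0 z0_0 cF_0 al (c22 ++ (c23 ++ (c24 ++ []))) s22 = true :=
  Abs.runT_run (by exact r23) c22 s22 t22

theorem r21 : Abs.run A F_0 Z_0 x0_0 z0_0 cF_0 al (c21 ++ (c22 ++ (c23 ++ (c24 ++ [])))) s21 = true :=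
  Abs.runT_run (by exact r22) c21 s21 t21

theorem r20 : Abs.run A F_0 Z_0 x0_0 z0_0 cF_0 al (c20 ++ (c21 ++ (c22 ++ (c23 ++ (c24 ++ []))))) s20 = true :=
  Abs.runT_run (by exact r21) c20 s20 t20

theorem r19 : Abs.run A F_0 Z_0 x0_0 z0_0 cF_0 al (c19 ++ (c20 ++ (c21 ++ (c22 ++ (c23 ++ (c24 ++ [])))))) s19 = true :=
  Abs.runT_run (by exact r20) c19 s19 t19

theorem r18 : Abs.run A F_0 Z_0 x0_0 z0_0 cF_0 al (c18 ++ (c19 ++ (c20 ++ (c21 ++ (c22 ++ (c23 ++ (c24 ++ []))))))) s18 = true :=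
  Abs.runT_run (by exact r19) c18 s18 t18

theorem r17 : Abs.run A F_0 Z_0 x0_0 z0_0 cF_0 al (c17 ++ (c18 ++ (c19 ++ (c20 ++ (c21 ++ (c22 ++ (c23 ++ (c24 ++ [])))))))) s17 = true :=
  Abs.runT_run (by exact r18) c17 s17 t17

theorem r16 : Abs.run A F_0 Z_0 x0_0 z0_0 cF_0 al (c16 ++ (c17 ++ (c18 ++ (c19 ++ (c20 ++ (c21 ++ (c22 ++ (c23 ++ (c24 ++ []))))))))) s16 = true :=
  Abs.runT_run (by exact r17) c16 s16 t16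

theorem r15 : Abs.run A F_0 Z_0 x0_0 z0_0 cF_0 al (c15 ++ (c16 ++ (c17 ++ (c18 ++ (c19 ++ (c20 ++ (c21 ++ (c22 ++ (c23 ++ (c24 ++ [])))))))))) s15 = true :=
  Abs.runT_run (by exact r16) c15 s15 t15

theorem r14 : Abs.run A F_0 Z_0 x0_0 z0_0 cF_0 al (c14 ++ (c15 ++ (c16 ++ (c17 ++ (c18 ++ (c19 ++ (c20 ++ (c21 ++ (c22 ++ (c23 ++ (c24 ++ []))))))))))) s14 = true :=
  Abs.runT_run (by exact r15) c14 s14 t14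

theorem r13 : Abs.run A F_0 Z_0 x0_0 z0_0 cF_0 al (c13 ++ (c14 ++ (c15 ++ (c16 ++ (c17 ++ (c18 ++ (c19 ++ (c20 ++ (c21 ++ (c22 ++ (c23 ++ (c24 ++ [])))))))))))) s13 = true :=
  Abs.runT_run (by exact r14) c13 s13 t13

theorem r12 : Abs.run A F_0 Z_0 x0_0 z0_0 cF_0 al (c12 ++ (c13 ++ (c14 ++ (c15 ++ (c16 ++ (c17 ++ (c18 ++ (c19 ++ (c20 ++ (c21 ++ (c22 ++ (c23 ++ (c24 ++ []))))))))))))) s12 = true :=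
  Abs.runT_run (by exact r13) c12 s12 t12

theorem r11 : Abs.run A F_0 Z_0 x0_0 z0_0 cF_0 al (c11 ++ (c12 ++ (c13 ++ (c14 ++ (c15 ++ (c16 ++ (c17 ++ (c18 ++ (c19 ++ (c20 ++ (c21 ++ (c22 ++ (c23 ++ (c24 ++ [])))))))))))))) s11 = true :=
  Abs.runT_run (by exact r12) c11 s11 t11

theorem r10 : Abs.run A F_0 Z_0 x0_0 z0_0 cF_0 al (c10 ++ (c11 ++ (c12 ++ (c13 ++ (c14 ++ (c15 ++ (c16 ++ (c17 ++ (c18 ++ (c19 ++ (c20 ++ (c21 ++ (c22 ++ (c23 ++ (c24 ++ []))))))))))))))) s10 = true :=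
  Abs.runT_run (by exact r11) c10 s10 t10

theorem r9 : Abs.run A F_0 Z_0 x0_0 z0_0 cF_0 al (c9 ++ (c10 ++ (c11 ++ (c12 ++ (c13 ++ (c14 ++ (c15 ++ (c16 ++ (c17 ++ (c18 ++ (c19 ++ (c20 ++ (c21 ++ (c22 ++ (c23 ++ (c24 ++ [])))))))))))))))) s9 = true :=
  Abs.runT_run (by exact r10) c9 s9 t9

theorem r8 : Abs.run A F_0 Z_0 x0_0 z0_0 cF_0 al (c8 ++ (c9 ++ (c10 ++ (c11 ++ (c12 ++ (c13 ++ (c14 ++ (c15 ++ (c16 ++ (c17 ++ (c18 ++ (c19 ++ (c20 ++ (c21 ++ (c22 ++ (c23 ++ (c24 ++ []))))))))))))))))) s8 = true :=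
  Abs.runT_run (by exact r9) c8 s8 t8

theorem r7 : Abs.run A F_0 Z_0 x0_0 z0_0 cF_0 al (c7 ++ (c8 ++ (c9 ++ (c10 ++ (c11 ++ (c12 ++ (c13 ++ (c14 ++ (c15 ++ (c16 ++ (c17 ++ (c18 ++ (c19 ++ (c20 ++ (c21 ++ (c22 ++ (c23 ++ (c24 ++ [])))))))))))))))))) s7 = true :=
  Abs.runT_run (by exact r8) c7 s7 t7

theorem r6 : Abs.run A F_0 Z_0 x0_0 z0_0 cF_0 al (c6 ++ (c7 ++ (c8 ++ (c9 ++ (c10 ++ (c11 ++ (c12 ++ (c13 ++ (c14 ++ (c15 ++ (c16 ++ (c17 ++ (c18 ++ (c19 ++ (c20 ++ (c21 ++ (c22 ++ (c23 ++ (c24 ++ []))))))))))))))))))) s6 = true :=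
  Abs.runT_run (by exact r7) c6 s6 t6

theorem r5 : Abs.run A F_0 Z_0 x0_0 z0_0 cF_0 al (c5 ++ (c6 ++ (c7 ++ (c8 ++ (c9 ++ (c10 ++ (c11 ++ (c12 ++ (c13 ++ (c14 ++ (c15 ++ (c16 ++ (c17 ++ (c18 ++ (c19 ++ (c20 ++ (c21 ++ (c22 ++ (c23 ++ (c24 ++ [])))))))))))))))))))) s5 = true :=
  Abs.runT_run (by exact r6) c5 s5 t5

theorem r4 : Abs.run A F_0 Z_0 x0_0 z0_0 cF_0 al (c4 ++ (c5 ++ (c6 ++ (c7 ++ (c8 ++ (c9 ++ (c10 ++ (c11 ++ (c12 ++ (c13 ++ (c14 ++ (c15 ++ (c16 ++ (c17 ++ (c18 ++ (c19 ++ (c20 ++ (c21 ++ (c22 ++ (c23 ++ (c24 ++ []))))))))))))))))))))) s4 = true :=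
  Abs.runT_run (by exact r5) c4 s4 t4

theorem r3 : Abs.run A F_0 Z_0 x0_0 z0_0 cF_0 al (c3 ++ (c4 ++ (c5 ++ (c6 ++ (c7 ++ (c8 ++ (c9 ++ (c10 ++ (c11 ++ (c12 ++ (c13 ++ (c14 ++ (c15 ++ (c16 ++ (c17 ++ (c18 ++ (c19 ++ (c20 ++ (c21 ++ (c22 ++ (c23 ++ (c24 ++ [])))))))))))))))))))))) s3 = true :=
  Abs.runT_run (by exact r4) c3 s3 t3

theorem r2 : Abs.run A F_0 Z_0 x0_0 z0_0 cF_0 al (c2 ++ (c3 ++ (c4 ++ (c5 ++ (c6 ++ (c7 ++ (c8 ++ (c9 ++ (c10 ++ (c11 ++ (c12 ++ (c13 ++ (c14 ++ (c15 ++ (c16 ++ (c17 ++ (c18 ++ (c19 ++ (c20 ++ (c21 ++ (c22 ++ (c23 ++ (c24 ++ []))))))))))))))))))))))) s2 = true :=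
  Abs.runT_run (by exact r3) c2 s2 t2

theorem r1 : Abs.run A F_0 Z_0 x0_0 z0_0 cF_0 al (c1 ++ (c2 ++ (c3 ++ (c4 ++ (c5 ++ (c6 ++ (c7 ++ (c8 ++ (c9 ++ (c10 ++ (c11 ++ (c12 ++ (c13 ++ (c14 ++ (c15 ++ (c16 ++ (c17 ++ (c18 ++ (c19 ++ (c20 ++ (c21 ++ (c22 ++ (c23 ++ (c24 ++ [])))))))))))))))))))))))) s1 = true :=
  Abs.runT_run (by exact r2) c1 s1 t1

theorem r0 : Abs.run A F_0 Z_0 x0_0 z0_0 cF_0 al (c0 ++ (c1 ++ (c2 ++ (c3 ++ (c4 ++ (c5 ++ (c6 ++ (c7 ++ (c8 ++ (c9 ++ (c10 ++ (c11 ++ (c12 ++ (c13 ++ (c14 ++ (c15 ++ (c16 ++ (c17 ++ (c18 ++ (c19 ++ (c20 ++ (c21 ++ (c22 ++ (c23 ++ (c24 ++ []))))))))))))))))))))))))) s0 = true :=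
  Abs.runT_run (by exact r1) c0 s0 t0

theorem run20M : Pool.OddHC.Abs.run A F_0 Z_0 x0_0 z0_0 cF_0 al code_0 [[x0_0]] = true := r0

end Pool.OddHC.CertM
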