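import Pool.Agent.Work.MP_8f87b2_h35.Abs

/-!
MP_8f87b2_co: the 9-word pair gadget. Words 0 = R(()), 1 = (())R (both fresh), 2 = (()R), 3 = ((R)), 4 = (R()), 5 = (R)(),
6 = (X), 7 = X(), 8 = ()X; arcs 3 -> 6, 4 -> 7, 5 -> 8 (T^2); allowed images: the two 5-cycles
0 > 1 > 2 > 3 > 4 > 0, 0 > 1 > 2 > 3 > 5 > 0 and the hop triple 8 > 6 > 7 > 8.
-/

namespace Pool.OddHC.Cert9

/-- arcs -/
def A : Nat := 35183574351871

/-- fresh words -/
def F : Nat := 3

/-- the two fresh loops {0}, {1} -/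
def Z : Nat := 35184372087840

/-- allowed images -/
def al : List Nat := [3, 6, 12, 56, 17, 33, 192, 384, 320]

/-- the insertion tree (3 inner nodes, 4 leaves) -/
def code : List Nat := [3, 6, 4, 7, 5, 8, 6879631772737, 8, 6879468227649, 8, 9043058003009, 7, 9043221548097]

theorem run9 : Pool.OddHC.Abs.run A F Z 2 0 2 al code [[2]] = true := by decide +kernel

end Pool.OddHC.Cert9
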