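import Pool.Agent.Work.MP_8f87b2_h35.Abs

/-!
MP_8f87b2_co: the MIRROR of the 9-word pair gadget. Words = the mirror words in the same order: 0 = (())R, 1 = R(()) (both
fresh), 2 = (R()), 3 = ((R)), 4 = (()R), 5 = ()(R), 6 = (X), 7 = ()X, 8 = X(); arcs 6 -> 3, 7 -> 4, 8 -> 5 (T^2); allowed
images: the two 5-cycles 0 > 4 > 3 > 2 > 1 > 0, 0 > 5 > 3 > 2 > 1 > 0 and the hop triple 6 > 8 > 7 > 6.
-/

namespace Pool.OddHC.Cert9M

/-- arcs -/
def A : Nat := 5639292059647

/-- fresh words -/
def F : Nat := 3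

/-- the two fresh loops {0}, {1} -/
def Z : Nat := 35184372087840

/-- allowed images -/
def al : List Nat := [49, 3, 6, 12, 24, 40, 320, 192, 384]

/-- the insertion tree (3 inner nodes, 4 leaves) -/
def code : List Nat := [6, 3, 7, 4, 9043224626180, 4, 8, 5, 9043158565893, 5, 7911434683397, 5, 7911500743684]

theorem run9 : Pool.OddHC.Abs.run A F Z 2 0 2 al code [[2]] = true := by decide +kernel

end Pool.OddHC.Cert9M
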