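import Pool.Agent.Work.MP_8f87b2_base.Gad20

/-!
MP_8f87b2_co: first returns: from a small set to the words of a gadget; three points, the second is two steps behind the first.
-/

namespace Pool.OddHC

open Finset Equiv

/-- the first return to a set which contains all points of `B` on the walk -/
theorem FR.grow {W : Type} {f : Perm W} {B C : Finset W} {u v : W} (h : FR f C u v)
    (hB : ∀ x ∈ B, f.SameCycle u x → x ∈ C) : FR f B u v := by
  obtain ⟨n, hn, hi⟩ := h
  exact ⟨n, hn, fun i h1 h2 => hi i h1 (hB _ h2 ⟨((i + 1 : ℕ) : ℤ), by rw [zpow_natCast]⟩)⟩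

/-- a first return from a power -/
theorem FR.of_pow {W : Type} {f : Perm W} {C : Finset W} {u v : W} (n : ℕ) (h : (f ^ (n + 1)) u = v)
    (hi : ∀ i < n, (f ^ (i + 1)) u ∉ C) : FR f C u v := ⟨n, h, hi⟩

/-- three points `u, v, z` on one cycle, `v = f (f u)`, `z ≠ f u`: the cyclic order is `u, v, z` -/
theorem FR.three {W : Type} [Fintype W] [DecidableEq W] {f : Perm W} {u v z : W} (h2 : f (f u) = v) (huv : u ≠ v)
    (huz : u ≠ z) (hvz : v ≠ z) (h1 : f u ≠ z) (hs : f.SameCycle u z) :
    FR f {u, v, z} u v ∧ FR f {u, v, z} v z ∧ FR f {u, v, z} z u := by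
  classical
  have h1u : f u ≠ u := by
    intro h
    rw [h, h] at h2
    exact huv h2
  have h1v : f u ≠ v := by
    intro h
    rw [← h2] at h
    exact h1u (f.injective h.symm)
  have huv' : f.SameCycle u v := ⟨2, by
    rw [← h2]
    rfl⟩
  have hadd : ∀ (a b : ℕ) (x : W), (f ^ (a + b)) x = (f ^ a) ((f ^ b) x) := fun a b x => by
    rw [pow_add, Perm.mul_apply]
  have hpow2 : (f ^ 2) u = v := by
    rw [← h2]
    rfl
  refine ⟨⟨1, ?_, ?_⟩, ?_, ?_⟩
  · exact hpow2
  · intro i hi h
    have hi0 : i = 0 := by omega
    subst hi0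
    rw [zero_add, pow_one] at h
    simp only [mem_insert, mem_singleton] at h
    rcases h with h | h | h
    · exact h1u h
    · exact h1v h
    · exact h1 h
  · have hex : ∃ n : ℕ, (f ^ (n + 1)) v = z := by
      obtain ⟨n, hn⟩ := same_nat (huv'.symm.trans hs)
      rcases n with _ | n
      · rw [pow_zero, Perm.one_apply] at hn
        exact absurd hn hvz
      · exact ⟨n, hn⟩
    refine ⟨Nat.find hex, Nat.find_spec hex, ?_⟩
    intro i hi hB
    have h3 := Nat.find_spec hex
    simp only [mem_insert, mem_singleton] at hB
    rcases hB with hB | hB | hB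
    · -- the walk meets `u` before `z`
      have h4 : Nat.find hex ≠ i + 1 := by
        intro h
        apply h1
        rw [h, show i + 1 + 1 = 1 + (i + 1) by ring, hadd, hB, pow_one] at h3
        exact h3
      have h5 : Nat.find hex ≠ i + 2 := by
        intro h
        apply hvz
        rw [h, show i + 2 + 1 = 2 + (i + 1) by ring, hadd, hB, hpow2] at h3
        exact h3
      have h6 : (f ^ (Nat.find hex - (i + 3) + 1)) v = z := by
        have h7 := hadd (Nat.find hex - (i + 3) + 1) (2 + (i + 1)) v
        rw [hadd 2 (i + 1) v, hB, hpow2, show Nat.find hex - (i + 3) + 1 + (2 + (i + 1)) = Nat.find hex + 1 by omega,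
          h3] at h7
        exact h7.symm
      exact Nat.find_min hex (by omega) h6
    · have h6 : (f ^ (Nat.find hex - (i + 1) + 1)) v = z := by
        rw [show Nat.find hex + 1 = (Nat.find hex - (i + 1) + 1) + (i + 1) by omega, hadd, hB] at h3
        exact h3
      exact Nat.find_min hex (by omega) h6
    · exact Nat.find_min hex hi hB
  · have hex : ∃ n : ℕ, (f ^ (n + 1)) z = u := by
      obtain ⟨n, hn⟩ := same_nat hs.symm
      rcases n with _ | n
      · rw [pow_zero, Perm.one_apply] at hn
        exact absurd hn.symm huz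
      · exact ⟨n, hn⟩
    refine ⟨Nat.find hex, Nat.find_spec hex, ?_⟩
    intro i hi hB
    have h3 := Nat.find_spec hex
    simp only [mem_insert, mem_singleton] at hB
    rcases hB with hB | hB | hB
    · exact Nat.find_min hex hi hB
    · -- the walk meets `v` before `u`
      rcases i with _ | _ | i
      · rw [zero_add, pow_one, ← h2] at hB
        exact h1 (f.injective hB).symm
      · apply huz
        have : (f ^ (0 + 1 + 1)) z = (f ^ 2) u := by rw [hB, hpow2]
        exact ((f ^ 2).injective this).symm
      · have h6 : (f ^ (i + 1)) z = u := by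
          apply (f ^ 2).injective
          rw [hpow2, ← hadd, ← hB]
          congr 2
          ring
        exact Nat.find_min hex (by omega) h6
    · have h6 : (f ^ (Nat.find hex - (i + 1) + 1)) z = u := by
        rw [show Nat.find hex + 1 = (Nat.find hex - (i + 1) + 1) + (i + 1) by omega, hadd, hB] at h3
        exact h3
      exact Nat.find_min hex (by omega) h6

end Pool.OddHC
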