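import Pool.Agent.Work.MP_8f87b2_h24.J1
import Pool.Agent.Work.MP_8f87b2_h24.J2
import Pool.Agent.Work.MP_8f87b2_h24.J3
import Pool.Agent.Work.MP_8f87b2_h24.J4

/-!
The certificate `CertJ` is correct.
-/

namespace Pool.OddHC.CertJ

/-- the code -/
def code_0 : List Nat := c0 ++ (c1 ++ (c2 ++ (c3 ++ (c4 ++ (c5 ++ (c6 ++ (c7 ++ (c8 ++ (c9 ++ (c10 ++ (c11 ++ (c12 ++ (c13 ++ (c14 ++ []))))))))))))))

theorem r14 : Abs.run A F_0 Z_0 x0_0 z0_0 cF_0 al (c14 ++ []) s14 = true :=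
  Abs.runT_run (by exact rfl) c14 s14 t14

theorem r13 : Abs.run A F_0 Z_0 x0_0 z0_0 cF_0 al (c13 ++ (c14 ++ [])) s13 = true :=
  Abs.runT_run (by exact r14) c13 s13 t13

theorem r12 : Abs.run A F_0 Z_0 x0_0 z0_0 cF_0 al (c12 ++ (c13 ++ (c14 ++ []))) s12 = true :=
  Abs.runT_run (by exact r13) c12 s12 t12

theorem r11 : Abs.run A F_0 Z_0 x0_0 z0_0 cF_0 al (c11 ++ (c12 ++ (c13 ++ (c14 ++ [])))) s11 = true :=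
  Abs.runT_run (by exact r12) c11 s11 t11

theorem r10 : Abs.run A F_0 Z_0 x0_0 z0_0 cF_0 al (c10 ++ (c11 ++ (c12 ++ (c13 ++ (c14 ++ []))))) s10 = true :=
  Abs.runT_run (by exact r11) c10 s10 t10

theorem r9 : Abs.run A F_0 Z_0 x0_0 z0_0 cF_0 al (c9 ++ (c10 ++ (c11 ++ (c12 ++ (c13 ++ (c14 ++ [])))))) s9 = true :=
  Abs.runT_run (by exact r10) c9 s9 t9

theorem r8 : Abs.run A F_0 Z_0 x0_0 z0_0 cF_0 al (c8 ++ (c9 ++ (c10 ++ (c11 ++ (c12 ++ (c13 ++ (c14 ++ []))))))) s8 = true :=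
  Abs.runT_run (by exact r9) c8 s8 t8

theorem r7 : Abs.run A F_0 Z_0 x0_0 z0_0 cF_0 al (c7 ++ (c8 ++ (c9 ++ (c10 ++ (c11 ++ (c12 ++ (c13 ++ (c14 ++ [])))))))) s7 = true :=
  Abs.runT_run (by exact r8) c7 s7 t7

theorem r6 : Abs.run A F_0 Z_0 x0_0 z0_0 cF_0 al (c6 ++ (c7 ++ (c8 ++ (c9 ++ (c10 ++ (c11 ++ (c12 ++ (c13 ++ (c14 ++ []))))))))) s6 = true :=
  Abs.runT_run (by exact r7) c6 s6 t6

theorem r5 : Abs.run A F_0 Z_0 x0_0 z0_0 cF_0 al (c5 ++ (c6 ++ (c7 ++ (c8 ++ (c9 ++ (c10 ++ (c11 ++ (c12 ++ (c13 ++ (c14 ++ [])))))))))) s5 = true :=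
  Abs.runT_run (by exact r6) c5 s5 t5

theorem r4 : Abs.run A F_0 Z_0 x0_0 z0_0 cF_0 al (c4 ++ (c5 ++ (c6 ++ (c7 ++ (c8 ++ (c9 ++ (c10 ++ (c11 ++ (c12 ++ (c13 ++ (c14 ++ []))))))))))) s4 = true :=
  Abs.runT_run (by exact r5) c4 s4 t4

theorem r3 : Abs.run A F_0 Z_0 x0_0 z0_0 cF_0 al (c3 ++ (c4 ++ (c5 ++ (c6 ++ (c7 ++ (c8 ++ (c9 ++ (c10 ++ (c11 ++ (c12 ++ (c13 ++ (c14 ++ [])))))))))))) s3 = true :=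
  Abs.runT_run (by exact r4) c3 s3 t3

theorem r2 : Abs.run A F_0 Z_0 x0_0 z0_0 cF_0 al (c2 ++ (c3 ++ (c4 ++ (c5 ++ (c6 ++ (c7 ++ (c8 ++ (c9 ++ (c10 ++ (c11 ++ (c12 ++ (c13 ++ (c14 ++ []))))))))))))) s2 = true :=
  Abs.runT_run (by exact r3) c2 s2 t2

theorem r1 : Abs.run A F_0 Z_0 x0_0 z0_0 cF_0 al (c1 ++ (c2 ++ (c3 ++ (c4 ++ (c5 ++ (c6 ++ (c7 ++ (c8 ++ (c9 ++ (c10 ++ (c11 ++ (c12 ++ (c13 ++ (c14 ++ [])))))))))))))) s1 = true :=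
  Abs.runT_run (by exact r2) c1 s1 t1

theorem r0 : Abs.run A F_0 Z_0 x0_0 z0_0 cF_0 al (c0 ++ (c1 ++ (c2 ++ (c3 ++ (c4 ++ (c5 ++ (c6 ++ (c7 ++ (c8 ++ (c9 ++ (c10 ++ (c11 ++ (c12 ++ (c13 ++ (c14 ++ []))))))))))))))) s0 = true :=
  Abs.runT_run (by exact r1) c0 s0 t0

theorem runJ : Pool.OddHC.Abs.run A F_0 Z_0 x0_0 z0_0 cF_0 al code_0 [[x0_0]] = true := r0

end Pool.OddHC.CertJ
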