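import Pool.Agent.Work.MP_8f87b2_base.Gad20M
import Pool.Agent.Work.MP_8f87b2_h24.GadJ
import Pool.Agent.Work.MP_8f87b2_h24.JMAll

/-!
MP_8f87b2_co: the mirror of helper69's pair gadget J2 with its real words: the words `w20M R nil B S i`, `i < 20`, `i ≠ 5`;
the T-cycles of `(())R` and `R(())` are new; no link at `((R))`.
-/

namespace Pool.OddHC

open Finset BinaryTree Equiv

variable {k : ℕ}

/-- the mirror of the 19-word pair gadget J2 -/
noncomputable def gadJM (w : ℕ → X k) : DG k := by
  classical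
  exact
    { B := ((range 20).erase 5).image w
      F := {x | TT.SameCycle (w 0) x ∨ TT.SameCycle (w 4) x}
      arcs := {(w 11, w 1), (w 12, w 3), (w 15, w 6), (w 14, w 8)} }

theorem alJM_cases : ∀ i j : Fin 19, Abs.bit (CertJM.al.getD i.1 0) j.1 = true →
    Abs.bit (CertM.al.getD (skJ i.1) 0) (skJ j.1) = true := by
  decide

/-- THE MIRROR OF THE PAIR GADGET J2 ABSORBS: the T-cycles of `(())R` (with `S(())B` on it) and of `R(())` are new and
different, the other 16 words are on other T-cycles. -/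
theorem gadJM_abs {R B S : BinaryTree Unit} (hR : R.numNodes + 2 = k)
    (hB : S.numNodes + B.numNodes + 2 = k)
    {w : ℕ → X k} (hw : ∀ i < 20, i ≠ 5 → (w i).1 = w20M R .nil B S i)
    (hinj : ∀ i < 20, i ≠ 5 → ∀ j < 20, j ≠ 5 → w i = w j → i = j)
    (h10 : TT.SameCycle (w 0) (w 10)) (h04 : ¬ TT.SameCycle (w 0) (w 4))
    (hold : ∀ i < 20, i ≠ 0 → i ≠ 4 → i ≠ 5 → i ≠ 10 →
      ¬ TT.SameCycle (w 0) (w i) ∧ ¬ TT.SameCycle (w 4) (w i)) :
    (gadJM w).Abs := by
  classical
  have sk_lt : ∀ i < 19, skJ i < 20 := by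
    intro i hi; unfold skJ; split <;> omega
  have sk_ne : ∀ i, skJ i ≠ 5 := by
    intro i; unfold skJ; split <;> omega
  have sk_inj : ∀ i j, skJ i = skJ j → i = j := by
    intro i j; unfold skJ; split <;> split <;> omega
  have hBm : ∀ x, x ∈ (gadJM w).B ↔ ∃ i < CertJM.al.length, w (skJ i) = x := by
    intro x
    change x ∈ ((range 20).erase 5).image w ↔ _
    rw [mem_image]
    constructor
    · rintro ⟨i, hi, rfl⟩
      rw [mem_erase, mem_range] at hi
      refine ⟨if i < 5 then i else i - 1, ?_, ?_⟩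
      · change _ < 19
        split <;> omega
      · congr 1
        unfold skJ
        by_cases h5 : i < 5
        · rw [if_pos h5, if_pos h5]
        · rw [if_neg h5, if_neg (by omega)]
          omega
    · rintro ⟨i, hi, rfl⟩
      exact ⟨skJ i, mem_erase.2 ⟨sk_ne i, mem_range.2 (sk_lt i hi)⟩, rfl⟩
  have hbit : ∀ i : ℕ, Abs.bit CertJM.F_0 i = true ↔ (i = 0 ∨ i = 4 ∨ i = 9) := by
    intro i
    rw [Abs.bit_eq]
    constructor
    · intro h
      have h20 : i < 10 := by
        by_contra h2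
        have h3 : CertJM.F_0 < 2 ^ i := lt_of_lt_of_le (by decide)
          (Nat.pow_le_pow_right (by norm_num) (show 10 ≤ i by omega))
        rw [Nat.testBit_lt_two_pow h3] at h
        exact absurd h (by simp)
      interval_cases i <;> first | (left; rfl) | (right; left; rfl) | (right; right; rfl) | (exact absurd h (by decide))
    · rintro (rfl | rfl | rfl) <;> decide
  have hFi : ∀ i < 19, (w (skJ i) ∈ (gadJM w).F ↔ (i = 0 ∨ i = 4 ∨ i = 9)) := by
    intro i hi
    change (TT.SameCycle (w 0) (w (skJ i)) ∨ TT.SameCycle (w 4) (w (skJ i))) ↔ _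
    constructor
    · intro h
      by_contra h2
      push Not at h2
      have h0 : skJ i ≠ 0 := fun h => h2.1 (sk_inj _ _ (h.trans rfl))
      have h4 : skJ i ≠ 4 := fun h => h2.2.1 (sk_inj _ _ (h.trans rfl))
      have h10' : skJ i ≠ 10 := fun h => h2.2.2 (sk_inj _ _ (h.trans rfl))
      have h3 := hold (skJ i) (sk_lt i hi) h0 h4 (sk_ne i) h10'
      rcases h with h | h
      · exact h3.1 h
      · exact h3.2 h
    · rintro (rfl | rfl | rfl)
      · exact Or.inl (Perm.SameCycle.refl _ _)
      · exact Or.inr (Perm.SameCycle.refl _ _)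
      · exact Or.inl h10
  have hne : w 0 ≠ w 10 := by
    intro h
    have := hinj 0 (by norm_num) (by norm_num) 10 (by norm_num) (by norm_num) h
    omega
  have hin : ∀ x ∈ (gadJM w).B, TT.SameCycle (w 0) x → x = w 0 ∨ x = w 10 := by
    intro x hx hs
    obtain ⟨j, hj, rfl⟩ := (hBm x).1 hx
    have hj' : j < 19 := hj
    by_contra h2
    push Not at h2
    have h3 : j = 0 ∨ j = 4 ∨ j = 9 := (hFi j hj').1 (Or.inl hs)
    rcases h3 with rfl | rfl | rfl
    · exact h2.1 rfl
    · exact h04 hs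
    · exact h2.2 rfl
  have hin4 : ∀ x ∈ (gadJM w).B, TT.SameCycle (w 4) x → x = w 4 := by
    intro x hx hs
    obtain ⟨j, hj, rfl⟩ := (hBm x).1 hx
    have hj' : j < 19 := hj
    have h3 : j = 0 ∨ j = 4 ∨ j = 9 := (hFi j hj').1 (Or.inr hs)
    rcases h3 with rfl | rfl | rfl
    · exact absurd hs.symm h04
    · rfl
    · exact absurd (h10.trans hs.symm) h04
  apply Abs.cert_abs (gadJM w) (fun i => w (skJ i))
    (fun i => ((s20M R.numNodes B.numNodes S.numNodes (skJ i) : ℕ) : ZMod (2 * k + 1)))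
    CertJM.A CertJM.F_0 CertJM.Z_0 CertJM.x0_0 CertJM.z0_0 CertJM.cF_0 CertJM.al CertJM.code_0 hBm
  · intro i hi j hj h
    exact sk_inj _ _ (hinj _ (sk_lt i hi) (sk_ne i) _ (sk_lt j hj) (sk_ne j) h)
  · intro i hi
    rw [hFi i hi, hbit]
  · intro i h
    rw [hbit] at h
    change i < 19
    omega
  · intro x y hxy hx
    rcases hx with hx | hx
    · exact Or.inl (hx.trans hxy)
    · exact Or.inr (hx.trans hxy)
  · intro i hi hd
    have hi' : i < 19 := hi
    change (w (skJ i), w (skJ (Abs.dig CertJM.A i))) ∈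
      ({(w 11, w 1), (w 12, w 3), (w 15, w 6), (w 14, w 8)} : Set (X k × X k))
    have hd' : Abs.dig CertJM.A i < 19 := hd
    interval_cases i <;> first
      | exact absurd hd' (by decide)
      | exact Or.inl rfl
      | exact Or.inr (Or.inl rfl)
      | exact Or.inr (Or.inr (Or.inl rfl))
      | exact Or.inr (Or.inr (Or.inr rfl))
  · intro i h
    rw [hbit] at h
    rcases h with rfl | rfl | rfl
    · refine ⟨by decide, ?_⟩
      change FR TT (gadJM w).B (w 0) (w 10)
      exact FR_pair TT _ _ _ ((hBm _).2 ⟨9, by decide, rfl⟩) hne h10 hin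
    · refine ⟨by decide, ?_⟩
      change FR TT (gadJM w).B (w 4) (w 4)
      exact FR_self TT _ _ hin4
    · refine ⟨by decide, ?_⟩
      change FR TT (gadJM w).B (w 10) (w 0)
      refine FR_pair TT _ _ _ ((hBm _).2 ⟨0, by decide, rfl⟩) hne.symm h10.symm ?_
      intro x hx hs
      exact (hin x hx (h10.trans hs)).symm
  · intro i hi j hj hb
    have hi' : i < 19 := hi
    have hj' : j < 19 := hj
    have hb' := alJM_cases ⟨i, hi'⟩ ⟨j, hj'⟩ hb
    have e0 := sk_lt i hi'
    have e1 := sk_lt j hj'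
    rcases al20M_cases ⟨skJ i, e0⟩ ⟨skJ j, e1⟩ hb' with ⟨h1, h2, h3⟩ | ⟨h1, h2, h3⟩
    · have h1' : skJ i < 10 := h1
      have h2' : skJ j < 10 := h2
      have h4 := block_al (k := k) .nil R .nil .nil .nil (by
        change 0 + R.numNodes + 0 + 0 + 0 + 2 = k
        omega) (ix20_lt (skJ i)) (ix20_lt (skJ j)) (by rw [hw _ e0 (sk_ne i), w20M, if_pos h1'])
        (by rw [hw _ e1 (sk_ne j), w20M, if_pos h2']) h3 0
      unfold s20M
      rw [if_pos h1', if_pos h2']
      rw [zero_add, zero_add] at h4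
      exact h4
    · have h1' : 10 ≤ skJ i := h1
      have h2' : 10 ≤ skJ j := h2
      have h4 := block_al (k := k) .nil B S .nil .nil (by
        change 0 + B.numNodes + S.numNodes + 0 + 0 + 2 = k
        omega) (ix20_lt (skJ i - 10)) (ix20_lt (skJ j - 10))
        (by rw [hw _ e0 (sk_ne i), w20M, if_neg (by omega)])
        (by rw [hw _ e1 (sk_ne j), w20M, if_neg (by omega)]) h3 0
      unfold s20M
      rw [if_neg (by omega), if_neg (by omega)]
      rw [zero_add, zero_add] at h4
      exact h4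
  · decide
  · decide
  · decide
  · exact CertJM.runJM

end Pool.OddHC
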