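import Pool.Agent.Work.MP_8f87b2_h24.Ring1

/-!
MP_8f87b2_co: all words of content `(s, 3, 2)`, `s ≥ 4`, are in one T-cycle, and all words of content `(s, 4, 2)`, `s ≥ 5`, are in
one T-cycle (voltages 1 and 2). General: `dsc_ins`, `Vo_ins_val`: the displacement of an inflated word.
-/

set_option autoImplicit false

namespace Pool.OddHC

namespace J1

open Finset BinaryTree

variable {j k : ℕ}

/-- reduction of a word with given content -/
theorem red_cont (w : BinaryTree Unit) {M : Multiset ℕ} {m : ℕ} (hM : ∀ x ∈ M, 1 ≤ x)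
    (h : cont w = M.map (· + 1) + Multiset.replicate m 1) :
    ∃ (u : BinaryTree Unit) (e : List ℕ), e.length = 2 * u.numNodes + 1 ∧ w = ins u e ∧ e.sum = m ∧
      cont u = M := by
  have e0 := ins_red w
  have l0 := red_len w
  obtain ⟨u, hu⟩ : ∃ u, u = (red w).1 := ⟨_, rfl⟩
  obtain ⟨e, he⟩ : ∃ e, e = (red w).2 := ⟨_, rfl⟩
  rw [← hu, ← he] at e0
  rw [← hu, ← he] at l0
  have c0 := cont_ins u e l0
  have s0 := count_one_ins u e l0
  rw [e0, h] at c0 s0
  have s1 : e.sum = m := by
    rw [← s0, Multiset.count_add, Multiset.count_replicate_self]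
    rw [Multiset.count_eq_zero_of_notMem, zero_add]
    intro h1
    obtain ⟨x, hx, h2⟩ := Multiset.mem_map.1 h1
    have := hM x hx
    omega
  refine ⟨u, e, l0, e0.symm, s1, ?_⟩
  rw [s1] at c0
  exact (Ring1.map_succ_inj (add_right_cancel c0)).symm

/-- a bare word -/
theorem red_bare (w : BinaryTree Unit) {M : Multiset ℕ} (hM : ∀ x ∈ M, 1 ≤ x)
    (h : cont w = M.map (· + 1)) : ∃ u : BinaryTree Unit, w = inf u ∧ cont u = M := by
  obtain ⟨u, e, he, hw, hs, hc⟩ := red_cont w (m := 0) hM (by rw [h]; simp)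
  refine ⟨u, ?_, hc⟩
  have e2 : e = List.replicate (2 * u.numNodes + 1) 0 := by
    rw [List.eq_replicate_iff]
    exact ⟨he, fun b hb => List.sum_eq_zero_iff.1 hs b hb⟩
  rw [hw, e2]
  rfl

/-- a word of content `(b + 1, 2, 1)` as one bead over a word of content `(b, 1)` -/
theorem over_one (w : BinaryTree Unit) {M : Multiset ℕ} (hM : ∀ x ∈ M, 1 ≤ x)
    (h : cont w = M.map (· + 1) + {1}) (hj : M.sum = j) (hk : j + Multiset.card M + 1 = k) :
    ∃ (u : X j) (a : ZMod (2 * j + 1) → ℕ) (hk : j + pkn u.1 + ∑ x, a x = k), w = (phi u a hk).1 ∧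
      ∑ x, a x = 1 ∧ cont u.1 = M := by
  obtain ⟨u, e, he, hw, hs, hc⟩ := red_cont w (m := 1) hM h
  have hu : u.numNodes = j := by rw [← cont_sum, hc, hj]
  have he' : e.length = 2 * j + 1 := by rw [he, hu]
  obtain ⟨a, ha⟩ := exists_lf he'
  have ha1 : ∑ x, a x = 1 := by rw [← lf_sum, ← ha, hs]
  refine ⟨⟨u, mem_treesOfNumNodesEq.2 hu⟩, a, ?_, ?_, ha1, hc⟩
  · change j + pkn u + _ = k
    rw [ha1, ← cont_card, hc]
    omega
  · rw [hw, ha]
    rfl

/-- all words of content `(s, 3, 2)` -/
theorem same_32 {s : ℕ} (hs : 4 ≤ s) (w w' : X k) (h : cont w.1 = {s} + {3} + {2})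
    (h' : cont w'.1 = {s} + {3} + {2}) : (TT : Equiv.Perm (X k)).SameCycle w w' := by
  obtain ⟨q, rfl⟩ : ∃ q, s = q + 3 := ⟨s - 3, by omega⟩
  have key : ∀ w : X k, cont w.1 = {q + 3} + {3} + {2} → ∃ (u : X (q + 2))
      (a : ZMod (2 * (q + 2) + 1) → ℕ) (hk : (q + 2) + pkn u.1 + ∑ x, a x = q + 5),
      w.1 = inf (phi u a hk).1 ∧ ∑ x, a x = 1 ∧ ht u.1 + 1 = q + 2 := by
    intro w h
    obtain ⟨z, hz, hcz⟩ := red_bare w.1 (M := {q + 2} + {2} + {1}) (by
      intro x hx
      simp at hx
      omega) (by rw [h]; simp)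
    obtain ⟨u, a, hk, hw, ha, hcu⟩ := over_one (j := q + 2) (k := q + 5) z (M := {q + 1} + {1}) (by
      intro x hx
      simp at hx
      omega) (by rw [hcz]; simp) (by simp) (by simp)
    refine ⟨u, a, hk, by rw [← hw]; exact hz, ha, ?_⟩
    rw [ht_eq, hcu]
    simp
  obtain ⟨u, a, hk, hw, ha, hu⟩ := key w h
  obtain ⟨u', a', hk', hw', ha', hu'⟩ := key w' h'
  exact same_inf (same_21 (by omega) u u' hu hu' a a' ha ha' hk hk') hw hw'

/-! ### The displacement of an inflated word -/

theorem dsc_ud (z : Bool) (n : ℕ) (l : List Bool) : dsc z (ud n ++ l) = n + dsc z l := by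
  induction n with
  | zero => rw [ud, List.nil_append, zero_add]
  | succ n ih =>
    rw [ud, List.cons_append, List.cons_append, dsc, dsc, ih, List.headD_cons]
    simp only [pk01]
    simp
    omega

/-- the peaks of the linear form -/
theorem dsc_CL (z : Bool) : ∀ (l : List Bool) (e : List ℕ), l.length = e.length →
    dsc z (CL z l e) = e.sum + dsc z l := by
  intro l
  induction l with
  | nil =>
    intro e h
    have : e = [] := List.eq_nil_of_length_eq_zero h.symm
    subst this
    rfl
  | cons b l ih =>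
    intro e h
    cases e with
    | nil => simp at h
    | cons n e =>
      have h1 := ih e (by simpa using h)
      rw [CL, List.headD_cons, List.tail_cons, dsc, dsc, dsc_ud, h1, List.sum_cons]
      have h2 : (CL z l e).headD z = l.headD z := by cases l <;> rfl
      rcases Nat.eq_zero_or_pos (n + pk01 b (l.headD z)) with h0 | h0
      · have h3 : n = 0 ∧ pk01 b (l.headD z) = 0 := by omega
        rw [h0, ud, List.nil_append, h2, h3.1, h3.2]
        ring
      · obtain ⟨q, hq⟩ : ∃ q, n + pk01 b (l.headD z) = q + 1 := ⟨_, (Nat.succ_pred_eq_of_pos h0).symm⟩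
        have h4 : (ud (n + pk01 b (l.headD z)) ++ CL z l e).headD z = true := by
          rw [hq]
          rfl
        have h5 : pk01 b true = 0 := by cases b <;> rfl
        rw [h4, h5]
        ring

/-- PEAKS BEFORE THE FIRST MAXIMUM of an inflated word -/
theorem dsc_ins (hk1 : 1 ≤ k) (u : X j) (e : List ℕ) (he : e.length = 2 * j + 1) (w : X k) (hw : w.1 = ins u.1 e) :
    dsc true ((sl w.1).take ((Vo w).val + 1)) =
      (e.take (Vo u).val).sum + dsc true ((sl u.1).take ((Vo u).val + 1)) ∧
    (Vo w).val = (Vo u).val + 1 + 2 * (e.take (Vo u).val).sum +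
        2 * dsc true ((sl u.1).take ((Vo u).val + 1)) := by
  obtain ⟨d, hd⟩ : ∃ d, d = (Vo u).val := ⟨_, rfl⟩
  have hd2 : d < 2 * j + 1 := by rw [hd]; exact ZMod.val_lt _
  have h3 : (cw w.1).rotate 1 = CL false (cw u.1) e := by
    rw [hw]
    exact cw_ins u.1 e (by rw [X_num]; exact he)
  have hcw : cw w.1 = false :: (wd w.1).map not := rfl
  rw [hcw, List.rotate_cons_succ, List.rotate_zero] at h3
  -- the prefix
  have hA : (cw u.1).take d ++ (cw u.1).drop d = cw u.1 := List.take_append_drop _ _
  have hE : e.take d ++ e.drop d = e := List.take_append_drop _ _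
  have hl : ((cw u.1).take d).length = (e.take d).length := by
    rw [List.length_take, List.length_take, cw_len, he]
  have hdr : ((cw u.1).drop d).headD false = false := by
    have h1 := cw_rot u
    rw [← hd, List.rotate_eq_drop_append_take (by rw [cw_len]; omega)] at h1
    have h2 : (cw u.1).drop d ≠ [] := by
      intro h
      have := congrArg List.length h
      rw [List.length_drop, cw_len, List.length_nil] at this
      omega
    cases h4 : (cw u.1).drop d with
    | nil => exact absurd h4 h2
    | cons b l =>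
      rw [h4, List.cons_append] at h1
      unfold sl at h1
      rw [List.cons.injEq] at h1
      exact h1.1
  have h4 : CL false (cw u.1) e = CL false ((cw u.1).take d) (e.take d) ++
      CL false ((cw u.1).drop d) (e.drop d) := by
    nth_rewrite 1 [← hA, ← hE]
    rw [CL_append _ _ _ _ _ hl, hdr]
  obtain ⟨L, hL⟩ : ∃ L, L = (CL false ((cw u.1).take d) (e.take d)).length := ⟨_, rfl⟩
  have h5 := (TF_ins' u e he w hw).2
  rw [← hd, ← hL] at h5
  -- the rest is not empty
  have h6 : 1 ≤ (CL false ((cw u.1).drop d) (e.drop d)).length := by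
    cases h7 : (cw u.1).drop d with
    | nil =>
      exfalso
      have := congrArg List.length h7
      rw [List.length_drop, cw_len, List.length_nil] at this
      omega
    | cons b l =>
      rw [CL, List.length_cons]
      omega
  have h7 : 1 + L < 2 * k + 1 + 1 := by
    have := congrArg List.length h3
    rw [h4, List.length_append, List.length_append, List.length_map, List.length_singleton, wd_length,
      X_num, ← hL] at this
    omega
  -- `1 + L` is not the whole length
  have h8 : (Vo w).val = 1 + L := by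
    rcases Nat.lt_or_ge (1 + L) (2 * k + 1) with h9 | h9
    · rw [h5, ZMod.val_natCast_of_lt h9]
    · exfalso
      -- then the rest is one letter
      have h10 : 1 + L = 2 * k + 1 := by omega
      have := congrArg List.length h3
      rw [h4, List.length_append, List.length_append, List.length_map, List.length_singleton, wd_length,
        X_num, ← hL] at this
      have h11 : (CL false ((cw u.1).drop d) (e.drop d)).length = 1 := by omega
      -- `Vo w = 0`, impossible for a word of size >= 1
      have h12 : (Vo w).val = 0 := by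
        rw [h5, h10, ZMod.natCast_self, ZMod.val_zero]
      have h13 := cw_rot w
      rw [h12, List.rotate_zero] at h13
      cases hk0 : w.1 with
      | nil =>
        have hk : k = 0 := by
          have := X_num w
          rw [hk0] at this
          exact this.symm
        omega
      | node _ A B =>
        rw [hk0] at h13
        unfold cw sl at h13
        rw [List.map_cons, List.cons.injEq] at h13
        have h17 := h13.2
        cases hT : (TF w).1 with
        | nil =>
          rw [hT] at h17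
          simp [wd] at h17
        | node _ A' B' =>
          rw [hT] at h17
          simp [wd] at h17
  have h9 : (cw w.1).take (1 + L) = false :: CL false ((cw u.1).take d) (e.take d) := by
    rw [hcw, add_comm, List.take_succ_cons]
    congr 1
    have h10 : ((wd w.1).map not ++ [false]).take L = CL false ((cw u.1).take d) (e.take d) := by
      rw [h3, h4, hL]
      exact List.take_left' rfl
    rw [← h10, List.take_append_of_le_length]
    rw [List.length_map, wd_length, X_num]
    omega
  have h10 : dsc true ((sl w.1).take ((Vo w).val + 1)) =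
      (e.take d).sum + dsc true ((sl u.1).take (d + 1)) := by
    rw [← dsc_cw w, h8, h9, dsc, dsc_CL _ _ _ hl]
    have := dsc_cw u
    rw [← hd] at this
    rw [this]
    have h11 : ∀ b, pk01 false b = 0 := fun b => rfl
    rw [h11, zero_add]
  rw [← hd]
  refine ⟨h10, ?_⟩
  rw [h8, hL, CL_length _ _ _ hl]
  have h11 := dsc_cw u
  rw [← hd] at h11
  rw [h11, List.length_take, cw_len, Nat.min_eq_left hd2.le]
  ring

/-! ### Content `(s, 4, 2)` -/

/-- the nested word -/
theorem dsc_pw (q : ℕ) (hq : 1 ≤ q) : (Vo (pwX q)).val = q ∧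
    dsc true ((sl (pwX q).1).take ((Vo (pwX q)).val + 1)) = 0 := by
  have hv : (Vo (pwX q)).val = q := by
    rw [Vo_pw q hq, ZMod.val_natCast_of_lt (by omega)]
  refine ⟨hv, ?_⟩
  rw [hv]
  change dsc true ((sl (pw q)).take (q + 1)) = 0
  rw [take_pw, dsc, dsc_one]
  rfl

/-- one bead over the nested word -/
theorem one_over {q k : ℕ} (hq : 1 ≤ q) (s : ZMod (2 * q + 1))
    (hk : q + pkn (pwX q).1 + ∑ x, (if x = s then 1 else 0) = k) :
    (Vo (phi (pwX q) (fun x => if x = s then 1 else 0) hk)).val =
      q + 1 + 2 * (if s.val < q then 1 else 0) ∧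
    dsc true ((sl (phi (pwX q) (fun x => if x = s then 1 else 0) hk).1).take
      ((Vo (phi (pwX q) (fun x => if x = s then 1 else 0) hk)).val + 1)) = if s.val < q then 1 else 0 := by
  have h1 : pkn (pwX q).1 = 1 := by
    obtain ⟨p, hp⟩ : ∃ p, q = p + 1 := ⟨q - 1, by omega⟩
    change pkn (pw q) = 1
    rw [hp, pkn_pw]
  have h := dsc_ins (by rw [h1] at hk; omega) (pwX q)
    (lf (fun x : ZMod (2 * q + 1) => if x = s then 1 else 0)) (lf_length _)
    (phi (pwX q) (fun x => if x = s then 1 else 0) hk) rfl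
  obtain ⟨hv, hd⟩ := dsc_pw q hq
  rw [hd, hv] at h
  have e2 : ((lf (fun x : ZMod (2 * q + 1) => if x = s then 1 else 0)).take q).sum =
      if s.val < q then 1 else 0 := by
    unfold lf
    rw [← List.map_take, List.take_range, Nat.min_eq_left (by omega)]
    change ∑ i ∈ range q, (if ((i : ℕ) : ZMod (2 * q + 1)) = s then 1 else 0) = _
    have e3 : ∀ i ∈ range q, (if ((i : ℕ) : ZMod (2 * q + 1)) = s then 1 else 0) =
        if i = s.val then 1 else 0 := by
      intro i hi
      rw [mem_range] at hi
      have : ((i : ℕ) : ZMod (2 * q + 1)) = s ↔ i = s.val := by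
        constructor
        · rintro rfl
          rw [ZMod.val_natCast_of_lt (by omega)]
        · rintro rfl
          exact ZMod.natCast_zmod_val s
      simp only [this]
    rw [sum_congr rfl e3, sum_ite_eq' (range q) s.val (fun _ => 1)]
    simp only [mem_range]
  rw [e2] at h
  exact ⟨h.2.trans (by ring), h.1.trans (by ring)⟩

/-- one full turn of a word of content `(q + 2, 2)`: voltage 2 -/
theorem turn_two {q : ℕ} (hq : 1 ≤ q) (w : X (q + 4)) (h : cont w.1 = {q + 2} + {2}) :
    (TT ^ (2 * q + 1)) w = w ∧ sp w (2 * q + 1) = 2 := by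
  obtain ⟨u0, hw, hcu⟩ := red_bare w.1 (M := {q + 1} + {1}) (by
    intro x hx
    simp at hx
    omega) (by rw [h]; simp)
  have hnu : u0.numNodes = q + 2 := by
    rw [← cont_sum, hcu]
    simp
  obtain ⟨u, hu⟩ : ∃ u : X (q + 2), u.1 = u0 := ⟨⟨u0, mem_treesOfNumNodesEq.2 hnu⟩, rfl⟩
  rw [← hu] at hw hcu
  have hht : ht u.1 + 1 = q + 2 := by
    rw [ht_eq, hcu]
    simp
  have hpk : pkn u.1 = 2 := by
    rw [← cont_card, hcu]
    simp
  obtain ⟨e1, e2⟩ := turn_one hq u hht
  have h0 : (q + 2) + pkn u.1 + ∑ _x : ZMod (2 * (q + 2) + 1), 0 = q + 4 := by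
    rw [Finset.sum_const_zero, hpk, add_zero]
  have hw' : w = phi u (fun _ => 0) h0 := by
    apply Subtype.ext
    rw [hw]
    change inf u.1 = ins u.1 (lf _)
    rw [lf_zero]
    unfold inf
    rw [X_num]
  -- the words of `u` during the turn
  have hu' : ∃ (s : ZMod (2 * q + 1)) (hk : q + pkn (pwX q).1 +
      ∑ x : ZMod (2 * q + 1), (if x = s then 1 else 0) = q + 2),
      u = phi (pwX q) (fun x => if x = s then 1 else 0) hk := by
    obtain ⟨z, a, hk, hz, ha, hcz⟩ := over_one (j := q) (k := q + 2) u.1 (M := {q}) (by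
      intro x hx
      simp at hx
      omega) (by rw [hcu]; simp) (by simp) (by simp)
    have hz' : z = pwX q := ht_fullX z (by rw [ht_eq, hcz]; simp)
    subst hz'
    obtain ⟨s, rfl⟩ := one_bead a ha
    exact ⟨s, hk, Subtype.ext hz⟩
  obtain ⟨s, hk, hus⟩ := hu'
  have hL : ((2 * q + 1 : ℕ) : ZMod (2 * q + 1)) = 0 := ZMod.natCast_self _
  have hstep : ∀ i : ℕ, ∃ hk' : q + pkn (pwX q).1 + ∑ x : ZMod (2 * q + 1),
      (if x = s - (i : ZMod (2 * q + 1)) * q then 1 else 0) = q + 2,
      (TT ^ i) u = phi (pwX q) (fun x => if x = s - (i : ZMod (2 * q + 1)) * q then 1 else 0) hk' := by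
    intro i
    have e : (∑ x : ZMod (2 * q + 1), if x = s - (i : ZMod (2 * q + 1)) * q then 1 else 0) = 1 :=
      one_bead_sum _
    have e' : (∑ x : ZMod (2 * q + 1), if x = s then 1 else 0) = 1 := one_bead_sum _
    refine ⟨by rw [e]; rw [e'] at hk; exact hk, ?_⟩
    rw [hus, pow_phi]
    apply phi_congr (sp_pw q hq i).2
    funext x
    rw [(sp_pw q hq i).1]
    have : x + (i : ZMod (2 * q + 1)) * q = s ↔ x = s - (i : ZMod (2 * q + 1)) * q := by
      constructor
      · intro h; linear_combination h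
      · rintro rfl; ring
    simp only [this]
  have hVo : ∀ i : ℕ, Vo ((TT ^ i) w) =
      ((q + 2 + 4 * (if (s - (i : ZMod (2 * q + 1)) * q).val < q then 1 else 0) : ℕ) :
        ZMod (2 * (q + 4) + 1)) := by
    intro i
    obtain ⟨hk', h1⟩ := hstep i
    rw [hw', pow_phi]
    have h2 := dsc_ins (k := q + 4) (by omega) ((TT ^ i) u) (lf fun _ => 0) (lf_length _)
      (phi ((TT ^ i) u) (fun _ => 0) (by rw [pkn_pow]; exact h0)) rfl
    obtain ⟨h3, h4⟩ := one_over hq _ hk'
    rw [← h1] at h3 h4
    rw [h4, h3, lf_zero] at h2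
    have h5 : ((List.replicate (2 * (q + 2) + 1) 0).take
        (q + 1 + 2 * if (s - (i : ZMod (2 * q + 1)) * q).val < q then 1 else 0)).sum = 0 := by
      rw [List.take_replicate, List.sum_replicate, smul_zero]
    rw [h5] at h2
    rw [← ZMod.natCast_zmod_val (Vo _), h2.2]
    congr 1
    ring
  constructor
  · rw [hw', pow_phi]
    apply phi_congr e1
    rfl
  · rw [sp_sum, sum_congr rfl (fun i _ => hVo i), ← Nat.cast_sum]
    have h3 : ∑ i ∈ range (2 * q + 1), (q + 2 + 4 * (if (s - (i : ZMod (2 * q + 1)) * q).val < q then 1 else 0)) =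
        (2 * q + 1) * (q + 2) + 4 * q := by
      rw [sum_add_distrib, sum_const, card_range, smul_eq_mul, ← mul_sum]
      congr 2
      have h4 := lf_sum (fun t : ZMod (2 * q + 1) => if (s - t * q).val < q then 1 else 0)
      have h5 : ∑ i ∈ range (2 * q + 1), (if (s - (i : ZMod (2 * q + 1)) * q).val < q then 1 else 0) =
          (lf (fun t : ZMod (2 * q + 1) => if (s - t * q).val < q then 1 else 0)).sum := rfl
      rw [h5, h4]
      have hinj : Function.Injective (fun t : ZMod (2 * q + 1) => s - t * q) := by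
        intro t t' htt
        simp only at htt
        have h6 : (2 * (q : ZMod (2 * q + 1)) + 1) = 0 := by
          have := hL
          push_cast at this
          exact this
        have h7 : t * q = t' * q := by linear_combination -htt
        linear_combination -2 * h7 + (t - t') * h6
      have hbij : Function.Bijective (fun t : ZMod (2 * q + 1) => s - t * q) :=
        Finite.injective_iff_bijective.1 hinj
      have h8 : ∑ t : ZMod (2 * q + 1), (if (s - t * q).val < q then 1 else 0) =
          ∑ y : ZMod (2 * q + 1), if y.val < q then 1 else 0 :=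
        Function.Bijective.sum_comp hbij (fun y : ZMod (2 * q + 1) => if y.val < q then 1 else 0)
      rw [h8]
      have h9 := lf_sum (fun y : ZMod (2 * q + 1) => if y.val < q then 1 else 0)
      rw [← h9]
      change ∑ i ∈ range (2 * q + 1), (if ((i : ℕ) : ZMod (2 * q + 1)).val < q then 1 else 0) = q
      have h10 : ∀ i ∈ range (2 * q + 1), (if ((i : ℕ) : ZMod (2 * q + 1)).val < q then 1 else 0) =
          if i < q then 1 else 0 := by
        intro i hi
        rw [mem_range] at hi
        rw [ZMod.val_natCast_of_lt hi]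
      rw [sum_congr rfl h10, ← sum_filter, sum_const, smul_eq_mul, mul_one]
      have : (range (2 * q + 1)).filter (fun i => i < q) = range q := by
        ext i
        simp only [mem_filter, mem_range]
        omega
      rw [this, card_range]
    rw [h3]
    have h4 : (2 * q + 1) * (q + 2) + 4 * q = q * (2 * (q + 4) + 1) + 2 := by ring
    rw [h4, Nat.cast_add, Nat.cast_mul, ZMod.natCast_self, mul_zero, zero_add]
    rfl

/-- all words of content `(s, 4, 2)` -/
theorem same_42 {s : ℕ} (hs : 5 ≤ s) (w w' : X k) (h : cont w.1 = {s} + {4} + {2})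
    (h' : cont w'.1 = {s} + {4} + {2}) : (TT : Equiv.Perm (X k)).SameCycle w w' := by
  obtain ⟨q, rfl⟩ : ∃ q, s = q + 4 := ⟨s - 4, by omega⟩
  have hq : 1 ≤ q := by omega
  have key : ∀ w : X k, cont w.1 = {q + 4} + {4} + {2} → ∃ (u : X (q + 4))
      (a : ZMod (2 * (q + 4) + 1) → ℕ) (hk : (q + 4) + pkn u.1 + ∑ x, a x = q + 7),
      w.1 = inf (phi u a hk).1 ∧ ∑ x, a x = 1 ∧ cont u.1 = {q + 2} + {2} := by
    intro w h
    obtain ⟨z, hz, hcz⟩ := red_bare w.1 (M := {q + 3} + {3} + {1}) (by
      intro x hx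
      simp at hx
      omega) (by rw [h]; simp)
    obtain ⟨u, a, hk, hw, ha, hcu⟩ := over_one (j := q + 4) (k := q + 7) z (M := {q + 2} + {2}) (by
      intro x hx
      simp at hx
      omega) (by rw [hcz]; simp) (by simp) (by simp)
    exact ⟨u, a, hk, by rw [← hw]; exact hz, ha, hcu⟩
  -- two words of content `(q + 2, 2)` are in one T-cycle
  have key2 : ∀ u : X (q + 4), cont u.1 = {q + 2} + {2} → ∃ v : X (q + 2), u.1 = inf v.1 ∧
      ht v.1 + 1 = q + 2 := by
    intro u hu
    obtain ⟨v, hv, hcv⟩ := red_bare u.1 (M := {q + 1} + {1}) (by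
      intro x hx
      simp at hx
      omega) (by rw [hu]; simp)
    refine ⟨⟨v, mem_treesOfNumNodesEq.2 (by rw [← cont_sum, hcv]; simp)⟩, hv, ?_⟩
    change ht v + 1 = _
    rw [ht_eq, hcv]
    simp
  obtain ⟨u, a, hk, hw, ha, hu⟩ := key w h
  obtain ⟨u', a', hk', hw', ha', hu'⟩ := key w' h'
  refine same_inf ?_ hw hw'
  obtain ⟨v, hv, hvh⟩ := key2 u hu
  obtain ⟨v', hv', hvh'⟩ := key2 u' hu'
  have hs := same_inf (same_sub (by omega) v v' hvh hvh') hv hv'
  obtain ⟨i, rfl⟩ := sameCycle_nat hs
  have h1 : (TT : Equiv.Perm (X (q + 7))).SameCycle (phi u a hk) ((TT ^ i) (phi u a hk)) :=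
    ⟨(i : ℤ), by rw [zpow_natCast]⟩
  rw [pow_phi] at h1
  refine h1.trans ?_
  obtain ⟨s, hs⟩ := one_bead (fun x => a (x + sp u i)) (by rw [sum_shift]; exact ha)
  obtain ⟨t, ht⟩ := one_bead a' ha'
  rw [same_iff]
  -- the rotations of `u'` are everything
  have hall : ∀ r : ZMod (2 * (q + 4) + 1), r ∈ rotGrp ((TT ^ i) u) := by
    intro r
    have h2 : (2 : ZMod (2 * (q + 4) + 1)) ∈ rotGrp ((TT ^ i) u) := by
      obtain ⟨e1, e2⟩ := turn_two hq ((TT ^ i) u) hu'
      exact ⟨_, e1, e2⟩
    have h0 : ((2 * (q + 4) + 1 : ℕ) : ZMod (2 * (q + 4) + 1)) = 0 := ZMod.natCast_self _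
    have h3 := (rotGrp ((TT ^ i) u)).nsmul_mem h2 ((q + 5) * r.val)
    rw [nsmul_eq_mul] at h3
    have h4 : (((q + 5) * r.val : ℕ) : ZMod (2 * (q + 4) + 1)) * 2 = r := by
      rw [Nat.cast_mul, ZMod.natCast_zmod_val]
      push_cast at h0 ⊢
      linear_combination r * h0
    rw [h4] at h3
    exact h3
  obtain ⟨l, h2, h3⟩ := mem_rotGrp.1 (hall (s - t))
  refine ⟨l, h2, ?_⟩
  rw [h3, ht]
  have h4 : ∀ x, a (x + sp u i) = if x = s then 1 else 0 := fun x => congrFun hs x
  funext x
  rw [h4]
  have : x + (s - t) = s ↔ x = t := by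
    constructor
    · intro h; linear_combination h
    · rintro rfl; ring
  simp only [this]

end J1

end Pool.OddHC
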