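import Pool.Agent.Work.MP_8f87b2_h24.GadJA
import Pool.Agent.Work.MP_8f87b2_h24.J1Same
import Pool.Agent.Work.MP_8f87b2_h71.H1Gad
import Pool.Agent.Work.MP_8f87b2_h62.Drift
import Pool.Agent.Work.MP_8f87b2_mid.Types

/-!
MP_8f87b2_co: the 20-word absorber with `Q` empty over a bare word `R` (all parts at least 3, `(S, B) = sq R`, `B` not empty):
the words `jX` in `X k`, they are different (`jX_inj`), contents and rank (`rank_J`), the `T^2` links (`jX_link`), `TT (w 0) ≠ w 4`
(`jX_ne`), and the gadget J1a if `R(())` and `(())R` are in one T-cycle (`TyJ1`).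
-/

set_option autoImplicit false

namespace Pool.OddHC

namespace J1

open Finset BinaryTree Equiv H1

variable {k : ℕ} {R B S : BinaryTree Unit}

/-- the data: `R` bare, `B` not empty -/
structure JDat (k : ℕ) (R B S : BinaryTree Unit) : Prop where
  sq : Tsq.sq R = (S, B)
  ne : R ≠ .nil
  bare : ∀ x ∈ cont R, 3 ≤ x
  hB : B ≠ .nil
  num : R.numNodes + 2 = k

theorem JDat.big (h : JDat k R B S) : 3 ≤ ht R := by
  have h0 : cont R ≠ 0 := fun e => h.ne (cont_eq_zero.1 e)
  rw [OddHC.ht_eq]
  exact h.bare _ (sup_mem h0)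

theorem JDat.cont (h : JDat k R B S) : OddHC.cont B + OddHC.cont S = OddHC.cont R := by
  let x : X R.numNodes := ⟨R, mem_treesOfNumNodesEq.2 rfl⟩
  have e1 : (TT (TT x)).1 = app (Tsq.sq R).2 (Tsq.sq R).1 := Tsq.TT_sq x h.ne
  have e2 : OddHC.cont (TT (TT x)).1 = OddHC.cont R := by
    rw [TT_apply, cont_TF, TT_apply, cont_TF]
  rw [e1, cont_app, h.sq] at e2
  exact e2

theorem JDat.dat (h : JDat k R B S) : Dat 0 R B S := by
  refine ⟨h.sq, h.big, fun x hx => ?_⟩
  have := h.bare x (by rw [← h.cont]; exact Multiset.mem_add.2 (Or.inl hx))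
  omega

theorem JDat.bareB (h : JDat k R B S) : ∀ x ∈ OddHC.cont B, 3 ≤ x := fun x hx =>
  h.bare x (by rw [← h.cont]; exact Multiset.mem_add.2 (Or.inl hx))

theorem JDat.bareS (h : JDat k R B S) : ∀ x ∈ OddHC.cont S, 3 ≤ x := fun x hx =>
  h.bare x (by rw [← h.cont]; exact Multiset.mem_add.2 (Or.inr hx))

theorem JDat.hS (h : JDat k R B S) : S ≠ .nil := by
  have := Tsq.sq_ne h.ne
  rwa [h.sq] at this

/-- the words -/
noncomputable def jX (R B S : BinaryTree Unit) (w0 : X k) (i : ℕ) : X k := by
  classical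
  exact if h : (W R .nil B S i).numNodes = k then ⟨_, mem_treesOfNumNodesEq.2 h⟩ else w0

theorem jX_eq (h : JDat k R B S) (w0 : X k) {i : ℕ} (hi : i < 20) :
    (jX R B S w0 i).1 = W R .nil B S i := by
  unfold jX
  rw [dif_pos (by
    rw [num_W h.dat _ i hi]
    change R.numNodes + 0 + 2 = k
    rw [add_zero, h.num])]

/-! ### The words are different -/

/-- all components are neither `()` nor `(())` -/
def hw : BinaryTree Unit → Prop
  | .nil => True
  | .node _ A B => A ≠ .nil ∧ A ≠ .nil △ .nil ∧ hw B

theorem hw_bare : ∀ t : BinaryTree Unit, (∀ x ∈ OddHC.cont t, 3 ≤ x) → hw t := by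
  intro t
  induction t with
  | nil => intro _; exact trivial
  | node _ A B _ ih =>
    intro h
    have h' : ∀ x ∈ raise (OddHC.cont A) + OddHC.cont B, 3 ≤ x := h
    refine ⟨?_, ?_, ih fun x hx => h' x (Multiset.mem_add.2 (Or.inr hx))⟩
    · rintro rfl
      have := h' 1 (Multiset.mem_add.2 (Or.inl (by rw [cont_nil, raise_zero]; simp)))
      omega
    · rintro rfl
      have := h' 2 (Multiset.mem_add.2 (Or.inl (by decide)))
      omega

/-- number of the components `()` -/
def c1 : BinaryTree Unit → ℕ
  | .nil => 0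
  | .node _ .nil B => 1 + c1 B
  | .node _ (.node _ _ _) B => c1 B

/-- number of the components `(())` -/
def c2 : BinaryTree Unit → ℕ
  | .nil => 0
  | .node _ (.node _ .nil .nil) B => 1 + c2 B
  | .node _ _ B => c2 B

theorem c1_app (P Q : BinaryTree Unit) : c1 (app P Q) = c1 P + c1 Q := by
  induction P with
  | nil => rw [app, c1, zero_add]
  | node _ A B _ ih =>
    cases A with
    | nil => rw [app, c1, c1, ih, add_assoc]
    | node _ C D => rw [app, c1, c1, ih]

theorem c2_node1 (B : BinaryTree Unit) : c2 ((.nil △ .nil) △ B) = 1 + c2 B := rfl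

theorem c2_node0 {A B : BinaryTree Unit} (h : A ≠ .nil △ .nil) : c2 (A △ B) = c2 B := by
  cases A with
  | nil => rfl
  | node u C D =>
    cases C with
    | nil =>
      cases D with
      | nil => exact absurd rfl h
      | node _ _ _ => rfl
    | node _ _ _ => rfl

theorem c2_app (P Q : BinaryTree Unit) : c2 (app P Q) = c2 P + c2 Q := by
  induction P with
  | nil => rw [app, c2, zero_add]
  | node _ A B _ ih =>
    change c2 (A △ app B Q) = c2 (A △ B) + c2 Q
    by_cases h : A = .nil △ .nil
    · subst h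
      rw [c2_node1, c2_node1, ih, add_assoc]
    · rw [c2_node0 h, c2_node0 h, ih]

theorem hw_c (t : BinaryTree Unit) (h : hw t) : c1 t = 0 ∧ c2 t = 0 := by
  induction t with
  | nil => exact ⟨rfl, rfl⟩
  | node _ A B _ ih =>
    obtain ⟨h1, h2, h3⟩ := h
    obtain ⟨i1, i2⟩ := ih h3
    constructor
    · cases A with
      | nil => exact absurd rfl h1
      | node _ C D => exact i1
    · change c2 (A △ B) = 0
      rw [c2_node0 h2, i2]

theorem hw_last {t : BinaryTree Unit} (h : hw t) : lastB t = false := by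
  induction t with
  | nil => rfl
  | node _ A B _ ih =>
    cases B with
    | nil =>
      change isNil A = false
      exact isNil_f.2 h.1
    | node _ C D => exact ih h.2.2

theorem hw_lastI {t : BinaryTree Unit} (h : hw t) (hne : t ≠ .nil) : lastI t ≠ .nil △ .nil ∧ lastI t ≠ .nil := by
  induction t with
  | nil => exact absurd rfl hne
  | node _ A B _ ih =>
    cases B with
    | nil => exact ⟨h.2.1, h.1⟩
    | node _ C D => exact ih h.2.2 (by simp)

/-- first component, inside -/
def fI : BinaryTree Unit → BinaryTree Unit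
  | .nil => .nil
  | .node _ A _ => A

/-- the rest -/
def rI : BinaryTree Unit → BinaryTree Unit
  | .nil => .nil
  | .node _ _ B => B

/-- the number of a word, `n = |S|` -/
def sg (n : ℕ) (w : BinaryTree Unit) : ℕ :=
  if fb w = true then
    (if lastB w = true then 2
    else if c1 w = 2 then 5
    else if (fI (rI w)).numNodes < n then 18
    else if len w = 2 then 8 else 15)
  else if lastB w = true then
    (if c1 w = 2 then 1
    else if len w = 2 then 6
    else if (fI w).numNodes < n then 16 else 12)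
  else if len w = 1 then
    (if fb (fI w) = true then 7
    else if lastB (fI w) = true then 3
    else if len (fI w) = 1 then 9
    else if (fI (fI w)).numNodes < n then 19 else 17)
  else if c2 w = 1 then
    (if fI w = .nil △ .nil then 4
    else if lastI w = .nil △ .nil then 0 else 10)
  else if c1 w = 2 then 11
  else if fb (fI w) = true then 14 else 13

theorem isNil_app (P Q : BinaryTree Unit) : isNil (app P Q) = (isNil P && isNil Q) := by
  cases P <;> rfl

theorem fb_app {P Q : BinaryTree Unit} (h : P ≠ .nil) : fb (app P Q) = fb P := by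
  cases P with
  | nil => exact absurd rfl h
  | node _ _ _ => rfl

theorem fI_app {P Q : BinaryTree Unit} (h : P ≠ .nil) : fI (app P Q) = fI P := by
  cases P with
  | nil => exact absurd rfl h
  | node _ _ _ => rfl

theorem c1_node {A B : BinaryTree Unit} (h : A ≠ .nil) : c1 (A △ B) = c1 B := by
  cases A with
  | nil => exact absurd rfl h
  | node _ _ _ => rfl

/-- the facts on a bare word -/
structure Ft (R : BinaryTree Unit) : Prop where
  ne : R ≠ .nil
  isn : isNil R = false
  fb0 : fb R = false
  la0 : lastB R = false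
  c10 : c1 R = 0
  c20 : c2 R = 0
  len1 : 1 ≤ len R
  fI1 : fI R ≠ .nil △ .nil
  lI1 : lastI R ≠ .nil △ .nil
  fI2 : fb (fI R) = false
  fIn : (fI R).numNodes < R.numNodes

theorem Ft.of {R : BinaryTree Unit} (h : ∀ x ∈ OddHC.cont R, 3 ≤ x) (hne : R ≠ .nil) : Ft R := by
  have h1 := hw_bare R h
  obtain ⟨h2, h3⟩ := hw_c R h1
  refine ⟨hne, isNil_f.2 hne, ?_, hw_last h1, h2, h3, len_pos hne, ?_, (hw_lastI h1 hne).1, ?_, ?_⟩
  · cases R with
    | nil => exact absurd rfl hne
    | node _ A B => exact isNil_f.2 h1.1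
  · cases R with
    | nil => exact absurd rfl hne
    | node _ A B => exact h1.2.1
  · cases R with
    | nil => exact absurd rfl hne
    | node _ A B =>
      change fb A = false
      have h4 : ∀ x ∈ raise (OddHC.cont A) + OddHC.cont B, 3 ≤ x := h
      cases A with
      | nil => exact absurd rfl h1.1
      | node _ C D =>
        change isNil C = false
        rw [isNil_f]
        rintro rfl
        -- then `1` is a part of `A`
        have h5 : 1 ∈ OddHC.cont (BinaryTree.nil △ D) := by
          rw [cont_node, cont_nil, raise_zero]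
          simp
        by_cases hs : (OddHC.cont (BinaryTree.nil △ D)).sup = 1
        · have h6 := h4 2 (Multiset.mem_add.2 (Or.inl (by
            unfold raise
            change 2 ∈ _ ::ₘ _
            have e : (OddHC.cont (BinaryTree.node () BinaryTree.nil D)).sup = 1 := hs
            rw [e]
            simp)))
          omega
        · have h6 : (raise (OddHC.cont (BinaryTree.nil △ D))).count 1 =
              (OddHC.cont (BinaryTree.nil △ D)).count 1 := by
            apply count_raise
            · exact fun e => hs e.symm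
            · intro e
              have h7 : 1 ≤ (OddHC.cont (BinaryTree.nil △ D)).sup := Multiset.le_sup h5
              omega
          have h7 : 1 ∈ raise (OddHC.cont (BinaryTree.nil △ D)) := by
            rw [← Multiset.one_le_count_iff_mem, h6, Multiset.one_le_count_iff_mem]
            exact h5
          have := h4 1 (Multiset.mem_add.2 (Or.inl h7))
          omega
  · cases R with
    | nil => exact absurd rfl hne
    | node _ A B =>
      change A.numNodes < A.numNodes + B.numNodes + 1
      omega

theorem num_ne {A : BinaryTree Unit} (h : 2 ≤ A.numNodes) : A ≠ .nil △ .nil := by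
  rintro rfl
  change 2 ≤ 0 + 0 + 1 at h
  omega

theorem num_pos {A : BinaryTree Unit} (h : A ≠ .nil) : 1 ≤ A.numNodes := by
  cases A with
  | nil => exact absurd rfl h
  | node _ B C =>
    change 1 ≤ B.numNodes + C.numNodes + 1
    omega

theorem sg_W (hR : Ft R) (hB : Ft B) (hS : Ft S) (hn : S.numNodes ≤ R.numNodes) :
    ∀ i < 20, sg S.numNodes (W R .nil B S i) = i := by
  have nR := hR.ne
  have nB := hB.ne
  have nS := hS.ne
  have lR := hR.len1
  have lB := hB.len1
  have lS := hS.len1
  have pB := num_pos nB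
  have pS := num_pos nS
  have sn := hS.fIn
  have e1 : (BinaryTree.nil △ S) ≠ .nil △ .nil := num_ne (by
    change 2 ≤ 0 + S.numNodes + 1
    omega)
  have e2 : app B (.nil △ .nil) ≠ .nil △ .nil := num_ne (by
    rw [num_app]
    change 2 ≤ B.numNodes + 1
    omega)
  have fbn : ∀ A X : BinaryTree Unit, fb (A △ X) = isNil A := fun _ _ => rfl
  have isn : ∀ A X : BinaryTree Unit, isNil (A △ X) = false := fun _ _ => rfl
  have is0 : isNil (BinaryTree.nil : BinaryTree Unit) = true := rfl
  have lnn : ∀ A X : BinaryTree Unit, len (A △ X) = len X + 1 := fun _ _ => rfl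
  have ln0 : len (BinaryTree.nil : BinaryTree Unit) = 0 := rfl
  have c1n : ∀ X : BinaryTree Unit, c1 (.nil △ X) = 1 + c1 X := fun _ => rfl
  have c10 : c1 (BinaryTree.nil : BinaryTree Unit) = 0 := rfl
  have c20 : c2 (BinaryTree.nil : BinaryTree Unit) = 0 := rfl
  have c2b : ∀ X : BinaryTree Unit, c2 (.nil △ X) = c2 X := fun _ => rfl
  have fIn : ∀ A X : BinaryTree Unit, fI (A △ X) = A := fun _ _ => rfl
  have rIn : ∀ A X : BinaryTree Unit, rI (A △ X) = X := fun _ _ => rfl
  have app0 : ∀ X : BinaryTree Unit, app .nil X = X := fun _ => rfl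
  have hne : ∀ A X : BinaryTree Unit, (A △ X) ≠ .nil := fun _ _ => by simp
  have lastn : ∀ A B C : BinaryTree Unit, lastB (A △ (B △ C)) = lastB (B △ C) := fun _ _ _ => rfl
  have lastIn : ∀ A B C : BinaryTree Unit, lastI (A △ (B △ C)) = lastI (B △ C) := fun _ _ _ => rfl
  have lR' : ∀ A : BinaryTree Unit, lastB (A △ R) = false := fun A => by rw [lastB_cons nR, hR.la0]
  have lS' : ∀ A : BinaryTree Unit, lastB (A △ S) = false := fun A => by rw [lastB_cons nS, hS.la0]
  have lB' : ∀ A : BinaryTree Unit, lastB (A △ B) = false := fun A => by rw [lastB_cons nB, hB.la0]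
  have liS' : ∀ A : BinaryTree Unit, lastI (A △ S) = lastI S := fun A => by rw [lastI_cons nS]
  have aR : ∀ A X : BinaryTree Unit, lastB (app R (A △ X)) = lastB (A △ X) := fun A X => lastB_app (hne _ _)
  have aB : ∀ A X : BinaryTree Unit, lastB (app B (A △ X)) = lastB (A △ X) := fun A X => lastB_app (hne _ _)
  have aS : ∀ A X : BinaryTree Unit, lastB (app S (A △ X)) = lastB (A △ X) := fun A X => lastB_app (hne _ _)
  have nR' : ∀ A X : BinaryTree Unit, app R (A △ X) ≠ .nil := fun A X => app_ne (hne _ _)
  have nB' : ∀ A X : BinaryTree Unit, app B (A △ X) ≠ .nil := fun A X => app_ne (hne _ _)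
  have nS' : ∀ A X : BinaryTree Unit, app S (A △ X) ≠ .nil := fun A X => app_ne (hne _ _)
  intro i hi
  interval_cases i
  · -- 0
    have : lastI (app R ((.nil △ .nil) △ .nil)) = .nil △ .nil := by
      rw [lastI_app (hne _ _)]; rfl
    simp only [W, sg, fb_app nR, hR.fb0, aR, lastB_one, isn, len_app, lnn, ln0, c2_app, c2_node1, hR.c20, c20,
      fI_app nR, this]
    rw [if_neg (by first | omega | simp), if_neg (by first | omega | simp), if_neg (by first | omega | simp), if_pos (by first | trivial | omega), if_neg hR.fI1, if_pos (by first | trivial | omega)]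
  · -- 1
    simp only [W, sg, app0, fb_app nR, hR.fb0, aR, lastn, lastB_one, is0, c1_app, c1n, hR.c10, c10]
    rw [if_neg (by first | omega | simp), if_pos (by first | trivial | omega), if_pos (by first | trivial | omega)]
  · -- 2
    simp only [W, sg, fbn, is0, lastB_cons (nR' _ _), aR, lastB_one]
    rw [if_pos (by first | trivial | omega), if_pos (by first | trivial | omega)]
  · -- 3
    simp only [W, sg, fbn, isNil_app, hR.isn, lastB_one, len_app, lnn, ln0, fIn, fb_app nR, hR.fb0, aR, is0]
    simp
  · -- 4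
    simp only [W, sg, app0, fbn, isn, lR', lnn, c2_node1, hR.c20, fIn]
    rw [if_neg (by first | omega | simp), if_neg (by first | omega | simp), if_neg (by first | omega | simp), if_pos (by first | trivial | omega), if_pos (by first | trivial | omega)]
  · -- 5
    simp only [W, sg, fbn, is0, lastn, lR', c1n, hR.c10]
    rw [if_pos (by first | trivial | omega), if_neg (by first | omega | simp), if_pos (by first | trivial | omega)]
  · -- 6
    simp only [W, sg, fbn, hR.isn, lastn, lastB_one, is0, c1_node nR, c1n, c10, lnn, ln0]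
    simp
  · -- 7
    simp only [W, sg, app0, fbn, isn, lastB_one, lnn, ln0, fIn, is0]
    simp
  · -- 8
    simp only [W, sg, app0, fbn, is0, lastn, lastB_one, hR.isn, c1n, c1_node nR, c10, rIn, fIn, lnn, ln0]
    rw [if_pos (by first | trivial | omega), if_neg (by first | omega | simp), if_neg (by first | omega | simp), if_neg (by first | omega | simp), if_pos (by first | trivial | omega)]
  · -- 9
    simp only [W, sg, fbn, isn, lastB_one, lnn, ln0, fIn, hR.isn]
    simp
  · -- 10
    have : lastI (app B ((.nil △ .nil) △ S)) = lastI S := by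
      rw [lastI_app (hne _ _), liS']
    simp only [W, sg, fb_app nB, hB.fb0, aB, lS', len_app, lnn, c2_app, c2_node1, hB.c20, hS.c20, fI_app nB, this]
    rw [if_neg (by first | omega | simp), if_neg (by first | omega | simp), if_neg (by first | omega | simp), if_pos (by first | trivial | omega), if_neg hB.fI1, if_neg hS.lI1]
  · -- 11
    simp only [W, sg, app0, fb_app nB, hB.fb0, aB, lastn, lS', len_app, lnn, c2_app, c2b, hB.c20, hS.c20, c1_app,
      c1n, hB.c10, hS.c10]
    rw [if_neg (by first | omega | simp), if_neg (by first | omega | simp), if_neg (by first | omega | simp), if_neg (by first | omega | simp), if_pos (by first | trivial | omega)]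
  · -- 12
    simp only [W, sg, fbn, hS.isn, lastB_cons (nB' _ _), aB, lastB_one, is0, c1_node nS, c1_app, c1n, c10, hB.c10,
      lnn, len_app, ln0, fIn]
    rw [if_neg (by first | omega | simp), if_pos (by first | trivial | omega), if_neg (by first | omega | simp), if_neg (by first | omega | simp), if_neg (by first | omega | simp)]
  · -- 13
    simp only [W, sg, fb_app nS, hS.fb0, aS, lastB_one, isNil_app, hB.isn, len_app, lnn, ln0, c2_app,
      c2_node0 e2, hS.c20, c20, c1_app, hS.c10, c1_node (nB' _ _), c10, fI_app nS, hS.fI2]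
    rw [if_neg (by first | omega | simp), if_neg (by first | omega | simp), if_neg (by first | omega | simp), if_neg (by first | omega | simp), if_neg (by first | omega | simp),
      if_neg (by first | omega | simp)]
  · -- 14
    simp only [W, sg, app0, fbn, isn, lB', lnn, c2_node0 e1, hB.c20, c1_node (hne _ _), hB.c10, fIn, is0]
    rw [if_neg (by first | omega | simp), if_neg (by first | omega | simp), if_neg (by first | omega | simp), if_neg (by first | omega | simp), if_neg (by first | omega | simp),
      if_pos (by first | trivial | omega)]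
  · -- 15
    simp only [W, sg, fbn, is0, lastn, lB', c1n, c1_node nS, hB.c10, rIn, fIn, lnn]
    rw [if_pos (by first | trivial | omega), if_neg (by first | omega | simp), if_neg (by first | omega | simp), if_neg (by first | omega | simp), if_neg (by first | omega | simp)]
  · -- 16
    simp only [W, sg, fb_app nS, hS.fb0, aS, lastn, lastB_one, is0, c1_app, c1_node nB, c1n, c10, hS.c10,
      len_app, lnn, ln0, fI_app nS]
    rw [if_neg (by first | omega | simp), if_pos (by first | trivial | omega), if_neg (by first | omega | simp), if_neg (by first | omega | simp), if_pos (by first | trivial | omega)]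
  · -- 17
    simp only [W, sg, app0, fbn, isn, lastB_one, lnn, ln0, fIn, hS.isn, lB']
    rw [if_neg (by first | omega | simp), if_neg (by first | omega | simp), if_pos (by first | trivial | omega), if_neg (by first | omega | simp), if_neg (by first | omega | simp),
      if_neg (by first | omega | simp), if_neg (by first | omega | simp)]
  · -- 18
    simp only [W, sg, app0, fbn, is0, lastB_cons (nS' _ _), aS, lastB_one, hB.isn, c1n, c1_app, hS.c10,
      c1_node nB, c10, rIn, fI_app nS]
    rw [if_pos (by first | trivial | omega), if_neg (by first | omega | simp), if_neg (by first | omega | simp), if_pos (by first | trivial | omega)]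
  · -- 19
    simp only [W, sg, fbn, isNil_app, hS.isn, lastB_one, lnn, ln0, fIn, fb_app nS, hS.fb0, aS, hB.isn,
      len_app, fI_app nS]
    rw [if_neg (by first | omega | simp), if_neg (by first | omega | simp), if_pos (by first | trivial | omega), if_neg (by first | omega | simp), if_neg (by first | omega | simp),
      if_neg (by first | omega | simp), if_pos (by first | trivial | omega)]

/-- THE TWENTY WORDS ARE DIFFERENT -/
theorem W_inj20 (h : JDat k R B S) : ∀ i < 20, ∀ j < 20, W R .nil B S i = W R .nil B S j → i = j := by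
  have h1 := sg_W (Ft.of h.bare h.ne) (Ft.of h.bareB h.hB) (Ft.of h.bareS h.hS) (by
    have := h.dat.num
    omega)
  intro i hi j hj e
  rw [← h1 i hi, e, h1 j hj]

theorem jX_inj (h : JDat k R B S) (w0 : X k) : ∀ i < 20, ∀ j < 20, jX R B S w0 i = jX R B S w0 j → i = j := by
  intro i hi j hj e
  have h2 := congrArg Subtype.val e
  rw [jX_eq h w0 hi, jX_eq h w0 hj] at h2
  exact W_inj20 h i hi j hj h2

/-! ### Contents -/

theorem cont_z : OddHC.cont (W R .nil B S 0) = OddHC.cont R + {2} ∧
    OddHC.cont (W R .nil B S 4) = OddHC.cont R + {2} := by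
  have e : OddHC.cont ((.nil △ .nil) △ .nil) = ({2} : Multiset ℕ) := by decide
  constructor
  · change OddHC.cont (app R ((.nil △ .nil) △ .nil)) = _
    rw [cont_app, e]
  · change OddHC.cont (BinaryTree.node () (.nil △ .nil) R) = _
    have e2 : BinaryTree.node () (BinaryTree.nil △ .nil) R = app ((.nil △ .nil) △ .nil) R := rfl
    rw [e2, cont_app, e, add_comm]

/-- THE OLD WORDS ARE OLDER (word 4 has the content of the new T-cycle) -/
theorem rank_J (h : JDat k R B S) : ∀ i < 20, i ≠ 0 → i ≠ 4 → i ≠ 10 →
    Lower (OddHC.cont (W R .nil B S i)) (OddHC.cont R + {2}) := by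
  intro i hi h0 h4 h10
  have hb := h.big
  have hz : (OddHC.cont R + {2}).sup = ht R := by
    rw [sup_add', ← OddHC.ht_eq, Multiset.sup_singleton]
    omega
  have hR1 : (OddHC.cont R).count 1 = 0 := by
    rw [Multiset.count_eq_zero]
    intro h1
    have := h.bare 1 h1
    omega
  have hz1 : (OddHC.cont R + {2}).count 1 = 0 := by
    rw [Multiset.count_add, Multiset.count_singleton, if_neg (by omega), hR1]
  have hS := h.dat.htS
  have hB := h.dat.htB
  have h00 : ht (BinaryTree.nil : BinaryTree Unit) = 0 := rfl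
  have hB0 : OddHC.cont B ≠ 0 := fun e => h.hB (cont_eq_zero.1 e)
  have hBh : 3 ≤ ht B := by
    rw [OddHC.ht_eq]
    exact h.bareB _ (sup_mem hB0)
  -- more height
  have up : ∀ w : BinaryTree Unit, ht R < ht w → Lower (OddHC.cont w) (OddHC.cont R + {2}) := by
    intro w hw
    left
    rw [hz, ← OddHC.ht_eq]
    exact hw
  have one : ∀ w : BinaryTree Unit, ht w = ht R → 1 ≤ (OddHC.cont w).count 1 →
      Lower (OddHC.cont w) (OddHC.cont R + {2}) := by
    intro w hw h1
    right
    rw [hz, ← OddHC.ht_eq]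
    refine ⟨hw, Or.inl ?_⟩
    rw [hz1]
    exact h1
  have cn : ∀ A C : BinaryTree Unit, (OddHC.cont (A △ C)).count 1 =
      (raise (OddHC.cont A)).count 1 + (OddHC.cont C).count 1 := by
    intro A C
    rw [cont_node, Multiset.count_add]
  have ca : ∀ A C : BinaryTree Unit, (OddHC.cont (app A C)).count 1 =
      (OddHC.cont A).count 1 + (OddHC.cont C).count 1 := by
    intro A C
    rw [cont_app, Multiset.count_add]
  have r0 : (raise (OddHC.cont (BinaryTree.nil : BinaryTree Unit))).count 1 = 1 := by
    rw [cont_nil, raise_zero]; rfl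
  interval_cases i
  · exact absurd rfl h0
  · apply one
    · simp only [W, app, ht_app, ht_node, h00]; omega
    · simp only [W, app, ca, cn, r0]; omega
  · apply one
    · simp only [W, app, ht_app, ht_node, h00]; omega
    · simp only [W, app, ca, cn, r0]; omega
  · apply up
    simp only [W, app, ht_app, ht_node, h00]; omega
  · exact absurd rfl h4
  · apply one
    · simp only [W, app, ht_app, ht_node, h00]; omega
    · simp only [W, app, cn, r0]; omega
  · apply up
    simp only [W, app, ht_app, ht_node, h00]; omega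
  · apply up
    simp only [W, app, ht_app, ht_node, h00]; omega
  · apply up
    simp only [W, app, ht_app, ht_node, h00]; omega
  · apply up
    simp only [W, app, ht_app, ht_node, h00]; omega
  · exact absurd rfl h10
  · apply one
    · simp only [W, app, ht_app, ht_node, h00]; omega
    · simp only [W, app, ca, cn, r0]; omega
  · apply up
    simp only [W, app, ht_app, ht_node, h00]; omega
  · rcases Nat.lt_or_ge (ht B) (ht R) with h5 | h5
    · apply one
      · simp only [W, app, ht_app, ht_node, h00]; omega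
      · simp only [W, app, ca, cn]
        have h6 : 1 ≤ (raise (OddHC.cont (app B (BinaryTree.nil △ .nil)))).count 1 := by
          apply raise_one_pos
          · rw [cont_app, cont_node, cont_nil, raise_zero]
            simp
          · rw [cont_app, cont_node, cont_nil, raise_zero]
            intro h6
            have h7 := congrArg Multiset.sup h6
            rw [sup_add', Multiset.sup_singleton, ← OddHC.ht_eq] at h7
            omega
          · exact cont_pos _
        omega
    · apply up
      simp only [W, app, ht_app, ht_node, h00]; omega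
  · apply up
    simp only [W, app, ht_app, ht_node, h00]; omega
  · apply up
    simp only [W, app, ht_app, ht_node, h00]; omega
  · rcases Nat.lt_or_ge (ht B) (ht R) with h5 | h5
    · apply one
      · simp only [W, app, ht_app, ht_node, h00]; omega
      · simp only [W, app, ca, cn, r0]; omega
    · apply up
      simp only [W, app, ht_app, ht_node, h00]; omega
  · apply up
    simp only [W, app, ht_app, ht_node, h00]; omega
  · rcases Nat.lt_or_ge (ht B) (ht R) with h5 | h5
    · apply one
      · simp only [W, app, ht_app, ht_node, h00]; omega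
      · simp only [W, app, ca, cn, r0]; omega
    · apply up
      simp only [W, app, ht_app, ht_node, h00]; omega
  · apply up
    simp only [W, app, ht_app, ht_node, h00]; omega

/-- the content of the new T-cycle -/
theorem jX_cont (h : JDat k R B S) (w0 : X k) : OddHC.cont (jX R B S w0 0).1 = OddHC.cont R + {2} := by
  rw [jX_eq h w0 (by norm_num), cont_z.1]

theorem jX_rank (h : JDat k R B S) (w0 : X k) {i : ℕ} (hi : i < 20) (h0 : i ≠ 0) (h4 : i ≠ 4) (h10 : i ≠ 10) :
    Lower (contc (cyc (jX R B S w0 i))) (contc (cyc (jX R B S w0 0))) := by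
  rw [contc_cyc, contc_cyc, jX_cont h, jX_eq h w0 hi]
  exact rank_J h i hi h0 h4 h10

theorem jX_hold (h : JDat k R B S) (w0 : X k) : ∀ i < 20, i ≠ 0 → i ≠ 4 → i ≠ 10 →
    ¬ TT.SameCycle (jX R B S w0 0) (jX R B S w0 i) := by
  intro i hi h0 h4 h10 hs
  exact (jX_rank h w0 hi h0 h4 h10).ne (congrArg contc (cyc_eq.2 hs)).symm

/-- the links -/
theorem jX_link (h : JDat k R B S) (w0 : X k) {i j : ℕ}
    (hij : (i, j) ∈ [(0, 10), (1, 11), (3, 12), (6, 15), (8, 14), (9, 17)]) :
    TT (TT (jX R B S w0 i)) = jX R B S w0 j := by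
  have hb := h.big
  have hQ : Tsq.ht (BinaryTree.nil : BinaryTree Unit) = 0 := rfl
  have hR : Tsq.ht R = ht R := H1.ht_eq R
  have e1 : ∀ n < 20, (jX R B S w0 n).1 = w20 R .nil B S n := by
    intro n hn
    rw [jX_eq h w0 hn, W_w20 _ _ _ _ n hn]
  have hs1 : (Tsq.sq R).1 = S := by rw [h.sq]
  have hs2 : (Tsq.sq R).2 = B := by rw [h.sq]
  simp only [List.mem_cons, Prod.mk.injEq, List.not_mem_nil, or_false] at hij
  rcases hij with ⟨rfl, rfl⟩ | ⟨rfl, rfl⟩ | ⟨rfl, rfl⟩ | ⟨rfl, rfl⟩ | ⟨rfl, rfl⟩ | ⟨rfl, rfl⟩
  · exact Tsq.link0 (R := R) (Q := .nil) (by omega) (by rw [e1 0 (by norm_num)]; rfl)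
      (by rw [e1 10 (by norm_num), hs1, hs2]; rfl)
  · exact Tsq.link h.ne (Q := .nil) (i := 1) (j := 1) (by omega) (by simp)
      (by rw [e1 1 (by norm_num)]; rfl) (by rw [e1 11 (by norm_num), hs1, hs2]; rfl)
  · exact Tsq.link h.ne (Q := .nil) (i := 3) (j := 2) (by omega) (by simp)
      (by rw [e1 3 (by norm_num)]; rfl) (by rw [e1 12 (by norm_num), hs1, hs2]; rfl)
  · exact Tsq.link h.ne (Q := .nil) (i := 6) (j := 5) (by omega) (by simp)
      (by rw [e1 6 (by norm_num)]; rfl) (by rw [e1 15 (by norm_num), hs1, hs2]; rfl)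
  · exact Tsq.link h.ne (Q := .nil) (i := 8) (j := 4) (by omega) (by simp)
      (by rw [e1 8 (by norm_num)]; rfl) (by rw [e1 14 (by norm_num), hs1, hs2]; rfl)
  · exact Tsq.link h.ne (Q := .nil) (i := 9) (j := 7) (by omega) (by simp)
      (by rw [e1 9 (by norm_num)]; rfl) (by rw [e1 17 (by norm_num), hs1, hs2]; rfl)

/-! ### `TT (w 0) ≠ w 4` -/

theorem Vo_last {j : ℕ} (u : X j) (hj : 1 ≤ j) : Vo u ≠ -1 := by
  intro h
  have h1 := TT_sl_vo u hj
  have h2 : (Vo u).val = 2 * j := by
    have h3 : (Vo u) = ((2 * j : ℕ) : ZMod (2 * j + 1)) := by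
      rw [h]
      have h0 : ((2 * j + 1 : ℕ) : ZMod (2 * j + 1)) = 0 := ZMod.natCast_self _
      push_cast at h0 ⊢
      linear_combination -h0
    rw [h3, ZMod.val_natCast_of_lt (by omega)]
  have h3 := h1.2
  rw [h2] at h3
  have hu : u.1 ≠ .nil := by
    intro e
    have := X_num u
    rw [e] at this
    change 0 = j at this
    omega
  have hne : wd u.1 ≠ [] := by
    intro e
    have := congrArg List.length e
    rw [wd_length, X_num] at this
    simp at this
    omega
  have h4 := wd_last u.1 hne
  rw [List.getLast_eq_getElem] at h4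
  have hl : (wd u.1).length = 2 * j := by rw [wd_length, X_num]
  have h5 : (sl u.1).getD (2 * j) false = false := by
    unfold sl
    obtain ⟨p, hp⟩ : ∃ p, 2 * j = p + 1 := ⟨2 * j - 1, by omega⟩
    rw [hp, List.getD_cons_succ, List.getD_eq_getElem _ _ (by omega)]
    have : (wd u.1).length - 1 = p := by omega
    simp only [this] at h4
    exact h4
  rw [h5] at h3
  exact absurd h3 (by simp)

/-- for a bare word `R`: `T` does not map `R(())` to `(())R` -/
theorem jX_ne (h : JDat k R B S) (w0 : X k) : TT (jX R B S w0 0) ≠ jX R B S w0 4 := by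
  intro he
  -- `R = inf v1`, `v1 = inf v`
  obtain ⟨v1, hv1, hc1⟩ := red_bare R (M := (OddHC.cont R).map (· - 1)) (by
    intro x hx
    obtain ⟨y, hy, rfl⟩ := Multiset.mem_map.1 hx
    have := h.bare y hy
    omega) (by
    rw [Multiset.map_map]
    conv_lhs => rw [← Multiset.map_id (OddHC.cont R)]
    apply Multiset.map_congr rfl
    intro y hy
    have := h.bare y hy
    simp only [id, Function.comp]
    omega)
  obtain ⟨v, hv, hc⟩ := red_bare v1 (M := (OddHC.cont R).map (· - 2)) (by
    intro x hx
    obtain ⟨y, hy, rfl⟩ := Multiset.mem_map.1 hx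
    have := h.bare y hy
    omega) (by
    rw [hc1, Multiset.map_map]
    apply Multiset.map_congr rfl
    intro y hy
    have := h.bare y hy
    simp only [Function.comp]
    omega)
  obtain ⟨j, hj⟩ : ∃ j, j = v.numNodes := ⟨_, rfl⟩
  obtain ⟨V, hV⟩ : ∃ V : X j, V.1 = v := ⟨⟨v, mem_treesOfNumNodesEq.2 hj.symm⟩, rfl⟩
  have hj1 : 1 ≤ j := by
    rcases Nat.eq_zero_or_pos j with h0 | h0
    · exfalso
      rw [h0] at hj
      have h2 : v = .nil := by
        cases hv0 : v with
        | nil => rfl
        | node _ A C =>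
          rw [hv0] at hj
          change 0 = A.numNodes + C.numNodes + 1 at hj
          omega
      rw [h2] at hv
      rw [hv, inf_nil] at hv1
      exact h.ne (hv1.trans inf_nil)
    · exact h0
  -- the two words one level lower
  have s0 : ∀ t : ZMod (2 * j + 1), j + pkn V.1 + ∑ x, (if x = t then 1 else 0) = j + pkn V.1 + 1 := by
    intro t
    rw [one_bead_sum]
  have eA : (phi V (fun x => if x = -1 then 1 else 0) (s0 (-1))).1 = app (inf v) (.nil △ .nil) := by
    have h2 := ins_back V (fun _ => 0)
    simp only [zero_add] at h2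
    change ins V.1 (lf _) = _
    rw [h2, lf_zero, hV]
    unfold inf
    rw [hj]
  have eB : (phi V (fun x => if x = 0 then 1 else 0) (s0 0)).1 = .nil △ inf v := by
    have h2 := ins_front V (fun _ => 0)
    simp only [zero_add] at h2
    change ins V.1 (lf _) = _
    rw [h2, lf_zero, hV]
    unfold inf
    rw [hj]
  have w0e : (jX R B S w0 0).1 = inf (phi V (fun x => if x = -1 then 1 else 0) (s0 (-1))).1 := by
    rw [jX_eq h w0 (by norm_num), eA, inf_app, ← hv, ← hv1]
    rfl
  have w4e : (jX R B S w0 4).1 = inf (phi V (fun x => if x = 0 then 1 else 0) (s0 0)).1 := by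
    rw [jX_eq h w0 (by norm_num), eB, inf_node, ← hv, ← hv1]
    rfl
  obtain ⟨P, hP⟩ : ∃ P, P = phi V (fun x => if x = -1 then 1 else 0) (s0 (-1)) := ⟨_, rfl⟩
  obtain ⟨P', hP'⟩ : ∃ P', P' = phi V (fun x => if x = 0 then 1 else 0) (s0 0) := ⟨_, rfl⟩
  rw [← hP] at w0e
  rw [← hP'] at w4e
  -- `T` of the inflation
  have hkP : (j + pkn V.1 + 1) + pkn P.1 + ∑ _x : ZMod (2 * (j + pkn V.1 + 1) + 1), 0 = k := by
    have h2 := Ring1.inf_num P.1
    rw [← w0e, X_num, X_num] at h2
    rw [Finset.sum_const_zero]
    omega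
  have w0p : jX R B S w0 0 = phi P (fun _ => 0) hkP := by
    apply Subtype.ext
    rw [w0e]
    change inf P.1 = ins P.1 (lf _)
    rw [lf_zero]
    unfold inf
    rw [X_num]
  have he' := congrArg Subtype.val he
  rw [w4e, w0p, TT_phi] at he'
  change ins (TT P).1 (lf fun _ => 0) = inf P'.1 at he'
  rw [lf_zero] at he'
  unfold inf at he'
  have h3 := (ins_inj (by rw [List.length_replicate, X_num]) List.length_replicate he').1
  have h4 : TT P = P' := Subtype.ext h3
  rw [hP, hP', TT_phi] at h4
  obtain ⟨h5, h6⟩ := phi_inj h4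
  have h7 := congrFun h6 0
  simp only [zero_add, if_true] at h7
  have h8 : Vo V = -1 := by
    by_contra h9
    rw [if_neg h9] at h7
    exact absurd h7 (by norm_num)
  exact Vo_last V hj1 h8

/-- **J1a ABSORBS** -/
theorem jX_abs (h : JDat k R B S) (w0 : X k) (h4 : TT.SameCycle (jX R B S w0 0) (jX R B S w0 4)) :
    (gadJA (jX R B S w0)).Abs := by
  have hn := h.dat.num
  refine gadJA_abs' (R := R) (B := B) (S := S) h.num (by have := h.num; omega) (fun i hi => ?_)
    (jX_inj h w0) (jX_link h w0 (by simp)) (jX_ne h w0) h4 (jX_hold h w0)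
  rw [jX_eq h w0 hi, W_w20 _ _ _ _ i hi]

/-- TYPE J1: the gadget J1a over a bare word `R` with `R(())`, `(())R` in one T-cycle -/
def TyJ1 (F : Set (Cyc k)) (g : DG k) : Prop :=
  ∃ (R B S : BinaryTree Unit) (w0 : X k), JDat k R B S ∧ cyc (jX R B S w0 4) = cyc (jX R B S w0 0) ∧
    F = {cyc (jX R B S w0 0)} ∧ g = gadJA (jX R B S w0)

variable {F : Set (Cyc k)} {g : DG k}

theorem mem_gadJA {w : ℕ → X k} {x : X k} : x ∈ (gadJA w).B ↔ ∃ i < 20, w i = x := by
  classical
  change x ∈ (range 20).image w ↔ _
  rw [Finset.mem_image]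
  constructor
  · rintro ⟨i, hi, rfl⟩; exact ⟨i, Finset.mem_range.1 hi, rfl⟩
  · rintro ⟨i, hi, rfl⟩; exact ⟨i, Finset.mem_range.2 hi, rfl⟩

theorem TyJ1.hF (h : TyJ1 F g) : ∀ w, w ∈ g.F ↔ cyc w ∈ F := by
  obtain ⟨R, B, S, w0, h1, h4, rfl, rfl⟩ := h
  intro w
  change TT.SameCycle _ _ ↔ cyc w = _
  rw [← cyc_eq]
  exact ⟨fun e => e.symm, fun e => e.symm⟩

theorem TyJ1.new (h : TyJ1 F g) : ∀ c ∈ F, ∃ u ∈ g.B, cyc u = c := by
  obtain ⟨R, B, S, w0, h1, h4, rfl, rfl⟩ := h
  rintro c rfl
  exact ⟨_, mem_gadJA.2 ⟨0, by norm_num, rfl⟩, rfl⟩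

theorem TyJ1.old (h : TyJ1 F g) : ∃ u ∈ g.B, cyc u ∉ F := by
  obtain ⟨R, B, S, w0, h1, h4, rfl, rfl⟩ := h
  refine ⟨_, mem_gadJA.2 ⟨1, by norm_num, rfl⟩, ?_⟩
  intro e
  exact jX_hold h1 w0 1 (by norm_num) (by norm_num) (by norm_num) (by norm_num)
    (cyc_eq.1 (Eq.symm e))

theorem TyJ1.abs (h : TyJ1 F g) : g.Abs := by
  obtain ⟨R, B, S, w0, h1, h4, rfl, rfl⟩ := h
  exact jX_abs h1 w0 (cyc_eq.1 h4.symm)

/-- rank: every old word is `Lower` than the new T-cycle -/
theorem TyJ1.rank (h : TyJ1 F g) : ∀ w ∈ g.B, cyc w ∈ F ∨ ∀ c ∈ F, Lower (contc (cyc w)) (contc c) := by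
  obtain ⟨R, B, S, w0, h1, h4, rfl, rfl⟩ := h
  intro w hw
  obtain ⟨i, hi, rfl⟩ := mem_gadJA.1 hw
  by_cases h0 : i = 0
  · left; rw [h0]; rfl
  · by_cases h10 : i = 10
    · left
      rw [h10]
      have := jX_link h1 w0 (i := 0) (j := 10) (by simp)
      rw [← this]
      change cyc (TT (TT _)) = cyc _
      exact cyc_eq.2 ⟨-2, by simp [zpow_neg, pow_succ]⟩
    · by_cases h4' : i = 4
      · left; rw [h4']; exact h4
      · right
        rintro c rfl
        exact jX_rank h1 w0 hi h0 h4' h10

theorem TyJ1.path (h : TyJ1 F g) : ∀ a ∈ g.arcs, ∃ n : ℕ, (TT ^ (n + 1)) a.1 = a.2 ∧ a.1 ∈ g.B ∧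
    ∀ i < n, (TT ^ (i + 1)) a.1 ∈ innA a := by
  obtain ⟨R, B, S, w0, h1, h4, rfl, rfl⟩ := h
  intro p hp
  have key : ∀ i j, (i, j) ∈ [(0, 10), (1, 11), (3, 12), (6, 15), (8, 14), (9, 17)] → i < 20 →
      p = (jX R B S w0 i, jX R B S w0 j) →
      ∃ n : ℕ, (TT ^ (n + 1)) p.1 = p.2 ∧ p.1 ∈ (gadJA (jX R B S w0)).B ∧
        ∀ i < n, (TT ^ (i + 1)) p.1 ∈ innA p := by
    rintro i j hij hi rfl
    refine ⟨1, ?_, mem_gadJA.2 ⟨i, hi, rfl⟩, ?_⟩
    · rw [pow_succ, pow_one, Perm.mul_apply]
      exact jX_link h1 w0 hij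
    · intro n hn
      obtain rfl : n = 0 := by omega
      rw [pow_one]
      rfl
  have hp' : p = (jX R B S w0 1, jX R B S w0 11) ∨ p = (jX R B S w0 3, jX R B S w0 12) ∨
      p = (jX R B S w0 6, jX R B S w0 15) ∨ p = (jX R B S w0 8, jX R B S w0 14) ∨
      p = (jX R B S w0 9, jX R B S w0 17) := hp
  rcases hp' with e | e | e | e | e
  · exact key 1 11 (by simp) (by norm_num) e
  · exact key 3 12 (by simp) (by norm_num) e
  · exact key 6 15 (by simp) (by norm_num) e
  · exact key 8 14 (by simp) (by norm_num) e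
  · exact key 9 17 (by simp) (by norm_num) e

/-- the words of the gadget -/
theorem TyJ1.words (h : TyJ1 F g) : ∃ R B S : BinaryTree Unit, JDat k R B S ∧
    ∀ w ∈ g.B, ∃ i < 20, w.1 = W R .nil B S i := by
  obtain ⟨R, B, S, w0, h1, h4, rfl, rfl⟩ := h
  refine ⟨R, B, S, h1, fun w hw => ?_⟩
  obtain ⟨i, hi, rfl⟩ := mem_gadJA.1 hw
  exact ⟨i, hi, jX_eq h1 w0 hi⟩

end J1

end Pool.OddHC
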