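import Pool.Agent.Work.MP_8f87b2_base.Gad20M
import Pool.Agent.Work.MP_8f87b2_h24.FRs
import Pool.Agent.Work.MP_8f87b2_h24.JAMAll

/-!
MP_8f87b2_co: the MIRROR of helper20's gadget J1a with its real words: the words `w20M R nil B S i`, `i < 20`; ONE T-cycle is new,
it contains the words 0, 4, 10 in this cyclic order.
-/

namespace Pool.OddHC

open Finset BinaryTree Equiv

variable {k : ℕ}

/-- the mirror of the gadget J1a -/
noncomputable def gadJAM (w : ℕ → X k) : DG k := by
  classical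
  exact
    { B := (range 20).image w
      F := {x | TT.SameCycle (w 0) x}
      arcs := {(w 11, w 1), (w 12, w 3), (w 15, w 6), (w 14, w 8), (w 17, w 9)} }

theorem alJAM_eq : CertJAM.al = CertM.al := by decide

/-- THE MIRROR OF THE GADGET J1a ABSORBS: the T-cycle of `(())R`, `R(())`, `S(())B` (cyclic order) is new, the other 17 words
are on other T-cycles. -/
theorem gadJAM_abs {R B S : BinaryTree Unit} (hR : R.numNodes + 2 = k)
    (hB : S.numNodes + B.numNodes + 2 = k)
    {w : ℕ → X k} (hw : ∀ i < 20, (w i).1 = w20M R .nil B S i)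
    (hinj : ∀ i < 20, ∀ j < 20, w i = w j → i = j)
    {C : Finset (X k)} (hC : w 0 ∈ C ∧ w 10 ∈ C ∧ w 4 ∈ C)
    (h0 : FR TT C (w 0) (w 4)) (h4 : FR TT C (w 4) (w 10)) (h10 : FR TT C (w 10) (w 0))
    (hold : ∀ i < 20, i ≠ 0 → i ≠ 4 → i ≠ 10 → ¬ TT.SameCycle (w 0) (w i)) :
    (gadJAM w).Abs := by
  classical
  have s4 : TT.SameCycle (w 0) (w 4) := by
    obtain ⟨n, hn, _⟩ := h0
    exact ⟨((n + 1 : ℕ) : ℤ), by rw [zpow_natCast]; exact hn⟩
  have s0 : TT.SameCycle (w 0) (w 10) := by
    obtain ⟨n, hn, _⟩ := h4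
    exact s4.trans ⟨((n + 1 : ℕ) : ℤ), by rw [zpow_natCast]; exact hn⟩
  have hBm : ∀ x, x ∈ (gadJAM w).B ↔ ∃ i < CertJAM.al.length, w i = x := by
    intro x
    change x ∈ (range 20).image w ↔ _
    rw [mem_image]
    constructor
    · rintro ⟨i, hi, rfl⟩
      exact ⟨i, mem_range.1 hi, rfl⟩
    · rintro ⟨i, hi, rfl⟩
      exact ⟨i, mem_range.2 hi, rfl⟩
  have hbit : ∀ i : ℕ, Abs.bit CertJAM.F_0 i = true ↔ (i = 0 ∨ i = 4 ∨ i = 10) := by
    intro i
    rw [Abs.bit_eq]
    constructor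
    · intro h
      have h20 : i < 20 := by
        by_contra h2
        have h3 : CertJAM.F_0 < 2 ^ i := lt_of_lt_of_le (by decide)
          (Nat.pow_le_pow_right (by norm_num) (show 20 ≤ i by omega))
        rw [Nat.testBit_lt_two_pow h3] at h
        exact absurd h (by simp)
      interval_cases i <;> first
        | exact absurd h (by decide)
        | exact Or.inl rfl
        | exact Or.inr (Or.inl rfl)
        | exact Or.inr (Or.inr rfl)
    · rintro (rfl | rfl | rfl) <;> decide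
  have hFi : ∀ i < 20, (w i ∈ (gadJAM w).F ↔ (i = 0 ∨ i = 4 ∨ i = 10)) := by
    intro i hi
    change TT.SameCycle (w 0) (w i) ↔ _
    constructor
    · intro h
      by_contra h2
      push Not at h2
      exact hold i hi h2.1 h2.2.1 h2.2.2 h
    · rintro (rfl | rfl | rfl)
      · exact Perm.SameCycle.refl _ _
      · exact s4
      · exact s0
  have hin : ∀ x ∈ (gadJAM w).B, TT.SameCycle (w 0) x → x ∈ C := by
    intro x hx hs
    obtain ⟨j, hj, rfl⟩ := (hBm x).1 hx
    have h3 : j = 0 ∨ j = 4 ∨ j = 10 := (hFi j hj).1 hs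
    rcases h3 with rfl | rfl | rfl
    · exact hC.1
    · exact hC.2.2
    · exact hC.2.1
  apply Abs.cert_abs (gadJAM w) w (fun i => ((s20M R.numNodes B.numNodes S.numNodes i : ℕ) : ZMod (2 * k + 1)))
    CertJAM.A CertJAM.F_0 CertJAM.Z_0 CertJAM.x0_0 CertJAM.z0_0 CertJAM.cF_0 CertJAM.al CertJAM.code_0 hBm
  · intro i hi j hj h
    exact hinj i hi j hj h
  · intro i hi
    rw [hFi i hi, hbit]
  · intro i h
    rw [hbit] at h
    change i < 20
    omega
  · intro x y hxy hx
    exact hx.trans hxy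
  · intro i hi hd
    have hi' : i < 20 := hi
    change (w i, w (Abs.dig CertJAM.A i)) ∈ ({(w 11, w 1), (w 12, w 3), (w 15, w 6), (w 14, w 8), (w 17, w 9)} :
      Set (X k × X k))
    have hd' : Abs.dig CertJAM.A i < 20 := hd
    interval_cases i <;> first
      | exact absurd hd' (by decide)
      | exact Or.inl rfl
      | exact Or.inr (Or.inl rfl)
      | exact Or.inr (Or.inr (Or.inl rfl))
      | exact Or.inr (Or.inr (Or.inr (Or.inl rfl)))
      | exact Or.inr (Or.inr (Or.inr (Or.inr rfl)))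
  · intro i h
    rw [hbit] at h
    rcases h with rfl | rfl | rfl
    · refine ⟨by decide, ?_⟩
      change FR TT (gadJAM w).B (w 0) (w 4)
      exact h0.grow hin
    · refine ⟨by decide, ?_⟩
      change FR TT (gadJAM w).B (w 4) (w 10)
      exact h4.grow fun x hx hs => hin x hx (s4.trans hs)
    · refine ⟨by decide, ?_⟩
      change FR TT (gadJAM w).B (w 10) (w 0)
      exact h10.grow fun x hx hs => hin x hx (s0.trans hs)
  · rw [alJAM_eq]
    exact hfr20M (Q := .nil) (by
      change 0 + R.numNodes + 2 = k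
      omega) (by
      change 0 + S.numNodes + B.numNodes + 2 = k
      omega) hw
  · decide
  · decide
  · decide
  · exact CertJAM.runJAM

/-- The mirror of J1a with the natural hypotheses: `TT (TT (w 10)) = w 0`, `TT (w 10) ≠ w 4`, `w 0` and `w 4` on one T-cycle. -/
theorem gadJAM_abs' {R B S : BinaryTree Unit} (hR : R.numNodes + 2 = k)
    (hB : S.numNodes + B.numNodes + 2 = k)
    {w : ℕ → X k} (hw : ∀ i < 20, (w i).1 = w20M R .nil B S i)
    (hinj : ∀ i < 20, ∀ j < 20, w i = w j → i = j)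
    (h10 : TT (TT (w 10)) = w 0) (h1 : TT (w 10) ≠ w 4) (h4 : TT.SameCycle (w 0) (w 4))
    (hold : ∀ i < 20, i ≠ 0 → i ≠ 4 → i ≠ 10 → ¬ TT.SameCycle (w 0) (w i)) :
    (gadJAM w).Abs := by
  classical
  have hne : ∀ i < 20, ∀ j < 20, i ≠ j → w i ≠ w j := fun i hi j hj h h' => h (hinj i hi j hj h')
  have s10 : TT.SameCycle (w 10) (w 0) := ⟨((2 : ℕ) : ℤ), by
    rw [zpow_natCast, pow_two, Perm.mul_apply]
    exact h10⟩
  obtain ⟨a, b, c⟩ := FR.three h10 (hne 10 (by norm_num) 0 (by norm_num) (by norm_num))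
    (hne 10 (by norm_num) 4 (by norm_num) (by norm_num)) (hne 0 (by norm_num) 4 (by norm_num) (by norm_num)) h1
    (s10.trans h4)
  have e : ({w 10, w 0, w 4} : Finset (X k)) = {w 0, w 10, w 4} := by
    ext x
    simp only [mem_insert, mem_singleton]
    tauto
  rw [e] at a b c
  exact gadJAM_abs hR hB hw hinj (C := {w 0, w 10, w 4}) (by simp) b c a hold

end Pool.OddHC
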