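import Pool.Agent.Work.MP_8f87b2_h24.J1Node

/-!
MP_8f87b2_co: J1a at the T-cycles of content `(s, 3, 2)` (`s ≥ 4`) and `(s, 4, 2)` (`s ≥ 5`): `R = [s][c]`, `B = [c]`, `S = [s]`.
-/

set_option autoImplicit false

namespace Pool.OddHC

namespace J1

open Finset BinaryTree Equiv H1

variable {k : ℕ}

theorem sq_ch (s : ℕ) : Tsq.sq (ch (s + 1)) = (ch (s + 1), .nil) := by
  induction s with
  | zero =>
    change Tsq.sq (.nil △ .nil) = _
    rw [Tsq.sq_nil (by change 0 ≤ 1; omega)]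
    rfl
  | succ s ih =>
    change Tsq.sq (ch (s + 1) △ .nil) = _
    have hne : ch (s + 1) ≠ .nil := by rw [ch_succ]; simp
    rw [Tsq.sq_ge hne (by change 0 ≤ _; omega), ih]
    rfl

theorem sq_ss {s c : ℕ} (h : c ≤ s + 1) :
    Tsq.sq (app (ch (s + 1)) (ch c)) = (ch (s + 1), ch c) := by
  have hne : ch (s + 1) ≠ .nil := by rw [ch_succ]; simp
  rw [Tsq.sq_app _ _ hne (by rw [H1.ht_eq, H1.ht_eq, ch_ht, ch_ht]; exact h), sq_ch]
  rfl

theorem JDat_ss {s c : ℕ} (hc : 3 ≤ c) (h : c ≤ s) :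
    JDat (s + c + 2) (app (ch s) (ch c)) (ch c) (ch s) := by
  obtain ⟨p, rfl⟩ : ∃ p, s = p + 1 := ⟨s - 1, by omega⟩
  obtain ⟨q, rfl⟩ : ∃ q, c = q + 1 := ⟨c - 1, by omega⟩
  refine ⟨sq_ss h, ?_, ?_, ?_, ?_⟩
  · intro e
    have := congrArg BinaryTree.numNodes e
    rw [num_app, ch_num, ch_num] at this
    change _ = 0 at this
    omega
  · intro x hx
    rw [cont_app, ch_cont, ch_cont] at hx
    simp at hx
    omega
  · rw [ch_succ]; simp
  · rw [num_app, ch_num, ch_num]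

/-- the existence from a T-cycle whose content has only one T-cycle -/
theorem exJ {s c : ℕ} (hc : 3 ≤ c) (h : c ≤ s) (z : Cyc (s + c + 2)) (hz : contc z = {s} + {c} + {2})
    (one : ∀ w w' : X (s + c + 2), cont w.1 = {s} + {c} + {2} → cont w'.1 = {s} + {c} + {2} →
      TT.SameCycle w w') : ∃ w0 : X (s + c + 2), JDat (s + c + 2) (app (ch s) (ch c)) (ch c) (ch s) ∧
      TyJ1 {z} (gadJA (jX (app (ch s) (ch c)) (ch c) (ch s) w0)) := by
  obtain ⟨w, rfl⟩ := Quotient.exists_rep z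
  have hd := JDat_ss hc h
  have e0 : cont (app (ch s) (ch c)) = {s} + {c} := by
    obtain ⟨p, rfl⟩ : ∃ p, s = p + 1 := ⟨s - 1, by omega⟩
    obtain ⟨q, rfl⟩ : ∃ q, c = q + 1 := ⟨c - 1, by omega⟩
    rw [cont_app, ch_cont, ch_cont]
  have c0 := jX_cont hd w
  have c4 : cont (jX (app (ch s) (ch c)) (ch c) (ch s) w 4).1 = cont (app (ch s) (ch c)) + {2} := by
    rw [jX_eq hd w (by norm_num), cont_z.2]
  rw [e0] at c0 c4
  refine ⟨w, hd, _, _, _, w, hd, ?_, ?_, rfl⟩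
  · exact cyc_eq.2 (one _ _ c4 c0)
  · rw [show (Quotient.mk _ w : Cyc (s + c + 2)) = cyc w from rfl, cyc_eq.2 (one _ _ hz c0)]

/-- J1a at `(s, 3, 2)` -/
theorem exJ3 {s : ℕ} (hs : 4 ≤ s) (z : Cyc (s + 3 + 2)) (hz : contc z = {s} + {3} + {2}) :
    ∃ w0 : X (s + 3 + 2), JDat (s + 3 + 2) (app (ch s) (ch 3)) (ch 3) (ch s) ∧
      TyJ1 {z} (gadJA (jX (app (ch s) (ch 3)) (ch 3) (ch s) w0)) :=
  exJ le_rfl (by omega) z hz fun w w' h h' => same_32 hs w w' h h'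

/-- J1a at `(s, 4, 2)` -/
theorem exJ4 {s : ℕ} (hs : 5 ≤ s) (z : Cyc (s + 4 + 2)) (hz : contc z = {s} + {4} + {2}) :
    ∃ w0 : X (s + 4 + 2), JDat (s + 4 + 2) (app (ch s) (ch 4)) (ch 4) (ch s) ∧
      TyJ1 {z} (gadJA (jX (app (ch s) (ch 4)) (ch 4) (ch s) w0)) :=
  exJ (by omega) (by omega) z hz fun w w' h h' => same_42 hs w w' h h'

end J1

end Pool.OddHC
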