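import Pool.Agent.Work.MP_8f87b2_h24.Part

/-!
MP_8f87b2_co: certificate (insertion tree) for the MIRROR of the 20-word absorber. Words = the mirror words in the SAME order:
0 = ((Q))R, 1 = ()Q()R, 2 = Q()R(), 3 = (Q()R), 4 = R(()Q), 5 = R()(Q), 6 = (Q)(R), 7 = (R())Q, 8 = (R)()Q, 9 = Q((R)),
10 = S((Q))B, 11 = S()Q()B, 12 = Q()B(S), 13 = (Q()B)S, 14 = B(S()Q), 15 = B(S)(Q), 16 = (Q)(B)S, 17 = (B(S))Q,
18 = (B)S()Q, 19 = Q((B)S) (R, Q, S, B = mirrored). Arcs (T^2) 10 -> 0, 11 -> 1, 12 -> 3, 14 -> 8, 15 -> 6, 17 -> 9. Fresh: 0, 10.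
Parameters. The parts of the code are in the modules `AM1`, ...
-/

namespace Pool.OddHC.CertM

/-- arcs, base 32 digits (31 = no arc) -/
def A : Nat := 1266798544790919283191534583807

/-- masks of the allowed images -/
def al : List Nat := [73, 266, 134, 524, 19, 37, 608, 176, 336, 896, 74752, 272384, 137216, 536576, 19456, 37888, 622592, 180224, 344064, 917504]

/-- new words -/
def F_0 : Nat := 1025

/-- successors on the new T-cycles -/
def Z_0 : Nat := 1267650600228194498599591084010

/-- first word of the lists -/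
def x0_0 : Nat := 16

/-- a new word -/
def z0_0 : Nat := 10

/-- number of new words -/
def cF_0 : Nat := 2

end Pool.OddHC.CertM
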