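import Pool.Agent.Work.MP_8f87b2_h24.Part

/-!
MP_8f87b2_co: certificate (insertion tree) for the 20-word absorber, format of helper35 (run A F Z x0 z0 cF al code [[x0]]).
0 = R((Q)), 1 = R()Q(), 2 = ()R()Q, 3 = (R()Q), 4 = (Q())R, 5 = (Q)()R, 6 = (R)(Q), 7 = Q(()R), 8 = Q()(R), 9 = ((R))Q,
10 = B((Q))S, 11 = B()Q()S, 12 = (S)B()Q, 13 = S(B()Q), 14 = (Q()S)B, 15 = (Q)(S)B, 16 = S(B)(Q), 17 = Q((S)B), 18 = Q()S(B),
19 = (S(B))Q. Arcs (T^2): 0 -> 10, 1 -> 11, 3 -> 12, 6 -> 15, 8 -> 14, 9 -> 17. New: {0,10}.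
Parameters. The parts of the code are in the modules `A1`, ...
-/

namespace Pool.OddHC.Cert

/-- arcs, base 32 digits (31 = no arc) -/
def A : Nat := 1267650600228228890206615797098

/-- masks of the allowed images -/
def al : List Nat := [49, 22, 44, 11, 400, 224, 321, 644, 770, 584, 50176, 22528, 45056, 11264, 409600, 229376, 328704, 659456, 788480, 598016]

/-- new words -/
def F_0 : Nat := 1025

/-- successors on the new T-cycles -/
def Z_0 : Nat := 1267650600228194498599591084010

/-- first word of the lists -/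
def x0_0 : Nat := 5

/-- a new word -/
def z0_0 : Nat := 0

/-- number of new words -/
def cF_0 : Nat := 2

end Pool.OddHC.Cert
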