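import Pool.Agent.Work.MP_8f87b2_h24.AMAll

/-!
MP_8f87b2_co: the certificate of the mirror of the 20-word absorber (`CertM.A`, ..., `CertM.run20M`), see `AMAll`.
-/
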