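import Pool.Agent.Work.MP_8f87b2_h24.AAll

/-!
MP_8f87b2_co: the certificate of the 20-word absorber (`Cert.A`, `Cert.al`, `Cert.F_0`, ..., `Cert.run20`), see `AAll`.
-/
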