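import Pool.Agent.Work.MP_8f87b2_h24.Part

/-!
MP_8f87b2_co: certificate (insertion tree) for the 20-word absorber (B empty) merged with the E-pair {11, 18}: the words of
`Cert` (numbers 0, ..., 19), arcs (T^2): 3 -> 12, 6 -> 15, 8 -> 14, 9 -> 17. New: the loops {0,10}, {1,11}, {18}.
Parameters. The parts of the code are in the modules `E1`, ...
-/

namespace Pool.OddHC.CertE

/-- arcs, base 32 digits (31 = no arc) -/
def A : Nat := 1267650600228228890206615797759

/-- masks of the allowed images -/
def al : List Nat := [49, 22, 44, 11, 400, 224, 321, 644, 770, 584, 50176, 22528, 45056, 11264, 409600, 229376, 328704, 659456, 788480, 598016]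

/-- new words -/
def F_0 : Nat := 265219

/-- successors on the new T-cycles -/
def Z_0 : Nat := 1251557379716403691115333549418

/-- first word of the lists -/
def x0_0 : Nat := 5

/-- a new word -/
def z0_0 : Nat := 0

/-- number of new words -/
def cF_0 : Nat := 5

end Pool.OddHC.CertE
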