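import Pool.Agent.Work.MP_8f87b2_h24.Part

/-!
MP_8f87b2_co: certificate (insertion tree) for the MIRROR of the 20-word absorber (B empty) merged with the E-pair {11, 18},
WITHOUT the arc at 9: the words of `CertM` (numbers 0, ..., 19), arcs (T^2): 12 -> 3, 15 -> 6, 14 -> 8. New: the T-cycles {0,10},
{1,11}, {18}.
Parameters. The parts of the code are in the modules `EXM1`, ...
-/

namespace Pool.OddHC.CertEXM

/-- arcs, base 32 digits (31 = no arc) -/
def A : Nat := 1267649628569043748938208772095

/-- masks of the allowed images -/
def al : List Nat := [73, 266, 134, 524, 19, 37, 608, 176, 336, 896, 74752, 272384, 137216, 536576, 19456, 37888, 622592, 180224, 344064, 917504]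

/-- new words -/
def F_0 : Nat := 265219

/-- successors on the new T-cycles -/
def Z_0 : Nat := 1251557379716403691115333549418

/-- first word of the lists -/
def x0_0 : Nat := 9

/-- a new word -/
def z0_0 : Nat := 0

/-- number of new words -/
def cF_0 : Nat := 5

end Pool.OddHC.CertEXM
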