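import Pool.Agent.Work.MP_8f87b2_base.Gad20M
import Pool.Agent.Work.MP_8f87b2_h24.EXMAll

/-!
MP_8f87b2_co: the MIRRORED 20-word absorber merged with an E-pair WITHOUT an arc at the word 9: the T-cycles of the words 0
(with 10), 1 (with 11) and 18 are new, the other 15 words are on other T-cycles; arcs 12 -> 3, 15 -> 6, 14 -> 8.
-/

namespace Pool.OddHC

open Finset BinaryTree Equiv

variable {k : ℕ}

/-- the 20-word absorber with three arcs, new: the T-cycles of `w 0`, `w 1`, `w 18` -/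
noncomputable def gadEXM (w : ℕ → X k) : DG k := by
  classical
  exact
    { B := (range 20).image w
      F := {x | TT.SameCycle (w 0) x ∨ TT.SameCycle (w 1) x ∨ TT.SameCycle (w 18) x}
      arcs := {(w 12, w 3), (w 15, w 6), (w 14, w 8)} }

theorem alEXM_eq : CertEXM.al = CertM.al := by decide

/-- THE 20-WORD ABSORBER MERGED WITH AN E-PAIR, NO ARC AT THE WORD 9. -/
theorem gadEXM_abs {R Q B S : BinaryTree Unit} (hR : Q.numNodes + R.numNodes + 2 = k)
    (hB : Q.numNodes + S.numNodes + B.numNodes + 2 = k)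
    {w : ℕ → X k} (hw : ∀ i < 20, (w i).1 = w20M R Q B S i)
    (hinj : ∀ i < 20, ∀ j < 20, w i = w j → i = j) (h10 : TT.SameCycle (w 0) (w 10))
    (h11 : TT.SameCycle (w 1) (w 11)) (h01 : ¬ TT.SameCycle (w 0) (w 1))
    (h0p : ¬ TT.SameCycle (w 0) (w 18)) (h1p : ¬ TT.SameCycle (w 1) (w 18))
    (hold : ∀ i < 20, i ≠ 0 → i ≠ 1 → i ≠ 18 → i ≠ 10 → i ≠ 11 →
      ¬ TT.SameCycle (w 0) (w i) ∧ ¬ TT.SameCycle (w 1) (w i) ∧ ¬ TT.SameCycle (w 18) (w i)) :
    (gadEXM w).Abs := by
  classical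
  have hBm : ∀ x, x ∈ (gadEXM w).B ↔ ∃ i < CertEXM.al.length, w i = x := by
    intro x
    change x ∈ (range 20).image w ↔ _
    rw [mem_image]
    constructor
    · rintro ⟨i, hi, rfl⟩
      exact ⟨i, mem_range.1 hi, rfl⟩
    · rintro ⟨i, hi, rfl⟩
      exact ⟨i, mem_range.2 hi, rfl⟩
  have hbit : ∀ i : ℕ, Abs.bit CertEXM.F_0 i = true ↔ (i = 0 ∨ i = 1 ∨ i = 18 ∨ i = 10 ∨ i = 11) := by
    intro i
    rw [Abs.bit_eq]
    constructor
    · intro h
      have h20 : i < 20 := by
        by_contra h2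
        have h3 : CertEXM.F_0 < 2 ^ i := lt_of_lt_of_le (by decide)
          (Nat.pow_le_pow_right (by norm_num) (show 20 ≤ i by omega))
        rw [Nat.testBit_lt_two_pow h3] at h
        exact absurd h (by simp)
      interval_cases i <;> first
        | exact absurd h (by decide)
        | exact Or.inl rfl
        | exact Or.inr (Or.inl rfl)
        | exact Or.inr (Or.inr (Or.inl rfl))
        | exact Or.inr (Or.inr (Or.inr (Or.inl rfl)))
        | exact Or.inr (Or.inr (Or.inr (Or.inr rfl)))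
    · rintro (rfl | rfl | rfl | rfl | rfl) <;> decide
  have hFi : ∀ i < 20, (w i ∈ (gadEXM w).F ↔ (i = 0 ∨ i = 1 ∨ i = 18 ∨ i = 10 ∨ i = 11)) := by
    intro i hi
    change (TT.SameCycle (w 0) (w i) ∨ TT.SameCycle (w 1) (w i) ∨ TT.SameCycle (w 18) (w i)) ↔ _
    constructor
    · intro h
      by_contra h2
      push Not at h2
      have h3 := hold i hi h2.1 h2.2.1 h2.2.2.1 h2.2.2.2.1 h2.2.2.2.2
      rcases h with h | h | h
      · exact h3.1 h
      · exact h3.2.1 h
      · exact h3.2.2 h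
    · rintro (rfl | rfl | rfl | rfl | rfl)
      · exact Or.inl (Perm.SameCycle.refl _ _)
      · exact Or.inr (Or.inl (Perm.SameCycle.refl _ _))
      · exact Or.inr (Or.inr (Perm.SameCycle.refl _ _))
      · exact Or.inl h10
      · exact Or.inr (Or.inl h11)
  have hin0 : ∀ x ∈ (gadEXM w).B, TT.SameCycle (w 0) x → x = w 0 ∨ x = w 10 := by
    intro x hx hs
    obtain ⟨j, hj, rfl⟩ := (hBm x).1 hx
    have h3 : j = 0 ∨ j = 1 ∨ j = 18 ∨ j = 10 ∨ j = 11 := (hFi j hj).1 (Or.inl hs)
    rcases h3 with rfl | rfl | rfl | rfl | rfl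
    · exact Or.inl rfl
    · exact absurd hs h01
    · exact absurd hs h0p
    · exact Or.inr rfl
    · exact absurd (hs.trans h11.symm) h01
  have hin1 : ∀ x ∈ (gadEXM w).B, TT.SameCycle (w 1) x → x = w 1 ∨ x = w 11 := by
    intro x hx hs
    obtain ⟨j, hj, rfl⟩ := (hBm x).1 hx
    have h3 : j = 0 ∨ j = 1 ∨ j = 18 ∨ j = 10 ∨ j = 11 := (hFi j hj).1 (Or.inr (Or.inl hs))
    rcases h3 with rfl | rfl | rfl | rfl | rfl
    · exact absurd hs.symm h01
    · exact Or.inl rfl
    · exact absurd hs h1p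
    · exact absurd (h10.trans hs.symm) h01
    · exact Or.inr rfl
  have hinp : ∀ x ∈ (gadEXM w).B, TT.SameCycle (w 18) x → x = w 18 := by
    intro x hx hs
    obtain ⟨j, hj, rfl⟩ := (hBm x).1 hx
    have h3 : j = 0 ∨ j = 1 ∨ j = 18 ∨ j = 10 ∨ j = 11 := (hFi j hj).1 (Or.inr (Or.inr hs))
    rcases h3 with rfl | rfl | rfl | rfl | rfl
    · exact absurd hs.symm h0p
    · exact absurd hs.symm h1p
    · rfl
    · exact absurd (h10.trans hs.symm) h0p
    · exact absurd (h11.trans hs.symm) h1p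
  have hne0 : w 0 ≠ w 10 := by
    intro h
    have := hinj 0 (by norm_num) 10 (by norm_num) h
    omega
  have hne1 : w 1 ≠ w 11 := by
    intro h
    have := hinj 1 (by norm_num) 11 (by norm_num) h
    omega
  apply Abs.cert_abs (gadEXM w) w (fun i => ((s20M R.numNodes B.numNodes S.numNodes i : ℕ) : ZMod (2 * k + 1)))
    CertEXM.A CertEXM.F_0 CertEXM.Z_0 CertEXM.x0_0 CertEXM.z0_0 CertEXM.cF_0 CertEXM.al CertEXM.code_0 hBm
  · intro i hi j hj h
    exact hinj i hi j hj h
  · intro i hi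
    rw [hFi i hi, hbit]
  · intro i h
    rw [hbit] at h
    change i < 20
    omega
  · intro x y hxy hx
    rcases hx with hx | hx | hx
    · exact Or.inl (hx.trans hxy)
    · exact Or.inr (Or.inl (hx.trans hxy))
    · exact Or.inr (Or.inr (hx.trans hxy))
  · intro i hi hd
    have hi' : i < 20 := hi
    change (w i, w (Abs.dig CertEXM.A i)) ∈ ({(w 12, w 3), (w 15, w 6), (w 14, w 8)} :
      Set (X k × X k))
    have hd' : Abs.dig CertEXM.A i < 20 := hd
    interval_cases i <;> first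
      | exact absurd hd' (by decide)
      | exact Or.inl rfl
      | exact Or.inr (Or.inl rfl)
      | exact Or.inr (Or.inr rfl)
  · intro i h
    rw [hbit] at h
    rcases h with rfl | rfl | rfl | rfl | rfl
    · refine ⟨by decide, ?_⟩
      change FR TT (gadEXM w).B (w 0) (w 10)
      exact FR_pair TT _ _ _ ((hBm _).2 ⟨10, by decide, rfl⟩) hne0 h10 hin0
    · refine ⟨by decide, ?_⟩
      change FR TT (gadEXM w).B (w 1) (w 11)
      exact FR_pair TT _ _ _ ((hBm _).2 ⟨11, by decide, rfl⟩) hne1 h11 hin1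
    · refine ⟨by decide, ?_⟩
      change FR TT (gadEXM w).B (w 18) (w 18)
      exact FR_self TT _ _ hinp
    · refine ⟨by decide, ?_⟩
      change FR TT (gadEXM w).B (w 10) (w 0)
      refine FR_pair TT _ _ _ ((hBm _).2 ⟨0, by decide, rfl⟩) hne0.symm h10.symm ?_
      intro x hx hs
      exact (hin0 x hx (h10.trans hs)).symm
    · refine ⟨by decide, ?_⟩
      change FR TT (gadEXM w).B (w 11) (w 1)
      refine FR_pair TT _ _ _ ((hBm _).2 ⟨1, by decide, rfl⟩) hne1.symm h11.symm ?_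
      intro x hx hs
      exact (hin1 x hx (h11.trans hs)).symm
  · rw [alEXM_eq]
    exact hfr20M hR hB hw
  · decide
  · decide
  · decide
  · exact CertEXM.runEXM

end Pool.OddHC
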