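import Pool.Agent.Work.MP_8f87b2_h24.FRs
import Pool.Agent.Work.MP_8f87b2_h24.JAAll

/-!
MP_8f87b2_co: helper20's gadget J1a with its real words: the words `w20 R nil B S i`, `i < 20`, of the blocks `[R;e,e,e,e]` and
`[B;e,e,e,S]`; ONE T-cycle is new, it contains the words 0, 10, 4 in this cyclic order.
-/

namespace Pool.OddHC

open Finset BinaryTree Equiv

variable {k : ℕ}

/-- the gadget J1a -/
noncomputable def gadJA (w : ℕ → X k) : DG k := by
  classical
  exact
    { B := (range 20).image w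
      F := {x | TT.SameCycle (w 0) x}
      arcs := {(w 1, w 11), (w 3, w 12), (w 6, w 15), (w 8, w 14), (w 9, w 17)} }

theorem alJA_eq : CertJA.al = Cert.al := by decide

/-- THE GADGET J1a ABSORBS: the T-cycle of `R(())`, `B(())S`, `(())R` (cyclic order) is new, the other 17 words are on other
T-cycles. -/
theorem gadJA_abs {R B S : BinaryTree Unit} (hR : R.numNodes + 2 = k)
    (hB : S.numNodes + B.numNodes + 2 = k)
    {w : ℕ → X k} (hw : ∀ i < 20, (w i).1 = w20 R .nil B S i)
    (hinj : ∀ i < 20, ∀ j < 20, w i = w j → i = j)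
    {C : Finset (X k)} (hC : w 0 ∈ C ∧ w 10 ∈ C ∧ w 4 ∈ C)
    (h0 : FR TT C (w 0) (w 10)) (h10 : FR TT C (w 10) (w 4)) (h4 : FR TT C (w 4) (w 0))
    (hold : ∀ i < 20, i ≠ 0 → i ≠ 4 → i ≠ 10 → ¬ TT.SameCycle (w 0) (w i)) :
    (gadJA w).Abs := by
  classical
  have s0 : TT.SameCycle (w 0) (w 10) := by
    obtain ⟨n, hn, _⟩ := h0
    exact ⟨((n + 1 : ℕ) : ℤ), by rw [zpow_natCast]; exact hn⟩
  have s4 : TT.SameCycle (w 0) (w 4) := by
    obtain ⟨n, hn, _⟩ := h10
    exact s0.trans ⟨((n + 1 : ℕ) : ℤ), by rw [zpow_natCast]; exact hn⟩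
  have hBm : ∀ x, x ∈ (gadJA w).B ↔ ∃ i < CertJA.al.length, w i = x := by
    intro x
    change x ∈ (range 20).image w ↔ _
    rw [mem_image]
    constructor
    · rintro ⟨i, hi, rfl⟩
      exact ⟨i, mem_range.1 hi, rfl⟩
    · rintro ⟨i, hi, rfl⟩
      exact ⟨i, mem_range.2 hi, rfl⟩
  have hbit : ∀ i : ℕ, Abs.bit CertJA.F_0 i = true ↔ (i = 0 ∨ i = 4 ∨ i = 10) := by
    intro i
    rw [Abs.bit_eq]
    constructor
    · intro h
      have h20 : i < 20 := by
        by_contra h2
        have h3 : CertJA.F_0 < 2 ^ i := lt_of_lt_of_le (by decide)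
          (Nat.pow_le_pow_right (by norm_num) (show 20 ≤ i by omega))
        rw [Nat.testBit_lt_two_pow h3] at h
        exact absurd h (by simp)
      interval_cases i <;> first
        | exact absurd h (by decide)
        | exact Or.inl rfl
        | exact Or.inr (Or.inl rfl)
        | exact Or.inr (Or.inr rfl)
    · rintro (rfl | rfl | rfl) <;> decide
  have hFi : ∀ i < 20, (w i ∈ (gadJA w).F ↔ (i = 0 ∨ i = 4 ∨ i = 10)) := by
    intro i hi
    change TT.SameCycle (w 0) (w i) ↔ _
    constructor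
    · intro h
      by_contra h2
      push Not at h2
      exact hold i hi h2.1 h2.2.1 h2.2.2 h
    · rintro (rfl | rfl | rfl)
      · exact Perm.SameCycle.refl _ _
      · exact s4
      · exact s0
  have hin : ∀ x ∈ (gadJA w).B, TT.SameCycle (w 0) x → x ∈ C := by
    intro x hx hs
    obtain ⟨j, hj, rfl⟩ := (hBm x).1 hx
    have h3 : j = 0 ∨ j = 4 ∨ j = 10 := (hFi j hj).1 hs
    rcases h3 with rfl | rfl | rfl
    · exact hC.1
    · exact hC.2.2
    · exact hC.2.1
  apply Abs.cert_abs (gadJA w) w (fun i => ((s20 0 S.numNodes i : ℕ) : ZMod (2 * k + 1)))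
    CertJA.A CertJA.F_0 CertJA.Z_0 CertJA.x0_0 CertJA.z0_0 CertJA.cF_0 CertJA.al CertJA.code_0 hBm
  · intro i hi j hj h
    exact hinj i hi j hj h
  · intro i hi
    rw [hFi i hi, hbit]
  · intro i h
    rw [hbit] at h
    change i < 20
    omega
  · intro x y hxy hx
    exact hx.trans hxy
  · intro i hi hd
    have hi' : i < 20 := hi
    change (w i, w (Abs.dig CertJA.A i)) ∈ ({(w 1, w 11), (w 3, w 12), (w 6, w 15), (w 8, w 14), (w 9, w 17)} :
      Set (X k × X k))
    have hd' : Abs.dig CertJA.A i < 20 := hd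
    interval_cases i <;> first
      | exact absurd hd' (by decide)
      | exact Or.inl rfl
      | exact Or.inr (Or.inl rfl)
      | exact Or.inr (Or.inr (Or.inl rfl))
      | exact Or.inr (Or.inr (Or.inr (Or.inl rfl)))
      | exact Or.inr (Or.inr (Or.inr (Or.inr rfl)))
  · intro i h
    rw [hbit] at h
    rcases h with rfl | rfl | rfl
    · refine ⟨by decide, ?_⟩
      change FR TT (gadJA w).B (w 0) (w 10)
      exact h0.grow hin
    · refine ⟨by decide, ?_⟩
      change FR TT (gadJA w).B (w 4) (w 0)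
      exact h4.grow fun x hx hs => hin x hx (s4.trans hs)
    · refine ⟨by decide, ?_⟩
      change FR TT (gadJA w).B (w 10) (w 4)
      exact h10.grow fun x hx hs => hin x hx (s0.trans hs)
  · rw [alJA_eq]
    exact hfr20 (Q := .nil) (by
      change 0 + R.numNodes + 2 = k
      omega) (by
      change 0 + S.numNodes + B.numNodes + 2 = k
      omega) hw
  · decide
  · decide
  · decide
  · exact CertJA.runJA

/-- J1a with the natural hypotheses: `TT (TT (w 0)) = w 10`, `TT (w 0) ≠ w 4`, `w 0` and `w 4` on one T-cycle. -/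
theorem gadJA_abs' {R B S : BinaryTree Unit} (hR : R.numNodes + 2 = k)
    (hB : S.numNodes + B.numNodes + 2 = k)
    {w : ℕ → X k} (hw : ∀ i < 20, (w i).1 = w20 R .nil B S i)
    (hinj : ∀ i < 20, ∀ j < 20, w i = w j → i = j)
    (h10 : TT (TT (w 0)) = w 10) (h1 : TT (w 0) ≠ w 4) (h4 : TT.SameCycle (w 0) (w 4))
    (hold : ∀ i < 20, i ≠ 0 → i ≠ 4 → i ≠ 10 → ¬ TT.SameCycle (w 0) (w i)) :
    (gadJA w).Abs := by
  classical
  have hne : ∀ i < 20, ∀ j < 20, i ≠ j → w i ≠ w j := fun i hi j hj h h' => h (hinj i hi j hj h')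
  obtain ⟨a, b, c⟩ := FR.three h10 (hne 0 (by norm_num) 10 (by norm_num) (by norm_num))
    (hne 0 (by norm_num) 4 (by norm_num) (by norm_num)) (hne 10 (by norm_num) 4 (by norm_num) (by norm_num)) h1 h4
  exact gadJA_abs hR hB hw hinj (C := {w 0, w 10, w 4}) (by simp) a b c hold

end Pool.OddHC
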