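import Pool.Agent.Work.MP_8f87b2_h24.JAN1

/-!
The certificate `CertJAN` is correct.
-/

namespace Pool.OddHC.CertJAN

/-- the code -/
def code_0 : List Nat := c0 ++ (c1 ++ [])

theorem r1 : Abs.run A F_0 Z_0 x0_0 z0_0 cF_0 al (c1 ++ []) s1 = true :=
  Abs.runT_run (by exact rfl) c1 s1 t1

theorem r0 : Abs.run A F_0 Z_0 x0_0 z0_0 cF_0 al (c0 ++ (c1 ++ [])) s0 = true :=
  Abs.runT_run (by exact r1) c0 s0 t0

theorem runJAN : Pool.OddHC.Abs.run A F_0 Z_0 x0_0 z0_0 cF_0 al code_0 [[x0_0]] = true := r0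

end Pool.OddHC.CertJAN
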