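import Pool.Agent.Work.MP_8f87b2_h24.FRs
import Pool.Agent.Work.MP_8f87b2_h24.JBAll

/-!
MP_8f87b2_co: helper20's gadget J1b with its real words: the words `w20 R nil nil S i`, `i < 20`, of the blocks `[R;e,e,e,e]` and
`[e;e,e,e,S]`; ONE T-cycle is new, it contains the words 0, 10, 4, 13 in this cyclic order.
-/

namespace Pool.OddHC

open Finset BinaryTree Equiv

variable {k : ℕ}

/-- the gadget J1b -/
noncomputable def gadJ1b (w : ℕ → X k) : DG k := by
  classical
  exact
    { B := (range 20).image w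
      F := {x | TT.SameCycle (w 0) x}
      arcs := {(w 1, w 11), (w 3, w 12), (w 6, w 15), (w 8, w 14)} }

theorem alJ1b_eq : CertJ1b.al = Cert.al := by decide

/-- THE GADGET J1b ABSORBS: the T-cycle of `R(())`, `(())S`, `(())R`, `S(())` (cyclic order) is new, the other 16 words are on
other T-cycles. (`B` need not be empty for the proof.) -/
theorem gadJ1b_abs {R B S : BinaryTree Unit} (hR : R.numNodes + 2 = k)
    (hB : S.numNodes + B.numNodes + 2 = k)
    {w : ℕ → X k} (hw : ∀ i < 20, (w i).1 = w20 R .nil B S i)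
    (hinj : ∀ i < 20, ∀ j < 20, w i = w j → i = j)
    {C : Finset (X k)} (hC : w 0 ∈ C ∧ w 10 ∈ C ∧ w 4 ∈ C ∧ w 13 ∈ C)
    (h0 : FR TT C (w 0) (w 10)) (h10 : FR TT C (w 10) (w 4)) (h4 : FR TT C (w 4) (w 13))
    (h13 : FR TT C (w 13) (w 0))
    (hold : ∀ i < 20, i ≠ 0 → i ≠ 4 → i ≠ 10 → i ≠ 13 → ¬ TT.SameCycle (w 0) (w i)) :
    (gadJ1b w).Abs := by
  classical
  have s0 : TT.SameCycle (w 0) (w 10) := by
    obtain ⟨n, hn, _⟩ := h0
    exact ⟨((n + 1 : ℕ) : ℤ), by rw [zpow_natCast]; exact hn⟩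
  have s4 : TT.SameCycle (w 0) (w 4) := by
    obtain ⟨n, hn, _⟩ := h10
    exact s0.trans ⟨((n + 1 : ℕ) : ℤ), by rw [zpow_natCast]; exact hn⟩
  have s13 : TT.SameCycle (w 0) (w 13) := by
    obtain ⟨n, hn, _⟩ := h4
    exact s4.trans ⟨((n + 1 : ℕ) : ℤ), by rw [zpow_natCast]; exact hn⟩
  have hBm : ∀ x, x ∈ (gadJ1b w).B ↔ ∃ i < CertJ1b.al.length, w i = x := by
    intro x
    change x ∈ (range 20).image w ↔ _
    rw [mem_image]
    constructor
    · rintro ⟨i, hi, rfl⟩
      exact ⟨i, mem_range.1 hi, rfl⟩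
    · rintro ⟨i, hi, rfl⟩
      exact ⟨i, mem_range.2 hi, rfl⟩
  have hbit : ∀ i : ℕ, Abs.bit CertJ1b.F_0 i = true ↔ (i = 0 ∨ i = 4 ∨ i = 10 ∨ i = 13) := by
    intro i
    rw [Abs.bit_eq]
    constructor
    · intro h
      have h20 : i < 20 := by
        by_contra h2
        have h3 : CertJ1b.F_0 < 2 ^ i := lt_of_lt_of_le (by decide)
          (Nat.pow_le_pow_right (by norm_num) (show 20 ≤ i by omega))
        rw [Nat.testBit_lt_two_pow h3] at h
        exact absurd h (by simp)
      interval_cases i <;> first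
        | exact absurd h (by decide)
        | exact Or.inl rfl
        | exact Or.inr (Or.inl rfl)
        | exact Or.inr (Or.inr (Or.inl rfl))
        | exact Or.inr (Or.inr (Or.inr rfl))
    · rintro (rfl | rfl | rfl | rfl) <;> decide
  have hFi : ∀ i < 20, (w i ∈ (gadJ1b w).F ↔ (i = 0 ∨ i = 4 ∨ i = 10 ∨ i = 13)) := by
    intro i hi
    change TT.SameCycle (w 0) (w i) ↔ _
    constructor
    · intro h
      by_contra h2
      push Not at h2
      exact hold i hi h2.1 h2.2.1 h2.2.2.1 h2.2.2.2 h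
    · rintro (rfl | rfl | rfl | rfl)
      · exact Perm.SameCycle.refl _ _
      · exact s4
      · exact s0
      · exact s13
  have hin : ∀ x ∈ (gadJ1b w).B, TT.SameCycle (w 0) x → x ∈ C := by
    intro x hx hs
    obtain ⟨j, hj, rfl⟩ := (hBm x).1 hx
    have h3 : j = 0 ∨ j = 4 ∨ j = 10 ∨ j = 13 := (hFi j hj).1 hs
    rcases h3 with rfl | rfl | rfl | rfl
    · exact hC.1
    · exact hC.2.2.1
    · exact hC.2.1
    · exact hC.2.2.2
  apply Abs.cert_abs (gadJ1b w) w (fun i => ((s20 0 S.numNodes i : ℕ) : ZMod (2 * k + 1)))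
    CertJ1b.A CertJ1b.F_0 CertJ1b.Z_0 CertJ1b.x0_0 CertJ1b.z0_0 CertJ1b.cF_0 CertJ1b.al CertJ1b.code_0 hBm
  · intro i hi j hj h
    exact hinj i hi j hj h
  · intro i hi
    rw [hFi i hi, hbit]
  · intro i h
    rw [hbit] at h
    change i < 20
    omega
  · intro x y hxy hx
    exact hx.trans hxy
  · intro i hi hd
    have hi' : i < 20 := hi
    change (w i, w (Abs.dig CertJ1b.A i)) ∈ ({(w 1, w 11), (w 3, w 12), (w 6, w 15), (w 8, w 14)} :
      Set (X k × X k))
    have hd' : Abs.dig CertJ1b.A i < 20 := hd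
    interval_cases i <;> first
      | exact absurd hd' (by decide)
      | exact Or.inl rfl
      | exact Or.inr (Or.inl rfl)
      | exact Or.inr (Or.inr (Or.inl rfl))
      | exact Or.inr (Or.inr (Or.inr rfl))
  · intro i h
    rw [hbit] at h
    rcases h with rfl | rfl | rfl | rfl
    · refine ⟨by decide, ?_⟩
      change FR TT (gadJ1b w).B (w 0) (w 10)
      exact h0.grow hin
    · refine ⟨by decide, ?_⟩
      change FR TT (gadJ1b w).B (w 4) (w 13)
      exact h4.grow fun x hx hs => hin x hx (s4.trans hs)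
    · refine ⟨by decide, ?_⟩
      change FR TT (gadJ1b w).B (w 10) (w 4)
      exact h10.grow fun x hx hs => hin x hx (s0.trans hs)
    · refine ⟨by decide, ?_⟩
      change FR TT (gadJ1b w).B (w 13) (w 0)
      exact h13.grow fun x hx hs => hin x hx (s13.trans hs)
  · rw [alJ1b_eq]
    exact hfr20 (Q := .nil) (by
      change 0 + R.numNodes + 2 = k
      omega) (by
      change 0 + S.numNodes + B.numNodes + 2 = k
      omega) hw
  · decide
  · decide
  · decide
  · exact CertJ1b.runJ1b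

end Pool.OddHC
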