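import Pool.Agent.Work.MP_8f87b2_h24.Part

/-!
MP_8f87b2_co: certificate (insertion tree) for helper20's gadget J1b, format of helper35 (run A F Z x0 z0 cF al code [[x0]]):
the 20 words of `Cert` (Q, B empty), arcs (T^2): 1 -> 11, 3 -> 12, 6 -> 15, 8 -> 14. New: ONE T-cycle 0 > 10 > 4 > 13.
Parameters. The parts of the code are in the modules `JB1`, ...
-/

namespace Pool.OddHC.CertJ1b

/-- arcs, base 32 digits (31 = no arc) -/
def A : Nat := 1267650600228229382787825040767

/-- masks of the allowed images -/
def al : List Nat := [49, 22, 44, 11, 400, 224, 321, 644, 770, 584, 50176, 22528, 45056, 11264, 409600, 229376, 328704, 659456, 788480, 598016]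

/-- new words -/
def F_0 : Nat := 9233

/-- successors on the new T-cycles -/
def Z_0 : Nat := 1267650599084500869629207379946

/-- first word of the lists -/
def x0_0 : Nat := 17

/-- a new word -/
def z0_0 : Nat := 0

/-- number of new words -/
def cF_0 : Nat := 4

end Pool.OddHC.CertJ1b
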