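import Pool.Agent.Work.MP_8f87b2_h24.Part

/-!
MP_8f87b2_co: certificate (insertion tree) for the MIRROR of helper69's pair gadget J2 (19 words, no H-link), format of
helper35. Words = the mirror words in the same order (R, S, B = mirrored): 0 = (())R, 1 = ()()R, 2 = ()R(), 3 = (()R), 4 = R(()),
5 = ()(R), 6 = (R()), 7 = (R)(), 8 = ((R)), 9 = S(())B, 10 = S()()B, 11 = ()B(S), 12 = (()B)S, 13 = B(S()), 14 = B(S)(), 15 = ()(B)S,
16 = (B(S)), 17 = (B)S(), 18 = ((B)S). Arcs (T^2): 10 -> 1, 11 -> 3, 14 -> 5, 13 -> 7. New: the loops {0,9}, {4}.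
Parameters. The parts of the code are in the modules `JM1`, ...
-/

namespace Pool.OddHC.CertJM

/-- arcs, base 32 digits (31 = no arc) -/
def A : Nat := 39614049675263731292283338751

/-- masks of the allowed images -/
def al : List Nat := [41, 138, 70, 268, 19, 288, 80, 176, 448, 37376, 136192, 68608, 268288, 9728, 18944, 311296, 90112, 172032, 458752]

/-- new words -/
def F_0 : Nat := 529

/-- successors on the new T-cycles -/
def Z_0 : Nat := 39614081257131078081208909801

/-- first word of the lists -/
def x0_0 : Nat := 16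

/-- a new word -/
def z0_0 : Nat := 9

/-- number of new words -/
def cF_0 : Nat := 3

end Pool.OddHC.CertJM
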