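import Pool.Agent.Work.MP_8f87b2_h24.Part

/-!
MP_8f87b2_co: certificate (insertion tree) for helper69's pair gadget J2 (19 words, no H-link), format of helper35
(run A F Z x0 z0 cF al code [[x0]]). Words (`Q` empty), numbers of the 20-word absorber in brackets:
0 = R(()) [0], 1 = R()() [1], 2 = ()R() [2], 3 = (R()) [3], 4 = (())R [4], 5 = (R)() [6], 6 = (()R) [7], 7 = ()(R) [8], 8 = ((R)) [9],
9 = B(())S [10], 10 = B()()S [11], 11 = (S)B() [12], 12 = S(B()) [13], 13 = (()S)B [14], 14 = ()(S)B [15], 15 = S(B)() [16],
16 = ((S)B) [17], 17 = ()S(B) [18], 18 = (S(B)) [19]. Arcs (T^2): 1 -> 10, 3 -> 11, 5 -> 14, 7 -> 13. New: the loops {0,9}, {4}.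
Parameters. The parts of the code are in the modules `J1`, ...
-/

namespace Pool.OddHC.CertJ

/-- arcs, base 32 digits (31 = no arc) -/
def A : Nat := 39614081257132168177725603167

/-- masks of the allowed images -/
def al : List Nat := [17, 22, 12, 11, 208, 161, 324, 386, 296, 25088, 11264, 22528, 5632, 204800, 114688, 164352, 329728, 394240, 299008]

/-- new words -/
def F_0 : Nat := 529

/-- successors on the new T-cycles -/
def Z_0 : Nat := 39614081257131078081208909801

/-- first word of the lists -/
def x0_0 : Nat := 16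

/-- a new word -/
def z0_0 : Nat := 0

/-- number of new words -/
def cF_0 : Nat := 3

end Pool.OddHC.CertJ
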