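import Pool.Agent.Work.MP_8f87b2_h99.Ty9

/-!
MP_8f87b2_co, pairs (type Is9): ORIENTATION. The inner word of the arc at `x = ((S))` is `T x` for the right gadget and `T⁻¹ x`
for the mirrored one. If `a`, `b` are two words on different T-cycles (the words 0 and 1 of the gadget which owns the T-cycle of
`x`), then not both inner words are in `{a, b}`.
-/

set_option autoImplicit false

namespace Pool.OddHC

open Finset BinaryTree Equiv

variable {k : ℕ}

/-- right and mirrored gadget are never both bad -/
theorem orient {x x6 y6 a b : X k} (hab : cyc a ≠ cyc b) (hr : TT (TT x) = x6) (hne : x6 ≠ x)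
    (hm : TT (TT y6) = x) (h1 : TT x = a ∨ TT x = b) (h2 : TT y6 = a ∨ TT y6 = b) : False := by
  have e1 : cyc (TT x) = cyc x := cyc_eq.2 ⟨-1, by simp⟩
  have e2 : cyc (TT y6) = cyc x := cyc_eq.2 ⟨1, by rw [zpow_one, hm]⟩
  have key : TT x = TT y6 := by
    rcases h1 with h1 | h1 <;> rcases h2 with h2 | h2
    · exact h1.trans h2.symm
    · exact absurd (by rw [← h1, ← h2, e1, e2]) hab
    · exact absurd (by rw [← h1, ← h2, e1, e2]) hab
    · exact h1.trans h2.symm
  apply hne
  rw [← hr, key, hm]

/-- the same for the two pair gadgets over one word `S` -/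
theorem D9.orient {S : BinaryTree Unit} {w w' : ℕ → X k} (h : D9 .nil .nil S w) (h' : D9M .nil .nil S w')
    (he : w' 3 = w 3) {a b : X k} (hab : cyc a ≠ cyc b) (h1 : TT (w 3) = a ∨ TT (w 3) = b)
    (h2 : TT (w' 6) = a ∨ TT (w' 6) = b) : False := by
  refine Pool.OddHC.orient hab h.arcs.1 ?_ (h'.arcs.1.trans he) h1 h2
  intro e
  have := h.inj 6 (by norm_num) 3 (by norm_num) e
  omega

end Pool.OddHC
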