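import Pool.Agent.Work.MP_8f87b2_h35.Abs

/-!
MP_8f87b2_co: splitting of a certificate run. `runT goal code st` checks that the part `code` of a certificate turns the
stack `st` into the stack `goal`.
-/

namespace Pool.OddHC.Abs

/-- equality of lists -/
def beqL : List ℕ → List ℕ → Bool
  | [], [] => true
  | a :: l, b :: m => Nat.beq a b && beqL l m
  | _, _ => false

/-- equality of stacks -/
def beqS : List (List ℕ) → List (List ℕ) → Bool
  | [], [] => true
  | a :: l, b :: m => beqL a b && beqS l m
  | _, _ => false

theorem beqL_eq : ∀ {a b : List ℕ}, beqL a b = true → a = b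
  | [], [], _ => rfl
  | x :: l, y :: m, h => by
    rw [beqL, Bool.and_eq_true] at h
    rw [Nat.eq_of_beq_eq_true h.1, beqL_eq h.2]
  | [], _ :: _, h => by simp [beqL] at h
  | _ :: _, [], h => by simp [beqL] at h

theorem beqS_eq : ∀ {a b : List (List ℕ)}, beqS a b = true → a = b
  | [], [], _ => rfl
  | x :: l, y :: m, h => by
    rw [beqS, Bool.and_eq_true] at h
    rw [beqL_eq h.1, beqS_eq h.2]
  | [], _ :: _, h => by simp [beqS] at h
  | _ :: _, [], h => by simp [beqS] at h

/-- a part of a run -/
def runT (A F Z x0 z0 cF : ℕ) (al : List ℕ) (goal : List (List ℕ)) :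
    List ℕ → List (List ℕ) → Bool
  | [], st => beqS st goal
  | _ :: _, [] => false
  | v :: code, L :: st =>
    bif Nat.blt v 32 then
      !(bit (msk L F) v) && Nat.blt v al.length &&
        runT A F Z x0 z0 cF al goal code ((ins v L).filter (okp A x0 (msk (v :: L) 0)) ++ st)
    else leaf F Z x0 z0 cF al v L && runT A F Z x0 z0 cF al goal code st

theorem runT_run {A F Z x0 z0 cF : ℕ} {al : List ℕ} {goal : List (List ℕ)} {rest : List ℕ}
    (hg : run A F Z x0 z0 cF al rest goal = true) : ∀ (code : List ℕ) (st : List (List ℕ)),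
    runT A F Z x0 z0 cF al goal code st = true →
      run A F Z x0 z0 cF al (code ++ rest) st = true
  | [], st, h => by
    rw [runT] at h
    rw [beqS_eq h, List.nil_append]
    exact hg
  | _ :: _, [], h => by simp [runT] at h
  | v :: code, L :: st, h => by
    rw [runT] at h
    rw [List.cons_append, run]
    cases hv : Nat.blt v 32 with
    | true =>
      rw [hv, cond_true, Bool.and_eq_true] at h
      rw [cond_true, Bool.and_eq_true]
      exact ⟨h.1, runT_run hg code _ h.2⟩
    | false =>
      rw [hv, cond_false, Bool.and_eq_true] at h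
      rw [cond_false, Bool.and_eq_true]
      exact ⟨h.1, runT_run hg code _ h.2⟩

end Pool.OddHC.Abs
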