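import Pool.Agent.Work.MP_8f87b2_end.Red
import Pool.Agent.Work.MP_8f87b2_end.End
import Pool.Agent.Work.MP_8f87b2_h71.H1
import Pool.Agent.Work.MP_8f87b2_top.OneOrb
import Pool.Agent.Work.MP_8f87b2_h35.Tsq

/-!
MP_8f87b2_co: ONE SOLITON, `m = 0`: the words of content `(n + 2, 2^a)` as functions on the ring `ZMod (2 n + 1)` (star at letter 0,
gaps `0, ..., 2 n`, letter 0 between the gaps `-1` and `0`).

`RF n G = inf (ins (H1.ch n) (lf G))`, `wa G : X k` (`(wa G).1 = RF n G`).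
* (B1) `app_RF`, `cons_RF`: `(RF F)(()) = RF (F + δ_(-1))`, `(())(RF F) = RF (F + δ_0)`;
* (B2) `TT_wa`, `TT2_wa`: `TT` = shift by `n`, `TT (TT (wa G)) = wa (G (. - 1))`;
* (B3) `cyc_wa`: `cyc (wa G) = cyc (wa G') ↔ ∃ c, G' = G (. + c)`;
* (B4) `exists_wa`: every T-cycle of content `(n + 2, 2^a)` is a `cyc (wa G)`;
* (B5) `shape`: `RF F = lv2 (F 0) (D △ lv2 (F (-1)) nil)`, `sq_RF`.
-/

set_option autoImplicit false

namespace Pool.OddHC

namespace Ring1

open Finset BinaryTree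

variable {n k : ℕ}

theorem ch_eq (n : ℕ) : H1.ch n = pw n := by
  induction n with
  | zero => rfl
  | succ n ih =>
    change H1.ch n △ .nil = pw n △ .nil
    rw [ih]

theorem ch_num (n : ℕ) : (H1.ch n).numNodes = n := by rw [ch_eq, pw_num]

theorem pkn_ch (hn : 1 ≤ n) : pkn (H1.ch n) = 1 := by
  obtain ⟨p, rfl⟩ : ∃ p, n = p + 1 := ⟨n - 1, by omega⟩
  rw [ch_eq, pkn_pw]

/-- the word of the function `F` -/
noncomputable def RF (n : ℕ) (F : ZMod (2 * n + 1) → ℕ) : BinaryTree Unit := inf (ins (H1.ch n) (lf F))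

theorem inf_num (t : BinaryTree Unit) : (inf t).numNodes = t.numNodes + pkn t := by
  unfold inf
  rw [(ins_num t _ List.length_replicate).1, List.sum_replicate]
  simp

theorem ins_len (F : ZMod (2 * n + 1) → ℕ) : (lf F).length = 2 * (H1.ch n).numNodes + 1 := by
  rw [lf_length, ch_num]

theorem in_num (hn : 1 ≤ n) (F : ZMod (2 * n + 1) → ℕ) :
    (ins (H1.ch n) (lf F)).numNodes = n + 1 + ∑ x, F x ∧ pkn (ins (H1.ch n) (lf F)) = 1 + ∑ x, F x := by
  have h := ins_num (H1.ch n) (lf F) (ins_len F)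
  rw [lf_sum, ch_num, pkn_ch hn] at h
  exact h

theorem RF_num (hn : 1 ≤ n) (F : ZMod (2 * n + 1) → ℕ) : (RF n F).numNodes = n + 2 + 2 * ∑ x, F x := by
  unfold RF
  rw [inf_num, (in_num hn F).1, (in_num hn F).2]
  ring

/-- the word `RF n G` as an element of `X k` -/
noncomputable def wa (hn : 1 ≤ n) (G : ZMod (2 * n + 1) → ℕ) (h : n + 2 + 2 * ∑ x, G x = k) : X k :=
  ⟨RF n G, mem_treesOfNumNodesEq.2 ((RF_num hn G).trans h)⟩

theorem wa_val (hn : 1 ≤ n) (G : ZMod (2 * n + 1) → ℕ) (h : n + 2 + 2 * ∑ x, G x = k) :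
    (wa hn G h).1 = RF n G := rfl

theorem wa_congr {hn : 1 ≤ n} {G G' : ZMod (2 * n + 1) → ℕ} {h : n + 2 + 2 * ∑ x, G x = k}
    (e : G = G') : wa hn G h = wa hn G' (by rw [← e]; exact h) := by
  subst e
  rfl

/-- the lower word -/
theorem low_word (hn : 1 ≤ n) (G : ZMod (2 * n + 1) → ℕ) :
    n + pkn (pwX n).1 + ∑ x, G x = n + 1 + ∑ x, G x := by
  have h : pkn (pwX n).1 = 1 := by
    change pkn (pw n) = 1
    rw [← ch_eq, pkn_ch hn]
  rw [h]

theorem wa_phi (hn : 1 ≤ n) (G : ZMod (2 * n + 1) → ℕ) (h : n + 2 + 2 * ∑ x, G x = k) :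
    (n + 1 + ∑ x, G x) + pkn (phi (pwX n) G (low_word hn G)).1 +
      ∑ _x : ZMod (2 * (n + 1 + ∑ x, G x) + 1), 0 = k ∧
    (phi (pwX n) G (low_word hn G)).1 = ins (H1.ch n) (lf G) := by
  have h1 : (phi (pwX n) G (low_word hn G)).1 = ins (H1.ch n) (lf G) := by
    rw [ch_eq]
    rfl
  refine ⟨?_, h1⟩
  rw [h1, (in_num hn G).2, sum_const_zero]
  omega

theorem wa_eq_phi (hn : 1 ≤ n) (G : ZMod (2 * n + 1) → ℕ) (h : n + 2 + 2 * ∑ x, G x = k) :
    wa hn G h = phi (phi (pwX n) G (low_word hn G)) (fun _ => 0) (wa_phi hn G h).1 := by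
  apply Subtype.ext
  change RF n G = ins (phi (pwX n) G (low_word hn G)).1 (lf _)
  rw [(wa_phi hn G h).2, lf_zero]
  unfold RF inf
  rw [(in_num hn G).1]

/-- functions of a shifted argument -/
theorem shift_sum (G : ZMod (2 * n + 1) → ℕ) (c : ZMod (2 * n + 1)) : ∑ x, G (x + c) = ∑ x, G x :=
  sum_shift G c

theorem pow_wa (hn : 1 ≤ n) (G : ZMod (2 * n + 1) → ℕ) (h : n + 2 + 2 * ∑ x, G x = k) (i : ℕ) :
    (TT ^ i) (wa hn G h) = wa hn (fun x => G (x + (i : ZMod (2 * n + 1)) * (n : ZMod (2 * n + 1)))) (by rw [shift_sum]; exact h) := by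
  rw [wa_eq_phi, pow_phi]
  apply Subtype.ext
  change ins ((TT ^ i) (phi (pwX n) G (low_word hn G))).1 (lf fun _ => 0) = RF n _
  rw [pow_phi, lf_zero]
  have e1 : (phi ((TT ^ i) (pwX n)) (fun x => G (x + sp (pwX n) i))
      (by rw [pkn_pow, sum_shift]; exact low_word hn G) : X (n + 1 + ∑ x, G x)).1 =
      ins (H1.ch n) (lf fun x => G (x + (i : ZMod (2 * n + 1)) * (n : ZMod (2 * n + 1)))) := by
    change ins ((TT ^ i) (pwX n)).1 (lf _) = _
    rw [(sp_pw n hn i).2, (sp_pw n hn i).1, ch_eq]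
    rfl
  rw [e1]
  unfold RF inf
  rw [(in_num hn _).1, shift_sum]

/-- (B2), one step -/
theorem TT_wa (hn : 1 ≤ n) (G : ZMod (2 * n + 1) → ℕ) (h : n + 2 + 2 * ∑ x, G x = k) :
    TT (wa hn G h) = wa hn (fun x => G (x + n)) (by rw [shift_sum]; exact h) := by
  have h1 := pow_wa hn G h 1
  rw [pow_one] at h1
  rw [h1]
  apply wa_congr
  funext x
  rw [Nat.cast_one, one_mul]

theorem two_n (n : ℕ) : ((2 : ℕ) : ZMod (2 * n + 1)) * n = -1 := by
  have h0 : ((2 * n + 1 : ℕ) : ZMod (2 * n + 1)) = 0 := ZMod.natCast_self _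
  push_cast at h0 ⊢
  linear_combination h0

/-- (B2): the square of `T` moves the star by one letter -/
theorem TT2_wa (hn : 1 ≤ n) (G : ZMod (2 * n + 1) → ℕ) (h : n + 2 + 2 * ∑ x, G x = k) :
    TT (TT (wa hn G h)) = wa hn (fun x => G (x - 1)) (by
      have := shift_sum G (-1)
      simp only [← sub_eq_add_neg] at this
      rw [this]; exact h) := by
  have h1 := pow_wa hn G h 2
  rw [pow_two, Equiv.Perm.mul_apply] at h1
  rw [h1]
  apply wa_congr
  funext x
  rw [two_n, sub_eq_add_neg]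

theorem RF_inj {F F' : ZMod (2 * n + 1) → ℕ} (h : RF n F = RF n F') : F = F' := by
  have h1 := ins_inj List.length_replicate List.length_replicate h
  have h2 := (ins_inj (ins_len F) (ins_len F') h1.1).2
  exact lf_inj h2

theorem wa_inj {hn : 1 ≤ n} {G G' : ZMod (2 * n + 1) → ℕ} {h : n + 2 + 2 * ∑ x, G x = k}
    {h' : n + 2 + 2 * ∑ x, G' x = k} (e : wa hn G h = wa hn G' h') : G = G' :=
  RF_inj (congrArg Subtype.val e)

/-- (B3): the T-cycles are the classes of the rotations -/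
theorem cyc_wa (hn : 1 ≤ n) (G G' : ZMod (2 * n + 1) → ℕ) (h : n + 2 + 2 * ∑ x, G x = k)
    (h' : n + 2 + 2 * ∑ x, G' x = k) :
    cyc (wa hn G h) = cyc (wa hn G' h') ↔ ∃ c : ZMod (2 * n + 1), G' = fun x => G (x + c) := by
  rw [cyc_eq]
  constructor
  · intro hs
    obtain ⟨i, hi⟩ := sameCycle_nat hs
    rw [pow_wa] at hi
    exact ⟨_, (wa_inj hi).symm⟩
  · rintro ⟨c, hc⟩
    -- `c = i n`, `i = -2 c`
    refine ⟨(((-2 * c).val : ℕ) : ℤ), ?_⟩
    rw [zpow_natCast, pow_wa]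
    apply wa_congr
    rw [hc]
    funext x
    congr 2
    rw [ZMod.natCast_zmod_val]
    have h0 := two_n n
    push_cast at h0
    linear_combination (-c) * h0

/-- (B1), end of the word -/
theorem app_RF (F : ZMod (2 * n + 1) → ℕ) :
    app (RF n F) ((BinaryTree.nil △ .nil) △ .nil) = RF n (fun x => F x + if x = -1 then 1 else 0) := by
  unfold RF
  rw [ch_eq]
  have h := ins_back (pwX n) F
  change ins (pw n) _ = app (ins (pw n) _) _ at h
  rw [h, inf_app]
  rfl

/-- (B1), beginning of the word -/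
theorem cons_RF (F : ZMod (2 * n + 1) → ℕ) :
    (BinaryTree.nil △ .nil) △ RF n F = RF n (fun x => F x + if x = 0 then 1 else 0) := by
  unfold RF
  rw [ch_eq]
  have h := ins_front (pwX n) F
  change ins (pw n) _ = .nil △ ins (pw n) _ at h
  rw [h, inf_node]
  rfl

/-! ### (B4) -/

theorem map_succ_inj {M N : Multiset ℕ} (h : M.map (· + 1) = N.map (· + 1)) : M = N :=
  Multiset.map_injective (add_left_injective 1) h

/-- a word of content `(n + 2, 2^a)` is a word `RF n G` -/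
theorem exists_RF (hn : 1 ≤ n) {a : ℕ} {w : BinaryTree Unit}
    (h : cont w = {n + 2} + Multiset.replicate a 2) :
    ∃ G : ZMod (2 * n + 1) → ℕ, ∑ x, G x = a ∧ w = RF n G := by
  have e0 := ins_red w
  have l0 := red_len w
  obtain ⟨u, hu⟩ : ∃ u, u = (red w).1 := ⟨_, rfl⟩
  obtain ⟨e, he⟩ : ∃ e, e = (red w).2 := ⟨_, rfl⟩
  rw [← hu, ← he] at e0
  rw [← hu, ← he] at l0
  have c0 := cont_ins u e l0
  have s0 := count_one_ins u e l0
  rw [e0, h] at c0 s0
  have s1 : e.sum = 0 := by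
    rw [← s0, Multiset.count_add, Multiset.count_singleton, Multiset.count_replicate]
    rw [if_neg (by omega), if_neg (by omega)]
  rw [s1, Multiset.replicate_zero, add_zero] at c0
  have c1 : cont u = {n + 1} + Multiset.replicate a 1 := by
    apply map_succ_inj
    rw [← c0, Multiset.map_add, Multiset.map_singleton, Multiset.map_replicate]
  have e1 := ins_red u
  have l1 := red_len u
  obtain ⟨v, hv⟩ : ∃ v, v = (red u).1 := ⟨_, rfl⟩
  obtain ⟨f, hf⟩ : ∃ f, f = (red u).2 := ⟨_, rfl⟩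
  rw [← hv, ← hf] at e1
  rw [← hv, ← hf] at l1
  have d0 := cont_ins v f l1
  have t0 := count_one_ins v f l1
  rw [e1, c1] at d0 t0
  have t1 : f.sum = a := by
    rw [← t0, Multiset.count_add, Multiset.count_singleton, Multiset.count_replicate]
    rw [if_neg (by omega), if_pos rfl, zero_add]
  rw [t1] at d0
  have d1 : cont v = {n} := by
    apply map_succ_inj
    rw [Multiset.map_singleton]
    exact (add_right_cancel d0).symm
  have vn : v.numNodes = n := by rw [← cont_sum, d1, Multiset.sum_singleton]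
  have vh : ht v = v.numNodes := by rw [ht_eq, d1, Multiset.sup_singleton, vn]
  have v1 : v = H1.ch n := by rw [ht_full vh, vn, ch_eq]
  have l2 : f.length = 2 * n + 1 := by rw [l1, vn]
  obtain ⟨G, hG⟩ := exists_lf l2
  refine ⟨G, by rw [← lf_sum, ← hG, t1], ?_⟩
  have e2 : e = List.replicate (2 * u.numNodes + 1) 0 := by
    rw [List.eq_replicate_iff]
    refine ⟨l0, ?_⟩
    intro b hb
    exact List.sum_eq_zero_iff.1 s1 b hb
  unfold RF inf
  rw [← hG, ← v1, e1, ← e2, e0]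

/-- (B4): every T-cycle of content `(n + 2, 2^a)` -/
theorem exists_wa (hn : 1 ≤ n) {a : ℕ} (hk : n + 2 + 2 * a = k) (p : Cyc k)
    (h : contc p = {n + 2} + Multiset.replicate a 2) :
    ∃ (G : ZMod (2 * n + 1) → ℕ) (hG : ∑ x, G x = a), p = cyc (wa hn G (by rw [hG]; exact hk)) := by
  obtain ⟨w, rfl⟩ := Quotient.exists_rep p
  change cont w.1 = _ at h
  obtain ⟨G, h1, h2⟩ := exists_RF hn h
  refine ⟨G, h1, ?_⟩
  change cyc w = _
  congr 1
  exact Subtype.ext h2

/-- the content of the words -/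
theorem cont_RF (hn : 1 ≤ n) (G : ZMod (2 * n + 1) → ℕ) :
    cont (RF n G) = {n + 2} + Multiset.replicate (∑ x, G x) 2 := by
  unfold RF
  rw [cont_inf, cont_ins _ _ (ins_len G), lf_sum]
  have h : cont (H1.ch n) = {n} := by
    obtain ⟨p, rfl⟩ : ∃ p, n = p + 1 := ⟨n - 1, by omega⟩
    have h1 : H1.ch (p + 1) = pc (p + 1) := by
      rw [ch_eq]
      have : ∀ q, pw q = pc q := by
        intro q
        induction q with
        | zero => rfl
        | succ q ih =>
          change pw q △ .nil = pc q △ .nil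
          rw [ih]
      exact this _
    rw [h1, cont_pc]
  rw [h, Multiset.map_singleton, Multiset.map_add, Multiset.map_singleton, Multiset.map_replicate]

theorem contc_wa (hn : 1 ≤ n) (G : ZMod (2 * n + 1) → ℕ) (h : n + 2 + 2 * ∑ x, G x = k) :
    contc (cyc (wa hn G h)) = {n + 2} + Multiset.replicate (∑ x, G x) 2 := cont_RF hn G

/-! ### (B5) -/

theorem lv2_app (p : ℕ) (t : BinaryTree Unit) : lv2 p t = app (lv2 p .nil) t := by
  induction p with
  | zero => rfl
  | succ p ih =>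
    change (BinaryTree.nil △ .nil) △ lv2 p t = (BinaryTree.nil △ .nil) △ app (lv2 p .nil) t
    rw [ih]

theorem inf_lp (t : ℕ) : inf (lv t .nil) = lv2 t .nil := by rw [inf_lv, inf_nil]

/-- THE SHAPE: `F 0` components `(())`, one tall component, `F (-1)` components `(())` -/
theorem shape (hn : 1 ≤ n) (F : ZMod (2 * n + 1) → ℕ) : ∃ D0 : BinaryTree Unit, D0 ≠ .nil ∧
    RF n F = lv2 (F 0) (inf D0 △ lv2 (F (-1)) .nil) := by
  obtain ⟨p, rfl⟩ : ∃ p, n = p + 1 := ⟨n - 1, by omega⟩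
  obtain ⟨l, h0, h1, _⟩ := lf_snoc F
  obtain ⟨l', h2, _⟩ := lf_cons F
  -- `lf F = F 0 :: (m ++ [F (-1)])`
  obtain ⟨m, hm⟩ : ∃ m, l = F 0 :: m := by
    cases l with
    | nil => simp at h0
    | cons x m =>
      rw [h1, List.cons_append, List.cons.injEq] at h2
      exact ⟨m, by rw [h2.1]⟩
  rw [hm] at h0 h1
  have hml : m.length = 2 * (H1.ch p).numNodes + 1 := by
    rw [List.length_cons] at h0
    rw [ch_num]
    omega
  refine ⟨ins (H1.ch p) (bump (H1.ch p) m), ins_ne_nil _ _, ?_⟩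
  unfold RF
  rw [h1]
  change inf (ins (H1.ch p △ .nil) _) = _
  rw [ins]
  have e1 : (F 0 :: m ++ [F (-1)]).headD 0 = F 0 := rfl
  have e2 : (F 0 :: m ++ [F (-1)]).tail.take (2 * (H1.ch p).numNodes + 1) = m := List.take_left' hml
  have e3 : (F 0 :: m ++ [F (-1)]).drop (2 * (H1.ch p).numNodes + 2) = [F (-1)] := by
    change (m ++ [F (-1)]).drop (2 * (H1.ch p).numNodes + 1) = _
    exact List.drop_left' hml
  rw [e1, e2, e3, inf_lv, inf_node, inf1_eq (ins_ne_nil _ _)]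
  change lv2 (F 0) (inf _ △ inf (lv (F (-1)) .nil)) = _
  rw [inf_lp]

theorem ht_tsq (t : BinaryTree Unit) : Tsq.ht t = ht t := by
  induction t with
  | nil => rfl
  | node _ A B ihA ihB =>
    change max (Tsq.ht A + 1) (Tsq.ht B) = max (ht A + 1) (ht B)
    rw [ihA, ihB]

theorem ht_two {D : BinaryTree Unit} (h : D ≠ .nil) : 2 ≤ ht (inf D) := by
  rw [ht_inf h]
  have := ht_pos h
  omega

theorem ht_lv2 (p : ℕ) (t : BinaryTree Unit) : ht (lv2 p t) ≤ max 2 (ht t) := by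
  induction p with
  | zero => exact le_max_right _ _
  | succ p ih =>
    change max (1 + 1) (ht (lv2 p t)) ≤ _
    omega

theorem le_ht_lv2 (p : ℕ) (t : BinaryTree Unit) : ht t ≤ ht (lv2 p t) := by
  induction p with
  | zero => exact le_rfl
  | succ p ih => exact ih.trans (le_max_right _ _)

/-- no component is empty -/
def NN : BinaryTree Unit → Prop
  | .nil => True
  | .node _ A B => A ≠ .nil ∧ NN B

theorem NN_inf (t : BinaryTree Unit) : NN (inf t) := by
  induction t with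
  | nil => exact trivial
  | node _ A B _ ih =>
    change NN (inf (A △ B))
    rw [inf_node]
    exact ⟨inf1_ne_nil A, ih⟩

theorem sq_lv2 {C : BinaryTree Unit} (hC : 3 ≤ Tsq.ht C) (p : ℕ) : (Tsq.sq (lv2 p C)).2 = (Tsq.sq C).2 := by
  induction p with
  | zero => rfl
  | succ p ih =>
    have h1 : 3 ≤ Tsq.ht (lv2 p C) := by
      rw [ht_tsq] at hC ⊢
      exact hC.trans (le_ht_lv2 p C)
    have hne : lv2 p C ≠ .nil := by
      intro h
      rw [h] at h1
      change 3 ≤ 0 at h1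
      omega
    have h2 := Tsq.sq_ne hne
    obtain ⟨Y, Z, hX⟩ : ∃ Y Z, (Tsq.sq (lv2 p C)).1 = Y △ Z := by
      cases hS : (Tsq.sq (lv2 p C)).1 with
      | nil => exact absurd hS h2
      | node _ Y Z => exact ⟨Y, Z, rfl⟩
    change (Tsq.sq ((BinaryTree.nil △ .nil) △ lv2 p C)).2 = _
    rw [Tsq.sq_lt (by
      change 1 + 1 < _
      omega) hX]
    exact ih

theorem app_cancel (P : BinaryTree Unit) {A B : BinaryTree Unit} (h : app P A = app P B) : A = B := by
  induction P with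
  | nil => exact h
  | node u C D _ ih =>
    change BinaryTree.node u C (app D A) = BinaryTree.node u C (app D B) at h
    rw [BinaryTree.node.injEq] at h
    exact ih h.2.2

/-- THE SQUARE OF `T`: `sq (RF F) = (S, lv2 (F (-1)) nil)`, `S` = tall component + `F (-2)` components `(())`, and
`lv2 (F (-1)) S = RF (F (. - 1))` -/
theorem sq_RF (hn : 1 ≤ n) (F : ZMod (2 * n + 1) → ℕ) :
    (Tsq.sq (RF n F)).2 = lv2 (F (-1)) .nil ∧
    lv2 (F (-1)) (Tsq.sq (RF n F)).1 = RF n (fun x => F (x - 1)) ∧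
    ∃ D1 : BinaryTree Unit, D1 ≠ .nil ∧ (Tsq.sq (RF n F)).1 = inf D1 △ lv2 (F (-2)) .nil := by
  obtain ⟨D0, hD0, hs⟩ := shape hn F
  have hD := ht_two hD0
  have h1 : (Tsq.sq (RF n F)).2 = lv2 (F (-1)) .nil := by
    rw [hs, sq_lv2]
    · rw [Tsq.sq_ge (inf_ne_nil hD0)]
      rw [ht_tsq, ht_tsq]
      have := ht_lv2 (F (-1)) .nil
      change _ ≤ max 2 0 at this
      omega
    · rw [ht_tsq]
      change 3 ≤ max (ht (inf D0) + 1) _
      omega
  have hne : (wa (k := n + 2 + 2 * ∑ x, F x) hn F rfl).1 ≠ .nil := by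
    intro h
    have h2 := congrArg BinaryTree.numNodes h
    rw [wa_val, RF_num hn] at h2
    change _ = 0 at h2
    omega
  have h2 := Tsq.TT_sq _ hne
  rw [TT2_wa, wa_val, wa_val] at h2
  rw [h1, ← lv2_app] at h2
  refine ⟨h1, h2.symm, ?_⟩
  obtain ⟨D1, hD1, hs1⟩ := shape hn (fun x => F (x - 1))
  refine ⟨D1, hD1, ?_⟩
  rw [hs1] at h2
  simp only [zero_sub] at h2
  rw [lv2_app, lv2_app (F (-1)) (Tsq.sq (RF n F)).1] at h2
  have h3 := app_cancel _ h2
  rw [← h3]
  congr 3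
  ring

end Ring1

end Pool.OddHC
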