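import Pool.Agent.Work.MP_8f87b2_h24.SymCore

/-!
# Every admissible number is the order of a permutation whose powers `≠ 1` preserve no `k`-subset
-/

namespace Pool.Agent.Work.MP_8f87b2_h24.Sym

open Finset

theorem per_iff' {X : Type*} (σ : Equiv.Perm X) (x : X) (j : ℕ) :
    (σ ^ j) x = x ↔ Function.minimalPeriod σ x ∣ j := by
  rw [← Equiv.Perm.iterate_eq_pow]
  exact Function.isPeriodicPt_iff_minimalPeriod_dvd

/-- the construction -/
theorem exists_constr : ∀ m : ℕ, 0 < m → ∀ n : ℕ,
    (∀ d p : ℕ, d ∣ m → p.Prime → p ∣ d → (∀ q : ℕ, q.Prime → q ∣ d → q ≤ p) →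
      n % d + 3 ≤ p) →
    ∀ (X : Type) [Fintype X], Fintype.card X = n →
    ∃ σ : Equiv.Perm X, σ ^ m = 1 ∧ ∀ q : ℕ, q.Prime → q ∣ m →
      Nat.card {x : X // (σ ^ (m / q)) x = x} = n % q := by
  intro m
  induction m using Nat.strong_induction_on with
  | _ m ih =>
    intro hm n hadm X _ hX
    rcases Nat.lt_or_ge 1 m with h1 | h1
    · -- the largest prime factor
      have hne : m.primeFactors.Nonempty := Nat.nonempty_primeFactors.2 h1
      obtain ⟨p, hpm, hmax⟩ : ∃ p, p ∈ m.primeFactors ∧ ∀ q ∈ m.primeFactors, q ≤ p :=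
        ⟨m.primeFactors.max' hne, max'_mem _ _, fun q hq => le_max' _ _ hq⟩
      have hp : p.Prime := Nat.prime_of_mem_primeFactors hpm
      have hpd : p ∣ m := Nat.dvd_of_mem_primeFactors hpm
      have hmax' : ∀ q : ℕ, q.Prime → q ∣ m → q ≤ p := fun q hq hqm =>
        hmax q (Nat.mem_primeFactors.2 ⟨hq, hqm, by omega⟩)
      obtain ⟨a, m', hpm', hmm⟩ := Nat.exists_eq_pow_mul_and_not_dvd (by omega : m ≠ 0) p
        hp.ne_one
      have ha : 0 < a := by
        rcases Nat.eq_zero_or_pos a with h | h
        · exfalso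
          rw [h, pow_zero, one_mul] at hmm
          exact hpm' (hmm ▸ hpd)
        · exact h
      have hm'pos : 0 < m' := by
        rcases Nat.eq_zero_or_pos m' with h | h
        · rw [h, mul_zero] at hmm; omega
        · exact h
      have hpa : 1 < p ^ a := Nat.one_lt_pow (by omega) hp.one_lt
      have hm'lt : m' < m := by
        rw [hmm]
        exact (Nat.lt_mul_iff_one_lt_left hm'pos).2 hpa
      have hm'd : m' ∣ m := ⟨p ^ a, by rw [hmm]; ring⟩
      obtain ⟨σ', hσ'1, hσ'2⟩ := ih m' hm'lt hm'pos (n % m) (by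
        intro d r hd hr hrd hrmax
        have hdm : d ∣ m := dvd_trans hd hm'd
        rw [Nat.mod_mod_of_dvd n hdm]
        exact hadm d r hdm hr hrd hrmax) (Fin (n % m)) (Fintype.card_fin _)
      haveI : NeZero m := ⟨by omega⟩
      -- the permutation on the sum
      let τ : Equiv.Perm ((Fin (n / m) × ZMod m) ⊕ Fin (n % m)) :=
        Equiv.sumCongr (Equiv.prodCongr (Equiv.refl _) (Equiv.addRight 1)) σ'
      have hτl : ∀ (j : ℕ) (i : Fin (n / m)) (z : ZMod m),
          (τ ^ j) (Sum.inl (i, z)) = Sum.inl (i, z + j) := by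
        intro j
        induction j with
        | zero => intro i z; simp
        | succ j ihj =>
          intro i z
          rw [pow_succ', Equiv.Perm.mul_apply, ihj]
          change Sum.inl (i, z + (j : ZMod m) + 1) = _
          push_cast
          rw [add_assoc]
      have hτr : ∀ (j : ℕ) (y : Fin (n % m)), (τ ^ j) (Sum.inr y) = Sum.inr ((σ' ^ j) y) := by
        intro j
        induction j with
        | zero => intro y; simp
        | succ j ihj =>
          intro y
          rw [pow_succ', Equiv.Perm.mul_apply, ihj, pow_succ' σ' j, Equiv.Perm.mul_apply]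
          rfl
      have hcard : Fintype.card X = Fintype.card ((Fin (n / m) × ZMod m) ⊕ Fin (n % m)) := by
        rw [Fintype.card_sum, Fintype.card_prod, Fintype.card_fin, Fintype.card_fin, ZMod.card,
          hX]
        have := Nat.div_add_mod n m
        rw [Nat.mul_comm (n / m) m]; omega
      let e : X ≃ ((Fin (n / m) × ZMod m) ⊕ Fin (n % m)) := Fintype.equivOfCardEq hcard
      let σ : Equiv.Perm X := e.symm.permCongrHom τ
      have hσpow : ∀ (j : ℕ) (x : X), (σ ^ j) x = e.symm ((τ ^ j) (e x)) := by
        intro j x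
        have : σ ^ j = e.symm.permCongrHom (τ ^ j) := by rw [map_pow]
        rw [this]; rfl
      have hfix : ∀ j : ℕ, ¬ m ∣ j → Nat.card {x : X // (σ ^ j) x = x} =
          Nat.card {y : Fin (n % m) // (σ' ^ j) y = y} := by
        intro j hj
        have e1 : {x : X // (σ ^ j) x = x} ≃
            {w : (Fin (n / m) × ZMod m) ⊕ Fin (n % m) // (τ ^ j) w = w} := by
          refine Equiv.subtypeEquiv e (fun x => ?_)
          rw [hσpow, Equiv.symm_apply_eq]
        have hempty : IsEmpty {a : Fin (n / m) × ZMod m // (τ ^ j) (Sum.inl a) = Sum.inl a} := by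
          refine ⟨fun ⟨⟨i, z⟩, h⟩ => hj ?_⟩
          rw [hτl] at h
          have h2 := (Prod.mk.inj (Sum.inl.inj h)).2
          have h3 : (j : ZMod m) = 0 := by
            have h4 : z + (j : ZMod m) = z + 0 := by rw [add_zero]; exact h2
            exact add_left_cancel h4
          exact (ZMod.natCast_eq_zero_iff j m).1 h3
        rw [Nat.card_congr e1, Nat.card_congr Equiv.subtypeSum, Nat.card_sum,
          Nat.card_eq_zero.2 (Or.inl hempty), zero_add]
        apply Nat.card_congr
        refine Equiv.subtypeEquiv (Equiv.refl _) (fun y => ?_)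
        rw [hτr]
        exact Sum.inr_injective.eq_iff
      refine ⟨σ, ?_, ?_⟩
      · ext x
        rw [hσpow]
        have : (τ ^ m) (e x) = e x := by
          rcases hex : e x with ⟨i, z⟩ | y
          · rw [hτl, ZMod.natCast_self, add_zero]
          · rw [hτr]
            have : σ' ^ m = 1 := by
              obtain ⟨c, hc⟩ := hm'd
              have h9 : σ' ^ (m' * c) = 1 := by rw [pow_mul, hσ'1, one_pow]
              rwa [← hc] at h9
            rw [this]; rfl
        rw [this, Equiv.symm_apply_apply]; rfl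
      · intro q hq hqm
        have hnd : ¬ m ∣ m / q := by
          intro h
          have h2 := Nat.div_pos (Nat.le_of_dvd hm hqm) hq.pos
          have h3 := Nat.le_of_dvd h2 h
          have h4 := Nat.div_lt_self hm hq.one_lt
          omega
        rw [hfix _ hnd]
        by_cases hqp : q = p
        · -- everything in the rest is fixed
          subst hqp
          have hmq : m / q = m' * q ^ (a - 1) := by
            rw [hmm, show q ^ a = q * q ^ (a - 1) by
              rw [← pow_succ']; congr 1; omega, mul_assoc, Nat.mul_div_cancel_left _ hq.pos,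
              mul_comm]
          have hall : ∀ y, (σ' ^ (m / q)) y = y := by
            intro y
            rw [hmq, pow_mul, hσ'1, one_pow]; rfl
          have : Nat.card {y : Fin (n % m) // (σ' ^ (m / q)) y = y} = n % m := by
            rw [Nat.card_congr (Equiv.subtypeUnivEquiv hall), Nat.card_eq_fintype_card,
              Fintype.card_fin]
          rw [this]
          have hlt := hadm m q dvd_rfl hq hqm hmax'
          have h5 := Nat.mod_mod_of_dvd n hqm
          rw [Nat.mod_eq_of_lt (by omega)] at h5
          exact h5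
        · have hqm' : q ∣ m' := by
            rw [hmm] at hqm
            rcases hq.dvd_mul.1 hqm with h | h
            · exact absurd ((Nat.prime_dvd_prime_iff_eq hq hp).1 (hq.dvd_of_dvd_pow h)) hqp
            · exact h
          have hmq : m / q = p ^ a * (m' / q) := by
            rw [hmm, Nat.mul_div_assoc _ hqm']
          have h6 : ∀ y, (σ' ^ (m / q)) y = y ↔ (σ' ^ (m' / q)) y = y := by
            intro y
            rw [per_iff', per_iff', hmq]
            have hper : Function.minimalPeriod σ' y ∣ m' := by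
              rw [← per_iff', hσ'1]; rfl
            have hcop : Nat.Coprime (Function.minimalPeriod σ' y) (p ^ a) := by
              apply Nat.Coprime.pow_right
              rw [Nat.coprime_comm, Nat.Prime.coprime_iff_not_dvd hp]
              exact fun h => hpm' (dvd_trans h hper)
            exact hcop.dvd_mul_left
          rw [Nat.card_congr (Equiv.subtypeEquivRight h6), hσ'2 q hq hqm',
            Nat.mod_mod_of_dvd n hqm]
    · have : m = 1 := by omega
      subst this
      refine ⟨1, by simp, fun q hq hq1 => ?_⟩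
      exact absurd (Nat.dvd_one.1 hq1) hq.ne_one

variable {X : Type} [Fintype X] [DecidableEq X]

/-- the converse: an admissible `m` is the order of a permutation of `2k+1` points no power `≠ 1` of
which preserves a `k`-subset -/
theorem converse {k m : ℕ} (hX : Fintype.card X = 2 * k + 1) (hm : 0 < m)
    (hadm : Admissible k m) :
    ∃ σ : Equiv.Perm X, orderOf σ = m ∧
      ∀ j, σ ^ j ≠ 1 → ∀ I : Finset X, I.card = k → ¬ ∀ x, (σ ^ j) x ∈ I ↔ x ∈ I := by
  obtain ⟨σ, h1, h2⟩ := exists_constr m hm (2 * k + 1)
    (fun d p hd hp hpd hmax => (hadm d p hd hp hpd hmax).2) X hX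
  have hadmq : ∀ q : ℕ, q.Prime → q ∣ m →
      Even ((2 * k + 1) % q) ∧ (2 * k + 1) % q + 3 ≤ q := by
    intro q hq hqm
    exact hadm q q hqm hq dvd_rfl (fun r hr hrq => Nat.le_of_dvd hq.pos hrq)
  have hcardq : ∀ q : ℕ, q.Prime → q ∣ m →
      (univ.filter (fun x => (σ ^ (m / q)) x = x)).card = (2 * k + 1) % q := by
    intro q hq hqm
    rw [← h2 q hq hqm, Nat.card_eq_fintype_card, Fintype.card_subtype]
  refine ⟨σ, ?_, ?_⟩
  · refine orderOf_eq_of_pow_and_pow_div_prime hm h1 ?_
    intro q hq hqm hone
    have h3 := hcardq q hq hqm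
    rw [hone] at h3
    have h4 : (univ.filter (fun x : X => (1 : Equiv.Perm X) x = x)).card = 2 * k + 1 := by
      rw [← hX, ← card_univ]
      congr 1
      ext x; simp
    rw [h4] at h3
    have h5 := (hadmq q hq hqm).1
    rw [← h3] at h5
    obtain ⟨g, hg⟩ := h5
    omega
  · intro j hj I hI hinv
    have hmj : ¬ m ∣ j := by
      rintro ⟨t, rfl⟩
      apply hj; rw [pow_mul, h1, one_pow]
    -- a prime q with gcd(j,m) ∣ m / q
    have hgm : Nat.gcd j m ∣ m := Nat.gcd_dvd_right j m
    obtain ⟨u, hu⟩ := hgm
    have hu1 : u ≠ 1 := by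
      rintro rfl
      apply hmj
      rw [mul_one] at hu
      rw [hu]; exact Nat.gcd_dvd_left j m
    obtain ⟨q, hq, hqu⟩ := Nat.exists_prime_and_dvd hu1
    obtain ⟨v, hv⟩ := hqu
    have hqm : q ∣ m := ⟨Nat.gcd j m * v, by
      calc m = Nat.gcd j m * u := hu
        _ = q * (Nat.gcd j m * v) := by rw [hv]; ring⟩
    have hmq : m / q = Nat.gcd j m * v := by
      apply Nat.div_eq_of_eq_mul_right hq.pos
      calc m = Nat.gcd j m * u := hu
        _ = q * (Nat.gcd j m * v) := by rw [hv]; ring
    -- σ^(m/q) is a power of σ^j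
    have hpow : ∀ (t : ℕ) (x : X), ((σ ^ j) ^ t) x ∈ I ↔ x ∈ I := by
      intro t
      induction t with
      | zero => intro x; simp
      | succ t ih => intro x; rw [pow_succ, Equiv.Perm.mul_apply, ih, hinv]
    have hexp : ∃ t : ℕ, (σ ^ j) ^ t = σ ^ (m / q) := by
      have hmem : σ ^ (m / q) ∈ Submonoid.powers (σ ^ j) := by
        rw [hmq, pow_mul]
        have h3 : σ ^ Nat.gcd j m ∈ Subgroup.zpowers (σ ^ j) := by
          have h4 : (σ ^ (Nat.gcd j m) : Equiv.Perm X) =
              (σ ^ j) ^ (Nat.gcdA j m) * (σ ^ m) ^ (Nat.gcdB j m) := by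
            rw [← zpow_natCast σ (Nat.gcd j m), Nat.gcd_eq_gcd_ab, zpow_add, zpow_mul, zpow_mul,
              zpow_natCast, zpow_natCast]
          rw [h4, h1, one_zpow, mul_one]
          exact Subgroup.zpow_mem_zpowers _ _
        have h5 : σ ^ Nat.gcd j m ∈ Submonoid.powers (σ ^ j) := by
          rw [mem_powers_iff_mem_zpowers]; exact h3
        exact Submonoid.pow_mem _ h5 v
      obtain ⟨t, ht⟩ := (Submonoid.mem_powers_iff _ _).1 hmem
      exact ⟨t, ht⟩
    obtain ⟨t, ht⟩ := hexp
    have hτ : ∀ x, (σ ^ (m / q)) x ∈ I ↔ x ∈ I := by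
      intro x; rw [← ht]; exact hpow t x
    have hτq : (σ ^ (m / q)) ^ q = 1 := by
      rw [← pow_mul, Nat.div_mul_cancel hqm, h1]
    -- the moved part of I
    have hmoved : q ∣ (I.filter (fun x => (σ ^ (m / q)) x ≠ x)).card := by
      refine dvd_card (σ ^ (m / q)) q _ _ rfl ?_ ?_
      · intro y
        rw [mem_filter, mem_filter, hτ]
        have : (σ ^ (m / q)) ((σ ^ (m / q)) y) = (σ ^ (m / q)) y ↔ (σ ^ (m / q)) y = y :=
          (σ ^ (m / q)).injective.eq_iff
        exact and_congr Iff.rfl (not_congr this)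
      · intro x hx
        have hxm := (mem_filter.1 hx).2
        have h3 : Function.minimalPeriod (σ ^ (m / q)) x ∣ q := by
          rw [← per_iff', hτq]; rfl
        rcases (Nat.dvd_prime hq).1 h3 with h4 | h4
        · exfalso
          apply hxm
          have := (per_iff' (σ ^ (m / q)) x 1).2 (by rw [h4])
          rwa [pow_one] at this
        · rw [h4]
    have hsplit : (I.filter (fun x => (σ ^ (m / q)) x = x)).card +
        (I.filter (fun x => (σ ^ (m / q)) x ≠ x)).card = k := by
      rw [← hI, card_filter_add_card_filter_not]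
    have hle : (I.filter (fun x => (σ ^ (m / q)) x = x)).card ≤ (2 * k + 1) % q := by
      rw [← hcardq q hq hqm]
      exact card_le_card (filter_subset_filter _ (subset_univ _))
    obtain ⟨hev, h3⟩ := hadmq q hq hqm
    set b := (I.filter (fun x => (σ ^ (m / q)) x = x)).card
    obtain ⟨w, hw⟩ := hmoved
    obtain ⟨g, hg⟩ := hev
    have hdm := Nat.div_add_mod (2 * k + 1) q
    rw [hw] at hsplit
    -- 2 b + 1 + 2 q w = q * c + f
    set c := (2 * k + 1) / q
    set f := (2 * k + 1) % q
    have h4 : 2 * b + 1 + q * (2 * w) = q * c + f := by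
      rw [hdm, ← hsplit]; ring
    rcases Nat.lt_trichotomy (2 * w) c with h5 | h5 | h5
    · have h6 : q * (2 * w + 1) ≤ q * c := Nat.mul_le_mul_left q h5
      have h7 : q * (2 * w + 1) = q * (2 * w) + q := by ring
      omega
    · rw [h5] at h4; omega
    · have h6 : q * (c + 1) ≤ q * (2 * w) := Nat.mul_le_mul_left q h5
      have h7 : q * (c + 1) = q * c + q := by ring
      omega

end Pool.Agent.Work.MP_8f87b2_h24.Sym
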