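import Pool.Agent.Work.MP_8f87b2_co.Order

/-!
# Orders of permutations of `2k+1` points whose powers `≠ 1` preserve no `k`-subset (helper24)
-/

namespace Pool.Agent.Work.MP_8f87b2_h24.Sym

open Finset Pool.Agent.Work.MP_8f87b2_co

/-- For every divisor `d > 1` of `m` with largest prime factor `p` the remainder of `2k+1` modulo `d`
is even and at most `p - 3`. -/
def Admissible (k m : ℕ) : Prop :=
  ∀ d p : ℕ, d ∣ m → p.Prime → p ∣ d → (∀ q : ℕ, q.Prime → q ∣ d → q ≤ p) →
    Even ((2 * k + 1) % d) ∧ (2 * k + 1) % d + 3 ≤ p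

variable {X : Type*} [Fintype X] [DecidableEq X]

/-- the orbit of `x` -/
noncomputable def orb (σ : Equiv.Perm X) (x : X) : Finset X :=
  (range (Function.minimalPeriod σ x)).image (fun j => (σ ^ j) x)

theorem per_pos (σ : Equiv.Perm X) (x : X) : 0 < Function.minimalPeriod σ x := by
  apply Function.minimalPeriod_pos_of_mem_periodicPts
  exact Function.mem_periodicPts.2 ⟨orderOf σ, orderOf_pos σ, by
    change (σ^[orderOf σ]) x = x
    rw [Equiv.Perm.iterate_eq_pow, pow_orderOf_eq_one]; rfl⟩

theorem per_iff (σ : Equiv.Perm X) (x : X) (j : ℕ) :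
    (σ ^ j) x = x ↔ Function.minimalPeriod σ x ∣ j := by
  rw [← Equiv.Perm.iterate_eq_pow]
  exact Function.isPeriodicPt_iff_minimalPeriod_dvd

theorem orb_card (σ : Equiv.Perm X) (x : X) :
    (orb σ x).card = Function.minimalPeriod σ x := by
  unfold orb
  rw [card_image_of_injOn, card_range]
  intro i hi j hj hij
  rw [coe_range, Set.mem_Iio] at hi hj
  have h := (Function.iterate_injOn_Iio_minimalPeriod (f := σ) (x := x))
  apply h hi hj
  change (σ^[i]) x = (σ^[j]) x
  rw [Equiv.Perm.iterate_eq_pow, Equiv.Perm.iterate_eq_pow]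
  exact hij

theorem mem_orb_pow (σ : Equiv.Perm X) (x : X) (j : ℕ) : (σ ^ j) x ∈ orb σ x := by
  unfold orb
  rw [mem_image]
  refine ⟨j % Function.minimalPeriod σ x, mem_range.2 (Nat.mod_lt _ (per_pos σ x)), ?_⟩
  rw [← Equiv.Perm.iterate_eq_pow, ← Equiv.Perm.iterate_eq_pow]
  exact Function.iterate_mod_minimalPeriod_eq

theorem orb_inv (σ : Equiv.Perm X) (x y : X) : σ y ∈ orb σ x ↔ y ∈ orb σ x := by
  constructor
  · intro h
    obtain ⟨j, -, hj⟩ := mem_image.1 h
    have hc := per_pos σ x
    have h1 : σ ((σ ^ (j + (Function.minimalPeriod σ x - 1))) x) = σ y := by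
      rw [← Equiv.Perm.mul_apply, ← pow_succ',
        show j + (Function.minimalPeriod σ x - 1) + 1 = j + Function.minimalPeriod σ x by omega,
        pow_add, Equiv.Perm.mul_apply, (per_iff σ x _).2 dvd_rfl, ← hj]
    rw [← σ.injective h1]
    exact mem_orb_pow σ x _
  · intro h
    obtain ⟨j, -, rfl⟩ := mem_image.1 h
    rw [← Equiv.Perm.mul_apply, ← pow_succ']
    exact mem_orb_pow σ x _

theorem orb_sub (σ : Equiv.Perm X) (x : X) (S : Finset X) (hS : ∀ y, σ y ∈ S ↔ y ∈ S)
    (hx : x ∈ S) : orb σ x ⊆ S := by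
  have hpow : ∀ j : ℕ, (σ ^ j) x ∈ S := by
    intro j
    induction j with
    | zero => simpa using hx
    | succ j ih => rw [pow_succ', Equiv.Perm.mul_apply, hS]; exact ih
  intro y hy
  obtain ⟨j, -, rfl⟩ := mem_image.1 hy
  exact hpow j

theorem self_mem_orb (σ : Equiv.Perm X) (x : X) : x ∈ orb σ x := by
  simpa using mem_orb_pow σ x 0

theorem dvd_card (σ : Equiv.Perm X) (d : ℕ) : ∀ (n : ℕ) (S : Finset X), S.card = n →
    (∀ y, σ y ∈ S ↔ y ∈ S) → (∀ x ∈ S, d ∣ Function.minimalPeriod σ x) → d ∣ S.card := by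
  intro n
  induction n using Nat.strong_induction_on with
  | _ n ih =>
    intro S hn hS hd
    rcases S.eq_empty_or_nonempty with h0 | ⟨x, hx⟩
    · rw [h0, card_empty]; exact dvd_zero d
    · have hsub := orb_sub σ x S hS hx
      have hc := card_sdiff_add_card_eq_card hsub
      have hpos : 0 < (orb σ x).card := card_pos.2 ⟨x, self_mem_orb σ x⟩
      have h1 : d ∣ (S \ orb σ x).card := by
        refine ih (S \ orb σ x).card (by omega) (S \ orb σ x) rfl ?_ ?_
        · intro y
          rw [mem_sdiff, mem_sdiff, hS, orb_inv]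
        · intro y hy
          exact hd y (mem_sdiff.1 hy).1
      rw [← hc, orb_card]
      exact dvd_add h1 (hd x hx)

/-- the core: the order is admissible -/
theorem admissible (σ : Equiv.Perm X) {k m : ℕ} (hX : Fintype.card X = 2 * k + 1)
    (hm : orderOf σ = m)
    (hno : ∀ j, σ ^ j ≠ 1 → ∀ I : Finset X, I.card = k → ¬ ∀ x, (σ ^ j) x ∈ I ↔ x ∈ I) :
    Admissible k m := by
  intro d p hdm hp hpd hmax
  have hmpos : 0 < m := hm ▸ orderOf_pos σ
  have hquot : ∀ q, q.Prime → q ∣ m → σ ^ (m / q) ≠ 1 := by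
    intro q hq hqm h
    have h1 := orderOf_dvd_of_pow_eq_one h
    rw [hm] at h1
    have h2 := Nat.div_pos (Nat.le_of_dvd hmpos hqm) hq.pos
    have h3 := Nat.le_of_dvd h2 h1
    have h4 := Nat.div_lt_self hmpos hq.one_lt
    omega
  have hmp : ∀ q, q.Prime → q ∣ m → (σ ^ (m / q)) ^ q = 1 := by
    intro q _ hqm
    rw [← pow_mul, Nat.div_mul_cancel hqm, ← hm, pow_orderOf_eq_one]
  have hpm : p ∣ m := dvd_trans hpd hdm
  have hdpos : 0 < d := Nat.pos_of_dvd_of_pos hdm hmpos
  set f := (univ.filter (fun x => (σ ^ (m / p)) x = x)).card with hf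
  set M := (univ.filter (fun x => (σ ^ (m / p)) x ≠ x)) with hM
  have hfM : f + M.card = 2 * k + 1 := by
    rw [hf, hM, ← hX, ← card_univ, card_filter_add_card_filter_not]
  have hf2 : f + 2 ≤ p := card_fixed_add_two_le (σ ^ (m / p)) hX hp (hmp p hp hpm)
      (hno _ (hquot p hp hpm))
  have hcdvd : ∀ x, Function.minimalPeriod σ x ∣ m := by
    intro x
    rw [← per_iff, ← hm, pow_orderOf_eq_one]; rfl
  have hMinv : ∀ y, σ y ∈ M ↔ y ∈ M := by
    intro y
    rw [hM, mem_filter, mem_filter]
    have : (σ ^ (m / p)) (σ y) = σ ((σ ^ (m / p)) y) := by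
      rw [← Equiv.Perm.mul_apply, ← Equiv.Perm.mul_apply, ← pow_succ, pow_succ']
    rw [this]
    simp
  have hdM : d ∣ M.card := by
    refine dvd_card σ d M.card M rfl hMinv ?_
    intro x hx
    have hxM : ¬ Function.minimalPeriod σ x ∣ m / p := by
      rw [← per_iff]; exact (mem_filter.1 hx).2
    obtain ⟨e, he⟩ := hcdvd x
    have hpc : p ∣ Function.minimalPeriod σ x := by
      rw [he] at hpm
      rcases hp.dvd_mul.1 hpm with h | ⟨e', he'⟩
      · exact h
      · exfalso
        apply hxM
        refine ⟨e', ?_⟩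
        rw [he, he', show Function.minimalPeriod σ x * (p * e') =
          p * (Function.minimalPeriod σ x * e') by ring, Nat.mul_div_cancel_left _ hp.pos]
    have hpc' : p ≤ Function.minimalPeriod σ x := Nat.le_of_dvd (per_pos σ x) hpc
    rw [Nat.dvd_iff_prime_pow_dvd_dvd]
    intro q a hq hqa
    rcases Nat.eq_zero_or_pos a with h0 | h0
    · rw [h0, pow_zero]; exact one_dvd _
    by_contra hnot
    have hqd : q ∣ d := dvd_trans (dvd_pow_self q (by omega)) hqa
    have hqp : q ≤ p := hmax q hq hqd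
    have hqm : q ∣ m := dvd_trans hqd hdm
    have hcq : Function.minimalPeriod σ x ∣ m / q := by
      rcases (Nat.coprime_or_dvd_of_prime hq e) with h | ⟨e', he'⟩
      · exfalso
        apply hnot
        have h1 : q ^ a ∣ Function.minimalPeriod σ x * e := by
          rw [← he]; exact dvd_trans hqa hdm
        exact Nat.Coprime.dvd_of_dvd_mul_right (Nat.Coprime.pow_left a h) h1
      · refine ⟨e', ?_⟩
        rw [he, he', show Function.minimalPeriod σ x * (q * e') =
          q * (Function.minimalPeriod σ x * e') by ring, Nat.mul_div_cancel_left _ hq.pos]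
    rcases Nat.lt_or_ge q p with hlt | hge
    · have h2 : (orb σ x).card ≤ (univ.filter (fun y => (σ ^ (m / q)) y = y)).card := by
        apply card_le_card
        intro y hy
        obtain ⟨j, -, rfl⟩ := mem_image.1 hy
        rw [mem_filter]
        refine ⟨mem_univ _, ?_⟩
        rw [← Equiv.Perm.mul_apply, ← pow_add, add_comm, pow_add, Equiv.Perm.mul_apply,
          (per_iff σ x _).2 hcq]
      rw [orb_card] at h2
      have h3 := card_fixed_add_two_le (σ ^ (m / q)) hX hq (hmp q hq hqm)
        (hno _ (hquot q hq hqm))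
      omega
    · have : q = p := le_antisymm hqp hge
      rw [this] at hcq
      exact hxM hcq
  have hpled : p ≤ d := Nat.le_of_dvd hdpos hpd
  have hmod : (2 * k + 1) % d = f := by
    obtain ⟨t, ht⟩ := hdM
    rw [← hfM, ht, Nat.add_mul_mod_self_left, Nat.mod_eq_of_lt (by omega)]
  have hpM : p ∣ M.card := dvd_trans hpd hdM
  have hp2 : p ≠ 2 := by
    rintro rfl
    obtain ⟨t, ht⟩ := hpM
    omega
  have hpodd : p % 2 = 1 := (hp.eq_two_or_odd).resolve_left hp2
  have hfe : Even f := by
    by_contra hodd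
    rw [Nat.not_even_iff_odd] at hodd
    obtain ⟨g, hg⟩ := hodd
    obtain ⟨t, ht⟩ := hpM
    have hteven : Even t := by
      have h1 : Even (p * t) := by
        rw [← ht]; exact ⟨k - g, by omega⟩
      rcases Nat.even_mul.1 h1 with h | h
      · exfalso
        rw [Nat.even_iff] at h; omega
      · exact h
    obtain ⟨e, he⟩ := hteven
    have hep : e * p + e * p = M.card := by rw [ht, he]; ring
    obtain ⟨I, hI, hinv, hc⟩ := exists_invariant (σ ^ (m / p)) hp (hmp p hp hpm) e (by
      change e * p ≤ M.card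
      omega)
    obtain ⟨F, hF, hFc⟩ := exists_subset_card_eq
      (s := univ.filter (fun x => (σ ^ (m / p)) x = x)) (n := g) (by
        change g ≤ f
        omega)
    apply hno _ (hquot p hp hpm) (I ∪ F)
    · rw [card_union_of_disjoint, hc, hFc]
      · omega
      · rw [disjoint_left]
        intro x hxI hxF
        exact (mem_filter.1 (hI hxI)).2 (mem_filter.1 (hF hxF)).2
    · intro x
      rw [mem_union, mem_union, hinv]
      have : (σ ^ (m / p)) x ∈ F ↔ x ∈ F := by
        constructor
        · intro h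
          have h1 := (mem_filter.1 (hF h)).2
          have h2 := (σ ^ (m / p)).injective h1
          rwa [h2] at h
        · intro h
          have h1 := (mem_filter.1 (hF h)).2
          rwa [h1]
      rw [this]
  rw [hmod]
  refine ⟨hfe, ?_⟩
  obtain ⟨g, hg⟩ := hfe
  omega

end Pool.Agent.Work.MP_8f87b2_h24.Sym
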