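import Pool.Agent.Work.MP_8f87b2_co.Upper
import Pool.Agent.Work.MP_8f87b2_co.Perm

/-!
# No reflections: an automorphism of order two preserving a Hamilton cycle of `O_k` does not exist
-/

namespace Pool.Agent.Work.MP_8f87b2_h24.Sym

open Finset Pool.Agent.Work.MP_8f87b2_co

section inv

variable {X : Type*} [Fintype X] [DecidableEq X]

/-- an invariant set has invariant subsets of every even size -/
theorem inv_even (σ : Equiv.Perm X) (h2 : ∀ x, σ (σ x) = x) (Y : Finset X)
    (hY : ∀ x, σ x ∈ Y ↔ x ∈ Y) : ∀ s : ℕ, 2 * s ≤ Y.card →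
    ∃ R : Finset X, R ⊆ Y ∧ (∀ x, σ x ∈ R ↔ x ∈ R) ∧ R.card = 2 * s := by
  intro s
  induction s with
  | zero => intro _; exact ⟨∅, empty_subset _, fun x => by simp, by simp⟩
  | succ s ih =>
    intro hs
    obtain ⟨R, hR, hinv, hc⟩ := ih (by omega)
    have hcard := card_sdiff_add_card_eq_card hR
    have hge : 2 ≤ (Y \ R).card := by omega
    by_cases hmv : ∃ x ∈ Y \ R, σ x ≠ x
    · obtain ⟨x, hx, hne⟩ := hmv
      rw [mem_sdiff] at hx
      have hσx : σ x ∉ R := fun h => hx.2 ((hinv x).1 h)
      refine ⟨insert x (insert (σ x) R), ?_, ?_, ?_⟩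
      · intro y hy
        rw [mem_insert, mem_insert] at hy
        rcases hy with rfl | rfl | hy
        · exact hx.1
        · exact (hY x).2 hx.1
        · exact hR hy
      · intro y
        rw [mem_insert, mem_insert, mem_insert, mem_insert, hinv]
        have e1 : σ y = x ↔ y = σ x :=
          ⟨fun h => by rw [← h, h2], fun h => by rw [h, h2]⟩
        have e2 : σ y = σ x ↔ y = x := σ.injective.eq_iff
        rw [e1, e2]
        tauto
      · rw [card_insert_of_notMem, card_insert_of_notMem hσx, hc]
        · omega
        · rw [mem_insert, not_or]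
          exact ⟨fun h => hne h.symm, hx.2⟩
    · push Not at hmv
      obtain ⟨P, hP, hPc⟩ := exists_subset_card_eq hge
      have hfix : ∀ y, σ y ∈ P ↔ y ∈ P := by
        intro y
        constructor
        · intro h
          have h1 := hmv _ (hP h)
          rw [h2] at h1
          rw [h1]; exact h
        · intro h
          rw [hmv _ (hP h)]; exact h
      have hdis : Disjoint R P := by
        rw [disjoint_left]
        intro y hy hyP
        exact (mem_sdiff.1 (hP hyP)).2 hy
      refine ⟨R ∪ P, ?_, ?_, ?_⟩
      · exact union_subset hR (fun y hy => (mem_sdiff.1 (hP hy)).1)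
      · intro y; rw [mem_union, mem_union, hinv, hfix]
      · rw [card_union_of_disjoint hdis, hc, hPc]; ring

/-- three different invariant sets of size `k`, from three different invariant sets `E i` of the same
size inside an invariant set `U` -/
theorem three_of (σ : Equiv.Perm X) (h2 : ∀ x, σ (σ x) = x) (k e : ℕ) (U : Finset X)
    (hU : ∀ x, σ x ∈ U ↔ x ∈ U) (E : Fin 3 → Finset X) (hE : ∀ i, E i ⊆ U)
    (hEi : ∀ i x, σ x ∈ E i ↔ x ∈ E i) (hEc : ∀ i, (E i).card = e) (hinj : Function.Injective E)
    (s : ℕ) (hs : e + 2 * s = k) (hc : 2 * s ≤ Uᶜ.card) :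
    ∃ J : Fin 3 → Finset X, Function.Injective J ∧ (∀ i, (J i).card = k) ∧
      ∀ i x, σ x ∈ J i ↔ x ∈ J i := by
  obtain ⟨R, hR, hinv, hRc⟩ := inv_even σ h2 Uᶜ (by
    intro x; rw [mem_compl, mem_compl, hU]) s hc
  have hdis : ∀ i, Disjoint (E i) R := by
    intro i
    rw [disjoint_left]
    intro x hx hxR
    exact (mem_compl.1 (hR hxR)) (hE i hx)
  refine ⟨fun i => E i ∪ R, ?_, ?_, ?_⟩
  · intro i j hij
    apply hinj
    have h1 : (E i ∪ R) \ R = (E j ∪ R) \ R := by
      have : E i ∪ R = E j ∪ R := hij
      rw [this]
    rwa [union_sdiff_cancel_right (hdis i), union_sdiff_cancel_right (hdis j)] at h1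
  · intro i
    rw [card_union_of_disjoint (hdis i), hEc, hRc, hs]
  · intro i x
    rw [mem_union, mem_union, hinv, hEi]

theorem card_three {α : Type*} [DecidableEq α] {a b c : α} (h1 : a ≠ b) (h2 : a ≠ c)
    (h3 : b ≠ c) : ({a, b, c} : Finset α).card = 3 := by
  rw [card_insert_of_notMem, card_pair h3]
  rw [mem_insert, mem_singleton, not_or]; exact ⟨h1, h2⟩

theorem inj3 {α : Type*} (P : Fin 3 → α) (h1 : P 0 ≠ P 1) (h2 : P 0 ≠ P 2) (h3 : P 1 ≠ P 2) :
    Function.Injective P := by
  intro i j hij
  fin_cases i <;> fin_cases j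
  · rfl
  · exact absurd hij h1
  · exact absurd hij h2
  · exact absurd hij.symm h1
  · rfl
  · exact absurd hij h3
  · exact absurd hij.symm h2
  · exact absurd hij.symm h3
  · rfl

/-- an involution of `2k+1 ≥ 7` points, not the identity, has three invariant `k`-subsets -/
theorem three_inv (σ : Equiv.Perm X) (h2 : ∀ x, σ (σ x) = x) (hne : σ ≠ 1) {k : ℕ}
    (hX : Fintype.card X = 2 * k + 1) (hk : 3 ≤ k) :
    ∃ J : Fin 3 → Finset X, Function.Injective J ∧ (∀ i, (J i).card = k) ∧
      ∀ i x, σ x ∈ J i ↔ x ∈ J i := by
  have hσ2 : σ ^ 2 = 1 := by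
    ext x; rw [pow_two, Equiv.Perm.mul_apply, h2]; rfl
  have hdvd : 2 ∣ σ.support.card := Equiv.Perm.two_dvd_card_support hσ2
  have hsupp : ∀ x, x ∈ σ.support ↔ σ x ≠ x := fun x => Equiv.Perm.mem_support
  have hcc : σ.supportᶜ.card + σ.support.card = 2 * k + 1 := by
    rw [card_compl, hX]
    have := card_le_univ σ.support
    rw [hX] at this; omega
  obtain ⟨t, ht⟩ := hdvd
  rcases Nat.lt_or_ge σ.supportᶜ.card 3 with hlt | hge
  · -- one fixed point
    have hf1 : σ.supportᶜ.card = 1 := by omega
    obtain ⟨z, hz⟩ := card_eq_one.1 hf1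
    have hzfix : σ z = z := by
      have : z ∈ σ.supportᶜ := by rw [hz]; exact mem_singleton_self z
      rw [mem_compl, hsupp, not_not] at this; exact this
    have hmv : ∀ x, x ≠ z → σ x ≠ x := by
      intro x hx h
      apply hx
      have : x ∈ σ.supportᶜ := by rw [mem_compl, hsupp, not_not]; exact h
      rw [hz, mem_singleton] at this; exact this
    have hpairc : ∀ x, x ≠ z → ({x, σ x} : Finset X).card = 2 := by
      intro x hx; exact card_pair (fun h => hmv x hx h.symm)
    have hpinv : ∀ x y, σ y ∈ ({x, σ x} : Finset X) ↔ y ∈ ({x, σ x} : Finset X) := by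
      intro x y
      rw [mem_insert, mem_singleton, mem_insert, mem_singleton]
      have e1 : σ y = x ↔ y = σ x :=
        ⟨fun h => by rw [← h, h2], fun h => by rw [h, h2]⟩
      have e2 : σ y = σ x ↔ y = x := σ.injective.eq_iff
      rw [e1, e2]; tauto
    -- three pairs
    obtain ⟨x1, hx1⟩ : ∃ x, x ∉ ({z} : Finset X) := by
      by_contra h
      push Not at h
      have := card_le_card (fun y (_ : y ∈ (univ : Finset X)) => h y)
      rw [card_univ, hX, card_singleton] at this; omega
    have hx1z : x1 ≠ z := fun h => hx1 (by rw [h]; exact mem_singleton_self z)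
    obtain ⟨x2, hx2⟩ : ∃ x, x ∉ insert z ({x1, σ x1} : Finset X) := by
      by_contra h
      push Not at h
      have h1 := card_le_card (fun y (_ : y ∈ (univ : Finset X)) => h y)
      have h3 := card_insert_le z ({x1, σ x1} : Finset X)
      rw [card_univ, hX] at h1
      rw [hpairc x1 hx1z] at h3; omega
    rw [mem_insert, not_or] at hx2
    obtain ⟨hx2z, hx2p⟩ := hx2
    obtain ⟨x3, hx3⟩ : ∃ x, x ∉ insert z (({x1, σ x1} : Finset X) ∪ {x2, σ x2}) := by
      by_contra h
      push Not at h
      have h1 := card_le_card (fun y (_ : y ∈ (univ : Finset X)) => h y)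
      have h3 := card_insert_le z (({x1, σ x1} : Finset X) ∪ {x2, σ x2})
      have h4 := card_union_le ({x1, σ x1} : Finset X) {x2, σ x2}
      rw [card_univ, hX] at h1
      rw [hpairc x1 hx1z, hpairc x2 hx2z] at h4; omega
    rw [mem_insert, not_or, mem_union, not_or] at hx3
    obtain ⟨hx3z, hx3p, hx3q⟩ := hx3
    let P : Fin 3 → Finset X := ![{x1, σ x1}, {x2, σ x2}, {x3, σ x3}]
    have hP0 : P 0 = {x1, σ x1} := rfl
    have hP1 : P 1 = {x2, σ x2} := rfl
    have hP2 : P 2 = {x3, σ x3} := rfl
    have hPinv : ∀ i y, σ y ∈ P i ↔ y ∈ P i := by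
      intro i; fin_cases i
      · exact hpinv x1
      · exact hpinv x2
      · exact hpinv x3
    have hPc : ∀ i, (P i).card = 2 := by
      intro i; fin_cases i
      · exact hpairc x1 hx1z
      · exact hpairc x2 hx2z
      · exact hpairc x3 hx3z
    have m1 : x1 ∈ ({x1, σ x1} : Finset X) := mem_insert_self _ _
    have m2 : x2 ∈ ({x2, σ x2} : Finset X) := mem_insert_self _ _
    have m3 : x3 ∈ ({x3, σ x3} : Finset X) := mem_insert_self _ _
    have n12 : P 0 ≠ P 1 := by
      intro h; rw [hP0, hP1] at h; apply hx2p; rw [h]; exact m2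
    have n13 : P 0 ≠ P 2 := by
      intro h; rw [hP0, hP2] at h; apply hx3p; rw [h]; exact m3
    have n23 : P 1 ≠ P 2 := by
      intro h; rw [hP1, hP2] at h; apply hx3q; rw [h]; exact m3
    have hPinj : Function.Injective P := by
      exact inj3 P n12 n13 n23
    have hzP : ∀ i, z ∉ P i := by
      intro i hi
      have h1 : ∀ x, x ≠ z → z ∉ ({x, σ x} : Finset X) := by
        intro x hx h
        rw [mem_insert, mem_singleton] at h
        rcases h with h | h
        · exact hx h.symm
        · apply hx
          rw [← h2 x, ← h, hzfix]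
      fin_cases i
      · exact h1 x1 hx1z hi
      · exact h1 x2 hx2z hi
      · exact h1 x3 hx3z hi
    set U0 : Finset X := P 0 ∪ P 1 ∪ P 2 with hU0
    have hU0c : U0.card ≤ 6 := by
      have h3 := card_union_le (P 0 ∪ P 1) (P 2)
      have h4 := card_union_le (P 0) (P 1)
      rw [hPc] at h3 h4
      rw [hPc] at h4
      rw [hU0]
      omega
    have hPU : ∀ i, P i ⊆ U0 := by
      intro i; fin_cases i
      · intro y hy; rw [hU0, mem_union, mem_union]; exact Or.inl (Or.inl hy)
      · intro y hy; rw [hU0, mem_union, mem_union]; exact Or.inl (Or.inr hy)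
      · intro y hy; rw [hU0, mem_union, mem_union]; exact Or.inr hy
    have hU0inv : ∀ x, σ x ∈ U0 ↔ x ∈ U0 := by
      intro x
      rw [hU0, mem_union, mem_union, mem_union, mem_union, hPinv, hPinv, hPinv]
    rcases Nat.even_or_odd k with ⟨g, hg⟩ | ⟨g, hg⟩
    · refine three_of σ h2 k 2 U0 hU0inv P hPU hPinv hPc hPinj (g - 1) (by omega) ?_
      rw [card_compl, hX]; omega
    · have hUi : ∀ x, σ x ∈ insert z U0 ↔ x ∈ insert z U0 := by
        intro x
        rw [mem_insert, mem_insert, hU0inv]
        have e1 : σ x = z ↔ x = z := by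
          constructor
          · intro h; rw [← h2 x, h, hzfix]
          · intro h; rw [h, hzfix]
        rw [e1]
      refine three_of σ h2 k 3 (insert z U0) hUi (fun i => insert z (P i)) ?_ ?_ ?_ ?_ (g - 1)
        (by omega) ?_
      · intro i
        exact insert_subset_insert z (hPU i)
      · intro i x
        rw [mem_insert, mem_insert, hPinv]
        have e1 : σ x = z ↔ x = z := by
          constructor
          · intro h; rw [← h2 x, h, hzfix]
          · intro h; rw [h, hzfix]
        rw [e1]
      · intro i
        rw [card_insert_of_notMem (hzP i), hPc]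
      · intro i j hij
        apply hPinj
        have h5 : (insert z (P i)).erase z = (insert z (P j)).erase z := by
          have h6 : insert z (P i) = insert z (P j) := hij
          rw [h6]
        rwa [erase_insert (hzP i), erase_insert (hzP j)] at h5
      · have h7 := card_insert_le z U0
        rw [card_compl, hX]; omega
  · -- three fixed points
    obtain ⟨U, hU, hUc⟩ := exists_subset_card_eq hge
    obtain ⟨a, b, c, hab, hac, hbc, rfl⟩ := card_eq_three.1 hUc
    have hfix : ∀ y ∈ ({a, b, c} : Finset X), σ y = y := by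
      intro y hy
      have := hU hy
      rw [mem_compl, hsupp, not_not] at this; exact this
    have hinvS : ∀ S : Finset X, S ⊆ {a, b, c} → ∀ y, σ y ∈ S ↔ y ∈ S := by
      intro S hS y
      constructor
      · intro h
        have h1 := hfix _ (hS h)
        rw [h2] at h1
        rw [h1]; exact h
      · intro h
        rw [hfix _ (hS h)]; exact h
    have hUcc : ({a, b, c} : Finset X)ᶜ.card = 2 * k + 1 - 3 := by
      rw [card_compl, hX, hUc]
    rcases Nat.even_or_odd k with ⟨g, hg⟩ | ⟨g, hg⟩
    · refine three_of σ h2 k 2 {a, b, c} (hinvS _ (Subset.refl _))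
        ![{a, b}, {a, c}, {b, c}] ?_ ?_ ?_ ?_ (g - 1) (by omega) (by rw [hUcc]; omega)
      · intro i; fin_cases i
        · intro y hy; simp at hy ⊢; tauto
        · intro y hy; simp at hy ⊢; tauto
        · intro y hy; simp at hy ⊢; tauto
      · intro i; fin_cases i
        · exact hinvS {a, b} (by intro y hy; simp at hy ⊢; tauto)
        · exact hinvS {a, c} (by intro y hy; simp at hy ⊢; tauto)
        · exact hinvS {b, c} (by intro y hy; simp at hy ⊢; tauto)
      · intro i; fin_cases i
        · exact card_pair hab
        · exact card_pair hac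
        · exact card_pair hbc
      · have n12 : ({a, b} : Finset X) ≠ {a, c} := by
          intro h
          have : b ∈ ({a, c} : Finset X) := by rw [← h]; simp
          simp at this; rcases this with h | h
          · exact hab h.symm
          · exact hbc h
        have n13 : ({a, b} : Finset X) ≠ {b, c} := by
          intro h
          have : a ∈ ({b, c} : Finset X) := by rw [← h]; simp
          simp at this; rcases this with h | h
          · exact hab h
          · exact hac h
        have n23 : ({a, c} : Finset X) ≠ {b, c} := by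
          intro h
          have : a ∈ ({b, c} : Finset X) := by rw [← h]; simp
          simp at this; rcases this with h | h
          · exact hab h
          · exact hac h
        exact inj3 _ n12 n13 n23
    · refine three_of σ h2 k 1 {a, b, c} (hinvS _ (Subset.refl _))
        ![{a}, {b}, {c}] ?_ ?_ ?_ ?_ g (by omega) (by rw [hUcc]; omega)
      · intro i; fin_cases i
        · intro y hy; simp at hy ⊢; tauto
        · intro y hy; simp at hy ⊢; tauto
        · intro y hy; simp at hy ⊢; tauto
      · intro i; fin_cases i
        · exact hinvS {a} (by intro y hy; simp at hy ⊢; tauto)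
        · exact hinvS {b} (by intro y hy; simp at hy ⊢; tauto)
        · exact hinvS {c} (by intro y hy; simp at hy ⊢; tauto)
      · intro i; fin_cases i
        · exact card_singleton a
        · exact card_singleton b
        · exact card_singleton c
      · have n12 : ({a} : Finset X) ≠ {b} := fun h => hab (singleton_injective h)
        have n13 : ({a} : Finset X) ≠ {c} := fun h => hac (singleton_injective h)
        have n23 : ({b} : Finset X) ≠ {c} := fun h => hbc (singleton_injective h)
        exact inj3 _ n12 n13 n23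

end inv

end Pool.Agent.Work.MP_8f87b2_h24.Sym
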