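import Pool.Agent.Work.MP_8f87b2_h24.SymCore
import Pool.Agent.Work.MP_8f87b2_h24.SymRefl

/-!
# The group of all automorphisms preserving a Hamilton cycle of `O_k` (helper24)
-/

namespace Pool.Agent.Work.MP_8f87b2_h24.Sym

open Finset Pool.Agent.Work.MP_8f87b2_co

theorem two_sol {N : ℕ} (hN : 3 ≤ N) (a i j l : ZMod N) (hij : i ≠ j) (hil : i ≠ l)
    (hi : i = a - i) (hj : j = a - j) (hl : l = a - l) : j = l := by
  haveI : NeZero N := ⟨by omega⟩
  have key : ∀ u : ZMod N, u + u = 0 → u ≠ 0 → 2 * u.val = N := by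
    intro u h0 hne
    have h1 : ((2 * u.val : ℕ) : ZMod N) = 0 := by
      push_cast
      rw [ZMod.natCast_zmod_val, two_mul]; exact h0
    rw [ZMod.natCast_eq_zero_iff] at h1
    obtain ⟨t, ht⟩ := h1
    have h2 := ZMod.val_lt u
    have h3 : u.val ≠ 0 := fun h => hne ((ZMod.val_eq_zero u).1 h)
    rcases Nat.lt_or_ge t 2 with h4 | h4
    · interval_cases t
      · omega
      · omega
    · have := Nat.mul_le_mul_left N h4
      omega
  have ei : i + i = a := by
    calc i + i = i + (a - i) := by rw [← hi]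
      _ = a := by ring
  have ej : j + j = a := by
    calc j + j = j + (a - j) := by rw [← hj]
      _ = a := by ring
  have el : l + l = a := by
    calc l + l = l + (a - l) := by rw [← hl]
      _ = a := by ring
  have h1 := key (i - j) (by
    calc i - j + (i - j) = (i + i) - (j + j) := by ring
      _ = 0 := by rw [ei, ej, sub_self]) (sub_ne_zero.2 hij)
  have h2 := key (i - l) (by
    calc i - l + (i - l) = (i + i) - (l + l) := by ring
      _ = 0 := by rw [ei, el, sub_self]) (sub_ne_zero.2 hil)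
  have h3 : i - j = i - l := ZMod.val_injective N (by omega)
  exact sub_right_injective h3

theorem permHom_fix {k : ℕ} (σ : Equiv.Perm (ZMod (2 * k + 1))) (A : V k)
    (h : ∀ x, σ x ∈ A.1 ↔ x ∈ A.1) : permHom k σ A = A := by
  apply Subtype.ext
  ext x
  rw [mem_permHom]
  have h5 := h (σ.symm x)
  rw [Equiv.apply_symm_apply] at h5
  exact h5.symm

theorem inv_of_fix {k : ℕ} (σ : Equiv.Perm (ZMod (2 * k + 1))) (A : V k)
    (h : permHom k σ A = A) : ∀ x, σ x ∈ A.1 ↔ x ∈ A.1 := by
  intro x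
  have h1 : σ x ∈ (permHom k σ A).1 ↔ x ∈ A.1 := by
    rw [mem_permHom, Equiv.symm_apply_apply]
  rw [h] at h1; exact h1

/-- an involution in `Aut(O_k)` fixes three vertices -/
theorem three_fixed {k : ℕ} (hk : 3 ≤ k) (φ : oddGraph k ≃g oddGraph k) (h2 : φ ^ 2 = 1)
    (hne : φ ≠ 1) : ∃ J : Fin 3 → V k, Function.Injective J ∧ ∀ i, φ (J i) = J i := by
  classical
  obtain ⟨σ, hσ⟩ := exists_perm (by omega) φ
  have hσ2 : σ ^ 2 = 1 := by
    apply permHom_injective (by omega : 1 ≤ k)
    rw [map_one, map_pow, ← hσ, h2]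
  have hσne : σ ≠ 1 := by
    intro h; apply hne; rw [hσ, h, map_one]
  obtain ⟨J, hJ, hJc, hJi⟩ := three_inv σ (by
    intro x
    rw [← Equiv.Perm.mul_apply, ← pow_two, hσ2]; rfl) hσne (card_X k) hk
  refine ⟨fun i => ⟨J i, hJc i⟩, ?_, ?_⟩
  · intro i j hij
    exact hJ (congrArg Subtype.val hij)
  · intro i
    rw [hσ]
    exact permHom_fix σ ⟨J i, hJc i⟩ (hJi i)

/-- every automorphism which preserves a Hamilton cycle rotates it -/
theorem rot_of_preserves {k : ℕ} (hk : 3 ≤ k) (C : HamCycle (oddGraph k))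
    (φ : oddGraph k ≃g oddGraph k) (hφ : Preserves φ C) :
    ∃ a : ZMod C.N, ∀ i, φ (C.c i) = C.c (a + i) := by
  obtain ⟨a, h | h⟩ := exists_rot_or_refl C φ hφ
  · exact ⟨a, h⟩
  · by_cases h1 : φ = 1
    · refine ⟨0, fun i => ?_⟩
      rw [h1, zero_add]; rfl
    · exfalso
      have h2 : φ ^ 2 = 1 := by
        ext B
        obtain ⟨i', rfl⟩ := C.bij.2 B
        rw [pow_two, RelIso.coe_mul, Function.comp, h, h, sub_sub_cancel]
        rfl
      obtain ⟨J, hJ, hJf⟩ := three_fixed hk φ h2 h1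
      have hidx : ∀ t, ∃ i, C.c i = J t ∧ i = a - i := by
        intro t
        obtain ⟨i, hi⟩ := C.bij.2 (J t)
        refine ⟨i, hi, ?_⟩
        have h4 := hJf t
        rw [← hi, h] at h4
        exact (C.bij.1 h4).symm
      obtain ⟨i, hi, ei⟩ := hidx 0
      obtain ⟨j, hj, ej⟩ := hidx 1
      obtain ⟨l, hl, el⟩ := hidx 2
      have nij : i ≠ j := by
        rintro rfl
        have := hJ (hi.symm.trans hj)
        exact absurd this (by decide)
      have nil' : i ≠ l := by
        rintro rfl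
        have := hJ (hi.symm.trans hl)
        exact absurd this (by decide)
      have njl : j ≠ l := by
        rintro rfl
        have := hJ (hj.symm.trans hl)
        exact absurd this (by decide)
      exact njl (two_sol C.three_le a i j l nij nil' ei ej el)

theorem eq_one_of_fix {k : ℕ} (hk : 3 ≤ k) (C : HamCycle (oddGraph k))
    (φ : oddGraph k ≃g oddGraph k) (hφ : Preserves φ C) (A : V k) (hA : φ A = A) : φ = 1 := by
  obtain ⟨a, h⟩ := rot_of_preserves hk C φ hφ
  obtain ⟨i, rfl⟩ := C.bij.2 A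
  rw [h] at hA
  have h1 := C.bij.1 hA
  have h0 : a = 0 := by
    have h2 : a + i = 0 + i := by rw [h1, zero_add]
    exact add_right_cancel h2
  ext B
  obtain ⟨i', rfl⟩ := C.bij.2 B
  rw [h, h0, zero_add]; rfl

instance aut_finite (k : ℕ) : Finite (oddGraph k ≃g oddGraph k) := by
  have : Function.Injective (fun φ : oddGraph k ≃g oddGraph k => (φ : V k → V k)) := by
    intro φ ψ h
    ext B
    have := congrFun h B
    simp only at this
    rw [this]
  exact Finite.of_injective _ this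

/-- the rotation number -/
noncomputable def rotHom {k : ℕ} (hk : 3 ≤ k) (C : HamCycle (oddGraph k)) :
    stab C →* Multiplicative (ZMod C.N) where
  toFun φ := Multiplicative.ofAdd ((Equiv.ofBijective C.c C.bij).symm (φ.1 (C.c 0)))
  map_one' := by
    have : (Equiv.ofBijective C.c C.bij).symm ((1 : stab C).1 (C.c 0)) = 0 := by
      rw [Equiv.symm_apply_eq]; rfl
    rw [this]; rfl
  map_mul' := by
    intro φ ψ
    obtain ⟨a, ha⟩ := rot_of_preserves hk C φ.1 φ.2
    obtain ⟨b, hb⟩ := rot_of_preserves hk C ψ.1 ψ.2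
    have e1 : (Equiv.ofBijective C.c C.bij).symm (φ.1 (C.c 0)) = a := by
      rw [Equiv.symm_apply_eq, ha, add_zero]; rfl
    have e2 : (Equiv.ofBijective C.c C.bij).symm (ψ.1 (C.c 0)) = b := by
      rw [Equiv.symm_apply_eq, hb, add_zero]; rfl
    have e3 : (Equiv.ofBijective C.c C.bij).symm ((φ * ψ).1 (C.c 0)) = a + b := by
      rw [Equiv.symm_apply_eq]
      change φ.1 (ψ.1 (C.c 0)) = _
      rw [hb, ha, add_zero]; rfl
    rw [e1, e2, e3]; rfl

theorem rotHom_injective {k : ℕ} (hk : 3 ≤ k) (C : HamCycle (oddGraph k)) :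
    Function.Injective (rotHom hk C) := by
  rw [injective_iff_map_eq_one]
  intro φ h
  have h1 : (Equiv.ofBijective C.c C.bij).symm (φ.1 (C.c 0)) = 0 :=
    Multiplicative.ofAdd.injective h
  rw [Equiv.symm_apply_eq] at h1
  exact Subtype.ext (eq_one_of_fix hk C φ.1 φ.2 (C.c 0) h1)

theorem stab_cyclic {k : ℕ} (hk : 3 ≤ k) (C : HamCycle (oddGraph k)) : IsCyclic (stab C) :=
  isCyclic_of_injective (rotHom hk C) (rotHom_injective hk C)

theorem stab_odd {k : ℕ} (hk : 3 ≤ k) (C : HamCycle (oddGraph k)) : Odd (Nat.card (stab C)) := by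
  rw [← Nat.not_even_iff_odd]
  intro heven
  haveI : Fact (Nat.Prime 2) := ⟨Nat.prime_two⟩
  obtain ⟨φ, hφ⟩ := exists_prime_orderOf_dvd_card' (G := stab C) 2 heven.two_dvd
  have hord : orderOf φ.1 = 2 := by rw [Subgroup.orderOf_coe]; exact hφ
  have h2 : φ.1 ^ 2 = 1 := by rw [← hord]; exact pow_orderOf_eq_one _
  have hne : φ.1 ≠ 1 := by
    intro h; rw [h, orderOf_one] at hord; omega
  obtain ⟨J, -, hJ⟩ := three_fixed hk φ.1 h2 hne
  exact hne (eq_one_of_fix hk C φ.1 φ.2 (J 0) (hJ 0))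

theorem stab_admissible {k : ℕ} (hk : 3 ≤ k) (C : HamCycle (oddGraph k)) :
    Admissible k (Nat.card (stab C)) := by
  classical
  obtain ⟨g, hg⟩ := (stab_cyclic hk C).exists_generator
  have hord : orderOf g = Nat.card (stab C) := orderOf_eq_card_of_forall_mem_zpowers hg
  have hordφ : orderOf g.1 = Nat.card (stab C) := by rw [Subgroup.orderOf_coe, hord]
  obtain ⟨σ, hσ⟩ := exists_perm (by omega : 1 ≤ k) g.1
  have hordσ : orderOf σ = Nat.card (stab C) := by
    rw [← orderOf_injective (permHom k) (permHom_injective (by omega)) σ, ← hσ, hordφ]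
  refine admissible σ (card_X k) hordσ ?_
  intro j hj I hI hinv
  apply hj
  apply permHom_injective (by omega : 1 ≤ k)
  rw [map_one, map_pow, ← hσ]
  refine eq_one_of_fix hk C (g.1 ^ j) ((stab C).pow_mem g.2 j) ⟨I, hI⟩ ?_
  rw [hσ, ← map_pow]
  exact permHom_fix (σ ^ j) ⟨I, hI⟩ hinv

theorem Admissible.mono {k m m' : ℕ} (h : Admissible k m') (hd : m ∣ m') : Admissible k m :=
  fun d p hdm hp hpd hmax => h d p (dvd_trans hdm hd) hp hpd hmax

theorem mem_compression {k : ℕ} (hk : 3 ≤ k) {m : ℕ} (hm : m ∈ compressionSet (oddGraph k)) :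
    Odd m ∧ Admissible k m := by
  obtain ⟨C, H, hcyc, hcard, hpres⟩ := hm
  have hle : H ≤ stab C := fun φ hφ => hpres φ hφ
  have hd : m ∣ Nat.card (stab C) := by
    rw [← hcard]; exact Subgroup.card_dvd_of_le hle
  refine ⟨?_, (stab_admissible hk C).mono hd⟩
  obtain ⟨e, he⟩ := hd
  have := stab_odd hk C
  rw [he] at this
  exact (Nat.odd_mul.1 this).1

end Pool.Agent.Work.MP_8f87b2_h24.Sym
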