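import Pool.Agent.Work.MP_8f87b2_h24.SymGrp
import Pool.Agent.Work.MP_8f87b2_h24.SymConv

/-!
# A cyclic symmetry of order `2k+1` is conjugate to the rotation (helper24)
-/

namespace Pool.Agent.Work.MP_8f87b2_h24.Sym

open Finset Pool.Agent.Work.MP_8f87b2_co

/-- a point whose period is the order -/
theorem exists_period {X : Type*} [Fintype X] [DecidableEq X] (σ : Equiv.Perm X) {k m : ℕ}
    (hX : Fintype.card X = 2 * k + 1)
    (hm : orderOf σ = m) (hm1 : 1 < m)
    (hno : ∀ j, σ ^ j ≠ 1 → ∀ I : Finset X, I.card = k → ¬ ∀ x, (σ ^ j) x ∈ I ↔ x ∈ I) :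
    ∃ x, Function.minimalPeriod σ x = m := by
  have hne : m.primeFactors.Nonempty := Nat.nonempty_primeFactors.2 hm1
  set P := m.primeFactors.max' hne with hP
  have hPm : P ∈ m.primeFactors := max'_mem _ _
  have hPp : P.Prime := Nat.prime_of_mem_primeFactors hPm
  have hPd : P ∣ m := Nat.dvd_of_mem_primeFactors hPm
  have hmpos : 0 < m := by omega
  have hquot : ∀ p, p.Prime → p ∣ m → σ ^ (m / p) ≠ 1 := by
    intro p hp hpm h
    have h1 := orderOf_dvd_of_pow_eq_one h
    rw [hm] at h1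
    have h2 := Nat.div_pos (Nat.le_of_dvd hmpos hpm) hp.pos
    have h3 := Nat.le_of_dvd h2 h1
    have h4 := Nat.div_lt_self hmpos hp.one_lt
    omega
  have hmp : ∀ p, p.Prime → p ∣ m → (σ ^ (m / p)) ^ p = 1 := by
    intro p _ hpm
    rw [← pow_mul, Nat.div_mul_cancel hpm, ← hm, pow_orderOf_eq_one]
  obtain ⟨x, hx⟩ : ∃ x, (σ ^ (m / P)) x ≠ x := by
    by_contra h
    push Not at h
    exact hquot P hPp hPd (Equiv.ext h)
  refine ⟨x, ?_⟩
  have hcm : Function.minimalPeriod σ x ∣ m := by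
    rw [← per_iff, ← hm, pow_orderOf_eq_one]; rfl
  have hcpos := per_pos σ x
  by_contra hne'
  obtain ⟨d, hd⟩ := hcm
  have hd1 : d ≠ 1 := by
    rintro rfl; apply hne'; rw [hd, mul_one]
  obtain ⟨p, hp, hpd⟩ := Nat.exists_prime_and_dvd hd1
  have hpm : p ∣ m := by rw [hd]; exact Dvd.dvd.mul_left hpd _
  have hcp : Function.minimalPeriod σ x ∣ m / p := by
    obtain ⟨e, he⟩ := hpd
    refine ⟨e, ?_⟩
    rw [hd, he, show Function.minimalPeriod σ x * (p * e) =
      p * (Function.minimalPeriod σ x * e) by ring, Nat.mul_div_cancel_left _ hp.pos]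
  have hcP : ¬ Function.minimalPeriod σ x ∣ m / P := fun h => hx ((per_iff σ x _).2 h)
  have hpP : p ≠ P := fun h => hcP (h ▸ hcp)
  have hpleP : p ≤ P := le_max' _ _ (Nat.mem_primeFactors.2 ⟨hp, hpm, by omega⟩)
  have hPc : P ∣ Function.minimalPeriod σ x := by
    rw [hd] at hPd
    rcases hPp.dvd_mul.1 hPd with h | h
    · exact h
    · exfalso
      apply hcP
      obtain ⟨e, he⟩ := h
      refine ⟨e, ?_⟩
      rw [hd, he, show Function.minimalPeriod σ x * (P * e) =
        P * (Function.minimalPeriod σ x * e) by ring, Nat.mul_div_cancel_left _ hPp.pos]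
  have hPlec : P ≤ Function.minimalPeriod σ x := Nat.le_of_dvd hcpos hPc
  have hfix : (orb σ x).card ≤ (univ.filter (fun y => (σ ^ (m / p)) y = y)).card := by
    apply card_le_card
    intro y hy
    obtain ⟨j, -, rfl⟩ := mem_image.1 hy
    rw [mem_filter]
    refine ⟨mem_univ _, ?_⟩
    rw [← Equiv.Perm.mul_apply, ← pow_add, add_comm, pow_add, Equiv.Perm.mul_apply,
      (per_iff σ x _).2 hcp]
  rw [orb_card] at hfix
  have h5 := card_fixed_add_two_le (σ ^ (m / p)) hX hp (hmp p hp hpm)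
    (hno _ (hquot p hp hpm))
  omega

/-- a permutation of `ZMod n` with a point of period `n` is conjugate to adding `1` -/
theorem conj_add_one {n : ℕ} [NeZero n] (σ : Equiv.Perm (ZMod n)) (x : ZMod n)
    (hx : Function.minimalPeriod σ x = n) :
    ∃ π : Equiv.Perm (ZMod n), Equiv.addRight (1 : ZMod n) = π⁻¹ * σ * π := by
  have hmod : ∀ a : ℕ, (σ ^ (a % n)) x = (σ ^ a) x := by
    intro a
    have h0 : a % n = a % Function.minimalPeriod σ x := by rw [hx]
    rw [h0, ← Equiv.Perm.iterate_eq_pow, ← Equiv.Perm.iterate_eq_pow]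
    exact Function.iterate_mod_minimalPeriod_eq
  let f : ZMod n → ZMod n := fun j => (σ ^ j.val) x
  have hfinj : Function.Injective f := by
    intro i j hij
    have h := (Function.iterate_injOn_Iio_minimalPeriod (f := σ) (x := x))
    apply ZMod.val_injective n
    apply h (by rw [hx]; exact ZMod.val_lt i) (by rw [hx]; exact ZMod.val_lt j)
    change (σ^[i.val]) x = (σ^[j.val]) x
    rw [Equiv.Perm.iterate_eq_pow, Equiv.Perm.iterate_eq_pow]
    exact hij
  have hfbij : Function.Bijective f := Finite.injective_iff_bijective.1 hfinj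
  have hstep : ∀ j, f (j + 1) = σ (f j) := by
    intro j
    change (σ ^ (j + 1).val) x = σ ((σ ^ j.val) x)
    rw [← Equiv.Perm.mul_apply, ← pow_succ', ← hmod (j.val + 1)]
    congr 2
    rw [ZMod.val_add, ← Nat.add_mod_mod, ZMod.val_one_eq_one_mod]
    simp
  refine ⟨Equiv.ofBijective f hfbij, ?_⟩
  ext j
  rw [mul_assoc, Equiv.Perm.mul_apply, Equiv.Perm.mul_apply]
  change j + 1 = (Equiv.ofBijective f hfbij).symm (σ (f j))
  rw [Equiv.eq_symm_apply]
  exact hstep j

/-- a rotation of the indices preserves the edge set -/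
theorem preserves_of_rot {W : Type*} {G : SimpleGraph W} (C : HamCycle G) (φ : G ≃g G)
    (a : ZMod C.N) (h : ∀ i, φ (C.c i) = C.c (a + i)) : Preserves φ C := by
  unfold Preserves
  ext e
  constructor
  · rintro ⟨e', ⟨i, rfl⟩, rfl⟩
    refine ⟨a + i, ?_⟩
    rw [Sym2.map_mk, h, h, add_assoc]
  · rintro ⟨i, rfl⟩
    refine ⟨s(C.c (i - a), C.c (i - a + 1)), ⟨i - a, rfl⟩, ?_⟩
    rw [Sym2.map_mk, h, h]
    congr 2
    · ring_nf
    · ring_nf

/-- the image of a Hamilton cycle under an automorphism -/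
def mapCycle {W : Type*} {G : SimpleGraph W} (C : HamCycle G) (ψ : G ≃g G) : HamCycle G where
  N := C.N
  three_le := C.three_le
  c := fun i => ψ (C.c i)
  bij := ψ.bijective.comp C.bij
  adj := fun i => ψ.map_rel_iff.2 (C.adj i)

theorem shift_eq_permHom (k : ℕ) : shift k 1 = permHom k (Equiv.addRight 1) := rfl

/-- a permutation of order `2k+1` whose powers `≠ 1` preserve no `k`-subset is conjugate to the
rotation -/
theorem conj_of_free {k : ℕ} (hk : 1 ≤ k) (σ : Equiv.Perm (ZMod (2 * k + 1)))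
    (hm : orderOf σ = 2 * k + 1)
    (hno : ∀ j, σ ^ j ≠ 1 → ∀ I : Finset (ZMod (2 * k + 1)), I.card = k →
      ¬ ∀ x, (σ ^ j) x ∈ I ↔ x ∈ I) :
    ∃ π : Equiv.Perm (ZMod (2 * k + 1)), Equiv.addRight (1 : ZMod (2 * k + 1)) = π⁻¹ * σ * π := by
  classical
  obtain ⟨x, hx⟩ := exists_period σ (card_X k) hm (by omega) hno
  exact conj_add_one σ x hx

theorem rotation_criterion {k : ℕ} (hk : 3 ≤ k) :
    2 * k + 1 ∈ compressionSet (oddGraph k) ↔
      ∃ C : HamCycle (oddGraph k), Preserves (shift k 1) C := by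
  constructor
  · rintro ⟨C, H, hcyc, hcard, hpres⟩
    obtain ⟨g, hg⟩ := hcyc.exists_generator
    have hord : orderOf g = 2 * k + 1 := by
      rw [orderOf_eq_card_of_forall_mem_zpowers hg, hcard]
    have hordφ : orderOf g.1 = 2 * k + 1 := by rw [Subgroup.orderOf_coe, hord]
    have hφ : Preserves g.1 C := hpres _ g.2
    obtain ⟨σ, hσ⟩ := exists_perm (by omega : 1 ≤ k) g.1
    have hordσ : orderOf σ = 2 * k + 1 := by
      rw [← orderOf_injective (permHom k) (permHom_injective (by omega)) σ, ← hσ, hordφ]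
    obtain ⟨π, hπ⟩ := conj_of_free (by omega) σ hordσ (by
      intro j hj I hI hinv
      apply hj
      apply permHom_injective (by omega : 1 ≤ k)
      rw [map_one, map_pow, ← hσ]
      refine eq_one_of_fix hk C (g.1 ^ j) ((stab C).pow_mem hφ j) ⟨I, hI⟩ ?_
      rw [hσ, ← map_pow]
      exact permHom_fix (σ ^ j) ⟨I, hI⟩ hinv)
    obtain ⟨a, ha⟩ := rot_of_preserves hk C g.1 hφ
    suffices key : ∀ i : ZMod C.N,
        shift k 1 (permHom k π⁻¹ (C.c i)) = permHom k π⁻¹ (C.c (a + i)) from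
      ⟨mapCycle C (permHom k π⁻¹),
        preserves_of_rot (mapCycle C (permHom k π⁻¹)) (shift k 1) a key⟩
    intro i
    have h1 : shift k 1 = permHom k π⁻¹ * g.1 * permHom k π := by
      rw [shift_eq_permHom, hπ, map_mul, map_mul, hσ]
    rw [h1, ← ha]
    change permHom k π⁻¹ (g.1 (permHom k π (permHom k π⁻¹ (C.c i)))) = _
    have h2 : permHom k π (permHom k π⁻¹ (C.c i)) = C.c i := by
      have h3 : permHom k π * permHom k π⁻¹ = 1 := by rw [← map_mul, mul_inv_cancel, map_one]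
      have h4 := congrArg (fun ψ : oddGraph k ≃g oddGraph k => ψ (C.c i)) h3
      exact h4
    rw [h2]
  · rintro ⟨C, hC⟩
    refine ⟨C, Subgroup.zpowers (shift k 1), inferInstance, ?_, ?_⟩
    · rw [Nat.card_zpowers]
      exact orderOf_shift (by omega) isUnit_one
    · intro φ hφ
      have hle : Subgroup.zpowers (shift k 1) ≤ stab C := by
        rw [Subgroup.zpowers_le]; exact hC
      exact hle hφ

/-- the converse for automorphisms -/
theorem exists_free_automorphism {k m : ℕ} (hk : 1 ≤ k) (hm : 0 < m) (h : Admissible k m) :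
    ∃ φ : oddGraph k ≃g oddGraph k, orderOf φ = m ∧
      ∀ j : ℕ, φ ^ j ≠ 1 → ∀ A : V k, (φ ^ j) A ≠ A := by
  obtain ⟨σ, h1, h2⟩ := converse (X := ZMod (2 * k + 1)) (card_X k) hm h
  refine ⟨permHom k σ, ?_, ?_⟩
  · rw [orderOf_injective (permHom k) (permHom_injective hk) σ, h1]
  · intro j hj A hA
    rw [← map_pow] at hj hA
    refine h2 j (fun h3 => hj (by rw [h3, map_one])) A.1 A.2 (inv_of_fix (σ ^ j) A hA)

/-- the order of a freely acting cyclic group of automorphisms is admissible -/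
theorem admissible_of_free {k m : ℕ} (hk : 1 ≤ k) (φ : oddGraph k ≃g oddGraph k)
    (hm : orderOf φ = m) (h : ∀ j : ℕ, φ ^ j ≠ 1 → ∀ A : V k, (φ ^ j) A ≠ A) :
    Admissible k m := by
  classical
  obtain ⟨σ, hσ⟩ := exists_perm hk φ
  have hordσ : orderOf σ = m := by
    rw [← orderOf_injective (permHom k) (permHom_injective hk) σ, ← hσ, hm]
  refine admissible σ (card_X k) hordσ ?_
  intro j hj I hI hinv
  refine h j ?_ ⟨I, hI⟩ ?_
  · intro h1
    apply hj
    apply permHom_injective hk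
    rw [map_one, map_pow, ← hσ, h1]
  · rw [hσ, ← map_pow]
    exact permHom_fix (σ ^ j) ⟨I, hI⟩ hinv

theorem compression_mem {k : ℕ} (hk : 3 ≤ k) {m : ℕ} (hm : m ∈ compressionSet (oddGraph k)) :
    Odd m ∧ Admissible k m ∧ (m = 2 * k + 1 ∨ m ≤ 2 * k - 1) := by
  obtain ⟨h1, h2⟩ := mem_compression hk hm
  have h3 := upper (by omega : 1 ≤ k) hm
  refine ⟨h1, h2, ?_⟩
  obtain ⟨g, hg⟩ := h1
  omega

theorem stab_le {k : ℕ} (hk : 3 ≤ k) (C : HamCycle (oddGraph k)) :
    Nat.card (stab C) ≤ 2 * k + 1 :=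
  upper (by omega : 1 ≤ k) ⟨C, stab C, stab_cyclic hk C, rfl, fun _ h => h⟩

end Pool.Agent.Work.MP_8f87b2_h24.Sym
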